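import Pool.Agent.L0h14.OR.NumDefs
import Pool.Agent.Y107.Grad
import Mathlib

/-!
# Correspondences over an arbitrary field, modulo numerical equivalence: proofs
-/

universe u v

open CategoryTheory

set_option autoImplicit false

namespace Pool.Agent.L0h14.ORN

open Pool.Agent.N174.OC Pool.Agent.Y107

variable {𝒱 : Type u} [Category.{v} 𝒱] [Preadditive 𝒱] [Linear ℚ 𝒱]

/-- a span is mapped to a submodule by a linear map if the generators are -/
lemma span_map_le {M N : Type*} [AddCommGroup M] [AddCommGroup N] [Module ℚ M] [Module ℚ N] {s : Set M}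
    {P : Submodule ℚ N} (φ : M →ₗ[ℚ] N) (h : ∀ x ∈ s, φ x ∈ P) {x : M} (hx : x ∈ Submodule.span ℚ s) : φ x ∈ P := by
  have h1 : Submodule.span ℚ s ≤ P.comap φ := Submodule.span_le.2 h
  exact h1 hx

/-- composition on the right -/
def rc {X Y Z : 𝒱} (f : Y ⟶ Z) : (X ⟶ Y) →ₗ[ℚ] (X ⟶ Z) where
  toFun a := a ≫ f
  map_add' a b := Preadditive.add_comp _ _ _ a b f
  map_smul' r a := Linear.smul_comp _ _ _ r a f

/-- composition on the left -/
def lc {X Y Z : 𝒱} (f : X ⟶ Y) : (Y ⟶ Z) →ₗ[ℚ] (X ⟶ Z) where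
  toFun a := f ≫ a
  map_add' a b := Preadditive.comp_add _ _ _ f a b
  map_smul' r a := Linear.comp_smul _ _ _ f r a

lemma rc_apply {X Y Z : 𝒱} (f : Y ⟶ Z) (a : X ⟶ Y) : rc f a = a ≫ f := rfl

lemma lc_apply {X Y Z : 𝒱} (f : X ⟶ Y) (a : Y ⟶ Z) : lc f a = f ≫ a := rfl

variable {P : 𝒱 → Prop}

lemma via_right {X Y Z : 𝒱} {a : X ⟶ Y} (ha : a ∈ Via P X Y) (f : Y ⟶ Z) : a ≫ f ∈ Via P X Z := by
  refine span_map_le (rc f) ?_ ha
  rintro x ⟨W, p, q, hW, rfl⟩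
  refine Submodule.subset_span ⟨W, p, q ≫ f, hW, ?_⟩
  rw [rc_apply, Category.assoc]

lemma via_left {X Y Z : 𝒱} (f : X ⟶ Y) {a : Y ⟶ Z} (ha : a ∈ Via P Y Z) : f ≫ a ∈ Via P X Z := by
  refine span_map_le (lc f) ?_ ha
  rintro x ⟨W, p, q, hW, rfl⟩
  refine Submodule.subset_span ⟨W, f ≫ p, q, hW, ?_⟩
  rw [lc_apply, Category.assoc]

lemma via_mono {Q : 𝒱 → Prop} (h : ∀ Z, Q Z → P Z) (X Y : 𝒱) : Via Q X Y ≤ Via P X Y := by
  refine Submodule.span_mono ?_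
  rintro x ⟨W, p, q, hW, rfl⟩
  exact ⟨W, p, q, h W hW, rfl⟩

variable (T : ChowTheory 𝒱)

lemma via_tp {X Y : 𝒱} {a : X ⟶ Y} (ha : a ∈ Via P X Y) : T.tp a ∈ Via P Y X := by
  refine span_map_le T.tp ?_ ha
  rintro x ⟨W, p, q, hW, rfl⟩
  exact Submodule.subset_span ⟨W, T.tp q, T.tp p, hW, T.tp_comp p q⟩

/-- correspondences of small codimension -/
lemma small_codim (hc : ∀ Z, T.dim Z ≤ 1 → P Z) (X Y : 𝒱) {i : ℤ} (hi : i ≤ 1 - T.dim X) : T.gr X Y i ≤ Via P X Y := by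
  rcases lt_or_ge i (-T.dim X : ℤ) with h | h
  · rw [T.negative X Y i h]
    exact bot_le
  · rcases eq_or_lt_of_le h with h1 | h1
    · rw [← h1]
      exact (T.codim_zero X Y).trans (via_mono (fun Z hZ => hc Z (by omega)) X Y)
    · have h2 : i = 1 - T.dim X := by omega
      rw [h2]
      exact (T.codim_one X Y).trans (via_mono hc X Y)

/-- Correspondences of negative degree come from the class. -/
theorem neg (hc : ∀ Z, T.dim Z ≤ 1 → P Z) {c : ℕ} {X Y : 𝒱} (hd : T.dim X ≤ 2 * c + 2) (hX : T.Level P c X)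
    (hY : T.Level P c Y) (j : ℤ) (hj : j < 0) : T.gr X Y j ≤ Via P X Y := by
  intro f hf
  obtain ⟨t, ht, s, hs, hts⟩ := Submodule.mem_sup.1 hX
  obtain ⟨t', ht', s', hs', hts'⟩ := Submodule.mem_sup.1 hY
  have e1 : T.tp t + T.tp s = 𝟙 X := by rw [← map_add, hts, T.tp_id]
  have e2 : f = T.tp t ≫ f + (T.tp s ≫ f ≫ t' + T.tp s ≫ f ≫ s') := by
    calc f = 𝟙 X ≫ f := (Category.id_comp f).symm
      _ = T.tp t ≫ f + T.tp s ≫ f := by rw [← e1, Preadditive.add_comp]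
      _ = T.tp t ≫ f + T.tp s ≫ f ≫ (t' + s') := by rw [hts', Category.comp_id]
      _ = _ := by rw [Preadditive.comp_add, Preadditive.comp_add]
  rw [e2]
  refine add_mem (via_right (via_tp T ht) f) (add_mem ?_ ?_)
  · exact via_left _ (via_left _ ht')
  · refine span_map_le ((rc (f ≫ s')) ∘ₗ T.tp) ?_ hs
    rintro x ⟨D, a, b, ha, hb, rfl⟩
    rw [LinearMap.comp_apply, rc_apply, T.tp_comp, Category.assoc]
    refine via_left _ ?_
    refine span_map_le ((lc (T.tp a)) ∘ₗ (lc f)) ?_ hs'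
    rintro y ⟨E, a', b', ha', hb', rfl⟩
    rw [LinearMap.comp_apply, lc_apply, lc_apply, ← Category.assoc, ← Category.assoc]
    refine via_right ?_ b'
    have h1 := T.comp_mem (T.comp_mem (T.tp_mem ha) hf) ha'
    refine small_codim T hc D E ?_ h1
    omega

/-! ### Numerical equivalence -/

lemma triv_right {X Y Z : 𝒱} {a : X ⟶ Y} (ha : a ∈ T.triv X Y) (f : Y ⟶ Z) : a ≫ f ∈ T.triv X Z := by
  intro b
  rw [Category.assoc]
  exact ha _

lemma triv_left {X Y Z : 𝒱} (f : X ⟶ Y) {a : Y ⟶ Z} (ha : a ∈ T.triv Y Z) : f ≫ a ∈ T.triv X Z := by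
  intro b
  rw [Category.assoc, T.tr_comm, Category.assoc]
  exact ha _

lemma via_sum {X Y : 𝒱} {z : X ⟶ Y} (hz : z ∈ Via P X Y) :
    ∃ (N : ℕ) (Z : Fin N → 𝒱) (a : ∀ i, X ⟶ Z i) (b : ∀ i, Z i ⟶ Y), (∀ i, P (Z i)) ∧
      z = ∑ i, a i ≫ b i := by
  obtain ⟨N, f, g, h⟩ := (Submodule.mem_span_set' (R := ℚ)).1 hz
  choose Z a b hZ hab using fun i => (g i).2
  refine ⟨N, Z, fun i => f i • a i, b, hZ, ?_⟩
  rw [← h]
  refine Finset.sum_congr rfl fun i _ => ?_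
  rw [Linear.smul_comp, hab i]

/-- numerically trivial correspondences which factor through the class are nilpotent -/
lemma via_nil (hP : T.Finite P) {X : 𝒱} {z : End X} (hz : (z : X ⟶ X) ∈ Via P X X) (h0 : (z : X ⟶ X) ∈ T.triv X X) :
    IsNilpotent z := by
  obtain ⟨N, Z, a, b, hZ, hzs⟩ := via_sum hz
  obtain ⟨k, hk⟩ := hP.2 N Z hZ (fun i j => b i ≫ (z : X ⟶ X) ≫ a j) fun i j =>
    triv_left T _ (triv_right T h0 _)
  have key : ∀ k, ∀ i, ∑ j, mpow (fun i j => b i ≫ (z : X ⟶ X) ≫ a j) k i j ≫ b j =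
      b i ≫ ((z ^ (2 * k + 2) : End X) : X ⟶ X) := by
    intro k
    induction k with
    | zero =>
      intro i
      show ∑ j, (b i ≫ (z : X ⟶ X) ≫ a j) ≫ b j = _
      have e : ((z ^ (2 * 0 + 2) : End X) : X ⟶ X) = (z : X ⟶ X) ≫ (z : X ⟶ X) := by
        rw [mul_zero, zero_add, pow_two]
        rfl
      rw [e]
      conv_rhs =>
        rhs
        rhs
        rw [hzs]
      simp only [Preadditive.comp_sum, Category.assoc]
    | succ k ih =>
      intro i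
      show ∑ j, (∑ l, (b i ≫ (z : X ⟶ X) ≫ a l) ≫ mpow (fun i j => b i ≫ (z : X ⟶ X) ≫ a j) k l j) ≫ b j = _
      simp only [Preadditive.sum_comp, Category.assoc]
      rw [Finset.sum_comm]
      simp only [← Preadditive.comp_sum, ih]
      have e : ((z ^ (2 * (k + 1) + 2) : End X) : X ⟶ X) =
          (z : X ⟶ X) ≫ (z : X ⟶ X) ≫ ((z ^ (2 * k + 2) : End X) : X ⟶ X) := by
        have : 2 * (k + 1) + 2 = (2 * k + 2) + 1 + 1 := by ring
        rw [this, pow_succ, pow_succ, End.mul_def, End.mul_def]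
      rw [e]
      have e2 : (z : X ⟶ X) ≫ ((z ^ (2 * k + 2) : End X) : X ⟶ X) =
          ∑ l, a l ≫ b l ≫ ((z ^ (2 * k + 2) : End X) : X ⟶ X) := by
        conv_lhs =>
          lhs
          rw [hzs]
        simp only [Preadditive.sum_comp, Category.assoc]
      rw [e2]
  refine ⟨2 * k + 3, ?_⟩
  have e : ((z ^ (2 * k + 3) : End X) : X ⟶ X) = (z : X ⟶ X) ≫ ((z ^ (2 * k + 2) : End X) : X ⟶ X) := by
    rw [pow_succ, End.mul_def]
  have e3 : (z : X ⟶ X) ≫ ((z ^ (2 * k + 2) : End X) : X ⟶ X) =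
      ∑ l, a l ≫ b l ≫ ((z ^ (2 * k + 2) : End X) : X ⟶ X) := by
    conv_lhs =>
      lhs
      rw [hzs]
    simp only [Preadditive.sum_comp, Category.assoc]
  show ((z ^ (2 * k + 3) : End X) : X ⟶ X) = 0
  rw [e, e3]
  refine Finset.sum_eq_zero fun l _ => ?_
  rw [← key k l]
  simp only [hk, Limits.zero_comp, Finset.sum_const_zero, Limits.comp_zero]

/-! ### The algebra of the correspondences of degree zero modulo numerical equivalence -/

/-- the self-correspondences modulo numerical equivalence -/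
abbrev Wn (X : 𝒱) : Type v := (X ⟶ X) ⧸ T.triv X X

instance (X : 𝒱) : FiniteDimensional ℚ (Wn T X) := by
  obtain ⟨n, φ, hφ⟩ := T.finite X
  have hle : LinearMap.ker φ ≤ T.triv X X := fun a ha => hφ a ha
  have h1 : FiniteDimensional ℚ ((X ⟶ X) ⧸ LinearMap.ker φ) :=
    Module.Finite.equiv (LinearMap.quotKerEquivRange φ).symm
  exact Module.Finite.of_surjective (Submodule.factor hle) (Submodule.factor_surjective hle)

/-- the action of a correspondence by composition -/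
noncomputable def op {X : 𝒱} (a : X ⟶ X) : Module.End ℚ (Wn T X) :=
  Submodule.mapQ (T.triv X X) (T.triv X X) (rc a) fun _ hb => triv_right T hb a

lemma op_mk {X : 𝒱} (a b : X ⟶ X) : op T a (Submodule.Quotient.mk b) = Submodule.Quotient.mk (b ≫ a) := rfl

lemma op_comp {X : 𝒱} (a b : X ⟶ X) : op T (a ≫ b) = op T b * op T a := by
  refine LinearMap.ext fun x => ?_
  obtain ⟨x, rfl⟩ := Submodule.Quotient.mk_surjective _ x
  rw [Module.End.mul_apply, op_mk, op_mk, op_mk, Category.assoc]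

lemma op_id (X : 𝒱) : op T (𝟙 X) = 1 := by
  refine LinearMap.ext fun x => ?_
  obtain ⟨x, rfl⟩ := Submodule.Quotient.mk_surjective _ x
  rw [op_mk, Category.comp_id]
  rfl

lemma op_add {X : 𝒱} (a b : X ⟶ X) : op T (a + b) = op T a + op T b := by
  refine LinearMap.ext fun x => ?_
  obtain ⟨x, rfl⟩ := Submodule.Quotient.mk_surjective _ x
  rw [LinearMap.add_apply, op_mk, op_mk, op_mk, Preadditive.comp_add]
  rfl

lemma op_smul {X : 𝒱} (c : ℚ) (a : X ⟶ X) : op T (c • a) = c • op T a := by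
  refine LinearMap.ext fun x => ?_
  obtain ⟨x, rfl⟩ := Submodule.Quotient.mk_surjective _ x
  rw [LinearMap.smul_apply, op_mk, op_mk, Linear.comp_smul]
  rfl

lemma op_sub {X : 𝒱} (a b : X ⟶ X) : op T (a - b) = op T a - op T b := by
  rw [eq_sub_iff_add_eq, ← op_add, sub_add_cancel]

lemma op_triv {X : 𝒱} {a : X ⟶ X} (ha : a ∈ T.triv X X) : op T a = 0 := by
  refine LinearMap.ext fun x => ?_
  obtain ⟨x, rfl⟩ := Submodule.Quotient.mk_surjective _ x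
  rw [op_mk, LinearMap.zero_apply, Submodule.Quotient.mk_eq_zero]
  exact triv_left T x ha

lemma triv_of_op {X : 𝒱} {a b : X ⟶ X} (h : op T a = op T b) : a - b ∈ T.triv X X := by
  have h1 := congrArg (fun f : Module.End ℚ (Wn T X) => f (Submodule.Quotient.mk (𝟙 X))) h
  simp only [op_mk, Category.id_comp] at h1
  exact (Submodule.Quotient.eq _).1 h1

/-- the algebra of the correspondences of degree zero modulo numerical equivalence -/
noncomputable def Alg0 (X : 𝒱) : Subalgebra ℚ (Module.End ℚ (Wn T X)) where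
  carrier := {φ | ∃ a ∈ T.gr X X 0, op T a = φ}
  mul_mem' := by
    rintro _ _ ⟨a, ha, rfl⟩ ⟨b, hb, rfl⟩
    refine ⟨b ≫ a, ?_, op_comp T b a⟩
    have := T.comp_mem hb ha
    rwa [add_zero] at this
  add_mem' := by
    rintro _ _ ⟨a, ha, rfl⟩ ⟨b, hb, rfl⟩
    exact ⟨a + b, add_mem ha hb, op_add T a b⟩
  algebraMap_mem' := by
    intro c
    refine ⟨c • 𝟙 X, Submodule.smul_mem _ _ (T.id_mem X), ?_⟩
    rw [op_smul, op_id, Algebra.algebraMap_eq_smul_one]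

/-- `1 + N` is invertible if `N` is nilpotent of degree zero -/
lemma exists_inv0 {X : 𝒱} {a : End X} (ha : (a : X ⟶ X) ∈ T.gr X X 0) (hnil : IsNilpotent (a - 1)) :
    ∃ b : End X, (b : X ⟶ X) ∈ T.gr X X 0 ∧ b * a = 1 ∧ a * b = 1 := by
  obtain ⟨k, hk⟩ := hnil
  let S : Subring (End X) :=
    { carrier := {a | (a : X ⟶ X) ∈ T.gr X X 0}
      mul_mem' := by
        intro a b ha hb
        have := T.comp_mem (Γ := (b : X ⟶ X)) (Δ := (a : X ⟶ X)) hb ha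
        rwa [add_zero] at this
      one_mem' := T.id_mem X
      add_mem' := fun ha hb => Submodule.add_mem _ ha hb
      zero_mem' := Submodule.zero_mem _
      neg_mem' := fun ha => Submodule.neg_mem _ ha }
  set β : S := ⟨a, ha⟩ with hβ
  have h1 : IsNilpotent (β - 1) := ⟨k, Subtype.ext hk⟩
  obtain ⟨U, hU⟩ := h1.isUnit_add_one
  rw [sub_add_cancel] at hU
  refine ⟨((↑U⁻¹ : S) : End X), (↑U⁻¹ : S).2, ?_, ?_⟩
  · have h3 : (↑U⁻¹ : S) * β = 1 := by rw [← hU, Units.inv_mul]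
    exact congrArg Subtype.val h3
  · have h3 : β * (↑U⁻¹ : S) = 1 := by rw [← hU, Units.mul_inv]
    exact congrArg Subtype.val h3

lemma exists_inv (hP : T.Finite P) {X : 𝒱} {a : X ⟶ X} (ha : a ∈ T.gr X X 0) (h1 : a - 𝟙 X ∈ Via P X X)
    (h2 : a - 𝟙 X ∈ T.triv X X) : ∃ b ∈ T.gr X X 0, a ≫ b = 𝟙 X ∧ b ≫ a = 𝟙 X := by
  have hn := via_nil T hP (z := (show End X from a - 𝟙 X)) h1 h2
  obtain ⟨b, hb, h3, h4⟩ := exists_inv0 T (a := (show End X from a)) ha hn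
  exact ⟨b, hb, h3, h4⟩

/-- Units lift modulo two-sided ideals (see `Lift.lean`). -/
def LiftP : Prop := ∀ (R : Type v) [Ring R] [Algebra ℚ R] [FiniteDimensional ℚ R] (J : Submodule ℚ R),
  (∀ a, ∀ x ∈ J, a * x ∈ J ∧ x * a ∈ J) → ∀ u v : R, u * v - 1 ∈ J → v * u - 1 ∈ J →
  ∃ j ∈ J, IsUnit (u + j)

theorem units (lift : LiftP.{v}) (hP : T.Finite P) {X Y : 𝒱} {f : X ⟶ Y} (hf : f ∈ T.gr X Y 0) {g : Y ⟶ X}
    (hg : g ∈ T.gr Y X 0) (hk : f ≫ g - 𝟙 X ∈ Via P X X) (hk' : g ≫ f - 𝟙 Y ∈ Via P Y Y)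
    (hiso : T.NumIso X Y) : T.ChowIso X Y := by
  obtain ⟨φ, hφ, ψ, hψ, e1, e2⟩ := hiso
  have z0 : ∀ {A B C : 𝒱} {a : A ⟶ B} {b : B ⟶ C}, a ∈ T.gr A B 0 → b ∈ T.gr B C 0 → a ≫ b ∈ T.gr A C 0 := by
    intro A B C a b ha hb
    have := T.comp_mem ha hb
    rwa [add_zero] at this
  have hfg := sub_mem (z0 hf hg) (T.id_mem X)
  have hgf := sub_mem (z0 hg hf) (T.id_mem Y)
  have hgφ := z0 hφ hg
  have hfψ := z0 hf hψ
  let u : Alg0 T X := ⟨op T (f ≫ ψ), f ≫ ψ, hfψ, rfl⟩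
  let w : Alg0 T X := ⟨op T (φ ≫ g), φ ≫ g, hgφ, rfl⟩
  -- the ideal
  let J : Submodule ℚ (Alg0 T X) :=
    { carrier := {A | ∃ a ∈ T.gr X X 0, a ∈ Via P X X ∧ op T a = A}
      zero_mem' := ⟨0, zero_mem _, zero_mem _, op_triv T (zero_mem _)⟩
      add_mem' := by
        rintro a b ⟨Γ, hΓ, hΓ', h1⟩ ⟨Δ, hΔ, hΔ', h2⟩
        refine ⟨Γ + Δ, add_mem hΓ hΔ, add_mem hΓ' hΔ', ?_⟩
        rw [op_add, h1, h2]
        rfl
      smul_mem' := by
        rintro c a ⟨Γ, hΓ, hΓ', h1⟩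
        refine ⟨c • Γ, Submodule.smul_mem _ _ hΓ, Submodule.smul_mem _ _ hΓ', ?_⟩
        rw [op_smul, h1]
        rfl }
  have hJ : ∀ a, ∀ x ∈ J, a * x ∈ J ∧ x * a ∈ J := by
    rintro ⟨_, Δ, hΔ, rfl⟩ x ⟨Γ, hΓ, hΓ', h1⟩
    refine ⟨⟨Γ ≫ Δ, z0 hΓ hΔ, via_right hΓ' Δ, ?_⟩, ⟨Δ ≫ Γ, z0 hΔ hΓ, via_left Δ hΓ', ?_⟩⟩
    · rw [op_comp, h1]
      rfl
    · rw [op_comp, h1]
      rfl
  have huw : u * w - 1 ∈ J := by
    refine ⟨φ ≫ (g ≫ f - 𝟙 Y) ≫ ψ, z0 hφ (z0 hgf hψ), via_left φ (via_right hk' ψ), ?_⟩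
    show _ = op T (f ≫ ψ) * op T (φ ≫ g) - 1
    have h1 : φ ≫ (g ≫ f - 𝟙 Y) ≫ ψ = (φ ≫ g) ≫ (f ≫ ψ) - φ ≫ ψ := by
      simp only [Preadditive.sub_comp, Preadditive.comp_sub, Category.assoc, Category.id_comp]
    have h2 : op T (φ ≫ ψ) = 1 := by
      rw [← op_id T X, ← sub_eq_zero, ← op_sub]
      exact op_triv T e1
    rw [h1, op_sub, op_comp, h2]
  have hwu : w * u - 1 ∈ J := by
    refine ⟨f ≫ g - 𝟙 X, hfg, hk, ?_⟩
    show _ = op T (φ ≫ g) * op T (f ≫ ψ) - 1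
    have h2 : op T (f ≫ g) = op T ((f ≫ ψ) ≫ (φ ≫ g)) := by
      rw [← sub_eq_zero, ← op_sub]
      have : f ≫ g - (f ≫ ψ) ≫ φ ≫ g = -(f ≫ (ψ ≫ φ - 𝟙 Y) ≫ g) := by
        simp only [Preadditive.sub_comp, Preadditive.comp_sub, Category.assoc, Category.id_comp, neg_sub]
      rw [this]
      exact op_triv T (neg_mem (triv_left T f (triv_right T e2 g)))
    rw [op_sub, op_id, h2, op_comp]
  obtain ⟨j, ⟨Γj, hj1, hj2, hj3⟩, hunit⟩ := lift (Alg0 T X) J hJ u w huw hwu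
  obtain ⟨t, ht⟩ := hunit
  obtain ⟨Γt, ht1, ht2⟩ := ((t⁻¹ : (Alg0 T X)ˣ) : Alg0 T X).2
  have hopF : op T (f ≫ ψ + Γj) = ((u + j : Alg0 T X) : Module.End ℚ (Wn T X)) := by
    rw [op_add, hj3]
    rfl
  have t1 : (f ≫ ψ + Γj) ≫ Γt - 𝟙 X ∈ T.triv X X := by
    apply triv_of_op
    rw [op_comp, ht2, hopF, op_id, ← ht]
    exact congrArg Subtype.val t.inv_mul
  have t2 : Γt ≫ (f ≫ ψ + Γj) - 𝟙 X ∈ T.triv X X := by
    apply triv_of_op
    rw [op_comp, ht2, hopF, op_id, ← ht]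
    exact congrArg Subtype.val t.mul_inv
  -- the corrected morphisms
  set F : X ⟶ Y := f + Γj ≫ φ with hF
  have hF0 : F ∈ T.gr X Y 0 := add_mem hf (z0 hj1 hφ)
  set G₀ : Y ⟶ X := ψ ≫ Γt with hG₀
  have hG₀0 : G₀ ∈ T.gr Y X 0 := z0 hψ ht1
  have hFψ : F ≫ ψ - (f ≫ ψ + Γj) ∈ T.triv X X := by
    have : F ≫ ψ - (f ≫ ψ + Γj) = Γj ≫ (φ ≫ ψ - 𝟙 X) := by
      rw [hF, Preadditive.add_comp, Category.assoc, Preadditive.comp_sub, Category.comp_id]
      abel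
    rw [this]
    exact triv_left T _ e1
  have FG₀ : F ≫ G₀ - 𝟙 X ∈ T.triv X X := by
    have : F ≫ G₀ - 𝟙 X = (F ≫ ψ - (f ≫ ψ + Γj)) ≫ Γt + ((f ≫ ψ + Γj) ≫ Γt - 𝟙 X) := by
      rw [hG₀, Preadditive.sub_comp, Category.assoc]
      abel
    rw [this]
    exact add_mem (triv_right T hFψ _) t1
  have G₀F : G₀ ≫ F - 𝟙 Y ∈ T.triv Y Y := by
    have : G₀ ≫ F - 𝟙 Y = -(G₀ ≫ F ≫ (ψ ≫ φ - 𝟙 Y)) + (ψ ≫ Γt ≫ (F ≫ ψ - (f ≫ ψ + Γj))) ≫ φ +
        ψ ≫ (Γt ≫ (f ≫ ψ + Γj) - 𝟙 X) ≫ φ + (ψ ≫ φ - 𝟙 Y) := by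
      rw [hG₀]
      simp only [Preadditive.sub_comp, Preadditive.comp_sub, Preadditive.add_comp, Preadditive.comp_add, Category.assoc,
        Category.id_comp, Category.comp_id]
      abel
    rw [this]
    refine add_mem (add_mem (add_mem (neg_mem (triv_left T _ (triv_left T _ e2))) ?_) ?_) e2
    · exact triv_right T (triv_left T _ (triv_left T _ hFψ)) _
    · exact triv_left T _ (triv_right T t2 _)
  set k₁ : X ⟶ X := F ≫ g - 𝟙 X with hk₁
  have hk₁0 : k₁ ∈ T.gr X X 0 := sub_mem (z0 hF0 hg) (T.id_mem X)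
  have hk₁t : k₁ ∈ Via P X X := by
    have : k₁ = (f ≫ g - 𝟙 X) + (Γj ≫ φ ≫ g) := by
      rw [hk₁, hF, Preadditive.add_comp, Category.assoc]
      abel
    rw [this]
    exact add_mem hk (via_right hj2 _)
  set G : Y ⟶ X := g - G₀ ≫ k₁ with hG
  have hG0 : G ∈ T.gr Y X 0 := sub_mem hg (z0 hG₀0 hk₁0)
  have hGG₀ : G - G₀ ∈ T.triv Y X := by
    have : G - G₀ = -((G₀ ≫ F - 𝟙 Y) ≫ g) := by
      rw [hG, hk₁]
      simp only [Preadditive.sub_comp, Preadditive.comp_sub, Category.assoc, Category.id_comp, Category.comp_id]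
      abel
    rw [this]
    exact neg_mem (triv_right T G₀F _)
  -- the compositions
  have m1 : F ≫ G - 𝟙 X ∈ Via P X X := by
    have : F ≫ G - 𝟙 X = k₁ - F ≫ G₀ ≫ k₁ := by
      rw [hG, Preadditive.comp_sub, hk₁]
      abel
    rw [this]
    exact sub_mem hk₁t (via_left _ (via_left _ hk₁t))
  have m2 : G ≫ F - 𝟙 Y ∈ Via P Y Y := by
    have : G ≫ F - 𝟙 Y = (g ≫ f - 𝟙 Y) + g ≫ Γj ≫ φ - G₀ ≫ k₁ ≫ F := by
      rw [hG, Preadditive.sub_comp, hF, Preadditive.comp_add, Category.assoc]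
      abel
    rw [this]
    exact sub_mem (add_mem hk' (via_left _ (via_right hj2 _))) (via_left _ (via_right hk₁t _))
  have a1 : F ≫ G - 𝟙 X ∈ T.triv X X := by
    have h1 : F ≫ (G - G₀) = F ≫ G - F ≫ G₀ := Preadditive.comp_sub _ _ _
    have : F ≫ G - 𝟙 X = F ≫ (G - G₀) + (F ≫ G₀ - 𝟙 X) := by
      rw [h1, sub_add_sub_cancel]
    rw [this]
    exact add_mem (triv_left T _ hGG₀) FG₀
  have a2 : G ≫ F - 𝟙 Y ∈ T.triv Y Y := by
    have h1 : (G - G₀) ≫ F = G ≫ F - G₀ ≫ F := Preadditive.sub_comp _ _ _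
    have : G ≫ F - 𝟙 Y = (G - G₀) ≫ F + (G₀ ≫ F - 𝟙 Y) := by
      rw [h1, sub_add_sub_cancel]
    rw [this]
    exact add_mem (triv_right T hGG₀ _) G₀F
  obtain ⟨M, hM, hM1, -⟩ := exists_inv T hP (z0 hF0 hG0) m1 a1
  obtain ⟨M', hM', -, hM2⟩ := exists_inv T hP (z0 hG0 hF0) m2 a2
  refine ⟨F, hF0, G ≫ M, z0 hG0 hM, ?_, ?_⟩
  · rw [← Category.assoc]
    exact hM1
  · have h1 : G ≫ M = M' ≫ G := by
      calc G ≫ M = (M' ≫ G ≫ F) ≫ (G ≫ M) := by rw [hM2, Category.id_comp]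
        _ = M' ≫ G ≫ ((F ≫ G) ≫ M) := by simp only [Category.assoc]
        _ = M' ≫ G := by rw [hM1, Category.comp_id]
    rw [h1, Category.assoc]
    exact hM2

/-! ### Mixed correspondences -/

/-- the component of degree zero -/
noncomputable def z0 {X Y : 𝒱} : (X ⟶ Y) →ₗ[ℚ] (X ⟶ Y) := cmp (T.isInternal X Y) 0

lemma hom_mem {X Y : 𝒱} (Γ : X ⟶ Y) : Γ ∈ ⨆ i, T.gr X Y i := by
  rw [(T.isInternal X Y).submodule_iSup_eq_top]
  exact Submodule.mem_top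

/-- the component of degree zero of a product -/
lemma z0_mul {X Y Z : 𝒱} (h1 : ∀ j : ℤ, j < 0 → T.gr X Y j ≤ Via P X Y)
    (h2 : ∀ j : ℤ, j < 0 → T.gr Y Z j ≤ Via P Y Z) (v : X ⟶ Y) (w : Y ⟶ Z) :
    z0 T (v ≫ w) - z0 T v ≫ z0 T w ∈ Via P X Z := by
  refine Submodule.iSup_induction (T.gr X Y) (motive := fun v => z0 T (v ≫ w) - z0 T v ≫ z0 T w ∈ Via P X Z)
    (hom_mem T v) (fun i v hv => ?_) ?_ (fun v v' e1 e2 => ?_)
  · refine Submodule.iSup_induction (T.gr Y Z) (motive := fun w => z0 T (v ≫ w) - z0 T v ≫ z0 T w ∈ Via P X Z)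
      (hom_mem T w) (fun j w hw => ?_) ?_ (fun w w' e1 e2 => ?_)
    · have hvw := T.comp_mem hv hw
      by_cases hij : i + j = 0
      · rw [hij] at hvw
        unfold z0
        rw [cmp_of_mem _ hvw]
        by_cases hi : i = 0
        · subst hi
          have hj : j = 0 := by omega
          subst hj
          rw [cmp_of_mem _ hv, cmp_of_mem _ hw, sub_self]
          exact zero_mem _
        · rw [cmp_of_ne _ hv hi, Limits.zero_comp, sub_zero]
          rcases lt_or_gt_of_ne hi with h | h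
          · exact via_right (h1 i h hv) w
          · exact via_left v (h2 j (by omega) hw)
      · unfold z0
        rw [cmp_of_ne _ hvw hij]
        by_cases hi : i = 0
        · have hj : j ≠ 0 := by omega
          rw [cmp_of_ne _ hw hj, Limits.comp_zero, sub_zero]
          exact zero_mem _
        · rw [cmp_of_ne _ hv hi, Limits.zero_comp, sub_zero]
          exact zero_mem _
    · rw [Limits.comp_zero, map_zero, map_zero, Limits.comp_zero, sub_zero]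
      exact zero_mem _
    · have : z0 T (v ≫ (w + w')) - z0 T v ≫ z0 T (w + w') =
          (z0 T (v ≫ w) - z0 T v ≫ z0 T w) + (z0 T (v ≫ w') - z0 T v ≫ z0 T w') := by
        rw [Preadditive.comp_add, map_add, map_add, Preadditive.comp_add]
        abel
      rw [this]
      exact add_mem e1 e2
  · rw [Limits.zero_comp, map_zero, map_zero, Limits.zero_comp, sub_zero]
    exact zero_mem _
  · have : z0 T ((v + v') ≫ w) - z0 T (v + v') ≫ z0 T w =
        (z0 T (v ≫ w) - z0 T v ≫ z0 T w) + (z0 T (v' ≫ w) - z0 T v' ≫ z0 T w) := by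
      rw [Preadditive.add_comp, map_add, map_add, Preadditive.add_comp]
      abel
    rw [this]
    exact add_mem e1 e2

/-- The Chow motives are isomorphic if and only if the numerical motives are. -/
theorem main (lift : LiftP.{v}) (hP : T.Finite P) {c : ℕ} {X Y : 𝒱} (hdX : T.dim X ≤ 2 * c + 2)
    (hdY : T.dim Y ≤ 2 * c + 2) (hX : T.Level P c X) (hY : T.Level P c Y) {v : X ⟶ Y} {w : Y ⟶ X}
    (hvw : v ≫ w = 𝟙 X) (hwv : w ≫ v = 𝟙 Y) : T.ChowIso X Y ↔ T.NumIso X Y := by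
  constructor
  · rintro ⟨Z, hZ, Z', hZ', h1, h2⟩
    refine ⟨Z, hZ, Z', hZ', ?_, ?_⟩
    · rw [h1, sub_self]
      exact zero_mem _
    · rw [h2, sub_self]
      exact zero_mem _
  · intro h
    have n1 := neg T hP.1 hdX hX hY
    have n2 := neg T hP.1 hdY hY hX
    have k1 := z0_mul T n1 n2 v w
    have k2 := z0_mul T n2 n1 w v
    have e1 : z0 T (v ≫ w) = 𝟙 X := by
      rw [hvw]
      exact cmp_of_mem _ (T.id_mem X)
    have e2 : z0 T (w ≫ v) = 𝟙 Y := by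
      rw [hwv]
      exact cmp_of_mem _ (T.id_mem Y)
    rw [e1] at k1
    rw [e2] at k2
    refine units T lift hP (cmp_mem (T.isInternal X Y) 0 v) (cmp_mem (T.isInternal Y X) 0 w) ?_ ?_ h
    · have := neg_mem k1
      rwa [neg_sub] at this
    · have := neg_mem k2
      rwa [neg_sub] at this

end Pool.Agent.L0h14.ORN
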