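import Pool.Agent.L0h14.OR.Stm

/-!
Units lift modulo two-sided ideals of a finite-dimensional algebra (module `S_Lift`).
-/

namespace Pool.Agent.L0h14.OR

universe uR

/-- Units lift modulo a two-sided ideal of a ring with semisimple quotient by a nilpotent Jacobson radical. -/
theorem lift_units_semiprimary {R : Type uR} [Ring R] [IsSemiprimaryRing R] (J : Set R)
    (hJ0 : (0 : R) ∈ J) (hJadd : ∀ x ∈ J, ∀ y ∈ J, x + y ∈ J)
    (hJ : ∀ a, ∀ x ∈ J, a * x ∈ J ∧ x * a ∈ J) (u v : R) (huv : u * v - 1 ∈ J) (hvu : v * u - 1 ∈ J) :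
    ∃ j ∈ J, IsUnit (u + j) := by
  classical
  let Q := R ⧸ Ring.jacobson R
  let π : R →+* Q := Ideal.Quotient.mk (Ring.jacobson R)
  have hπ : Function.Surjective π := Ideal.Quotient.mk_surjective
  -- image of J as a left ideal of Q
  let I : Ideal Q :=
    { carrier := π '' J
      zero_mem' := ⟨0, hJ0, map_zero π⟩
      add_mem' := by
        rintro _ _ ⟨x, hx, rfl⟩ ⟨y, hy, rfl⟩
        exact ⟨x + y, hJadd x hx y hy, map_add π x y⟩
      smul_mem' := by
        rintro c _ ⟨x, hx, rfl⟩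
        obtain ⟨a, rfl⟩ := hπ c
        exact ⟨a * x, (hJ a x hx).1, map_mul π a x⟩ }
  obtain ⟨e, he, hIe⟩ := IsSemisimpleRing.ideal_eq_span_idempotent I
  have heI : e ∈ I := by rw [hIe]; exact Ideal.mem_span_singleton_self e
  have hright : ∀ x ∈ I, x * e = x := by
    intro x hx
    rw [hIe] at hx
    obtain ⟨a, rfl⟩ := Ideal.mem_span_singleton'.1 hx
    rw [mul_assoc, he.eq]
  have htwo : ∀ x ∈ I, ∀ r : Q, x * r ∈ I := by
    rintro _ ⟨x, hx, rfl⟩ r
    obtain ⟨a, rfl⟩ := hπ r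
    exact ⟨x * a, (hJ a x hx).2, map_mul π x a⟩
  have here : ∀ r : Q, e * r * e = e * r := fun r => hright _ (htwo e heI r)
  -- the two units
  have key : ∀ a b : Q, a * b - 1 ∈ I → (a * (1 - e) + e) * (b * (1 - e) + e) = 1 := by
    intro a b hab
    have h1 : a * b * e = a * b - 1 + e := by
      have := hright _ hab
      rw [sub_mul, one_mul] at this
      exact sub_eq_iff_eq_add.1 this
    have h4 : e * (b * (1 - e)) = 0 := by
      rw [mul_sub, mul_sub, mul_one, ← mul_assoc, here b, sub_self]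
    have h5 : (1 - e) * (b * (1 - e)) = b * (1 - e) := by
      rw [sub_mul, one_mul, h4, sub_zero]
    have h6 : (1 - e) * e = 0 := by rw [sub_mul, one_mul, he.eq, sub_self]
    calc (a * (1 - e) + e) * (b * (1 - e) + e)
        = a * ((1 - e) * (b * (1 - e))) + a * ((1 - e) * e) + (e * (b * (1 - e)) + e * e) := by
          rw [add_mul, mul_add, mul_add, mul_assoc, mul_assoc]
      _ = a * (b * (1 - e)) + e := by rw [h4, h5, h6, he.eq, mul_zero, add_zero, zero_add]
      _ = 1 := by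
          rw [mul_sub, mul_sub, mul_one, ← mul_assoc, h1]
          abel
  obtain ⟨j, hj, hje⟩ : ∃ j ∈ J, π j = (1 - π u) * e := by
    have : (1 - π u) * e ∈ I := I.mul_mem_left _ heI
    obtain ⟨j, hj, h⟩ := this
    exact ⟨j, hj, h⟩
  refine ⟨j, hj, ?_⟩
  have hpj : π (u + j) = π u * (1 - e) + e := by
    rw [map_add, hje, sub_mul, mul_sub, one_mul, mul_one]
    abel
  have huvI : π u * π v - 1 ∈ I := ⟨u * v - 1, huv, by simp⟩
  have hvuI : π v * π u - 1 ∈ I := ⟨v * u - 1, hvu, by simp⟩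
  obtain ⟨w, hw⟩ := hπ (π v * (1 - e) + e)
  -- `u + j` and `w` are inverse modulo the radical
  have hnil : IsNilpotent (Ring.jacobson R) := IsSemiprimaryRing.isNilpotent
  obtain ⟨n, hn⟩ := hnil
  have hnilel : ∀ x ∈ Ring.jacobson R, IsNilpotent x := by
    intro x hx
    refine ⟨n, ?_⟩
    have : x ^ n ∈ (Ring.jacobson R) ^ n := Ideal.pow_mem_pow hx n
    rw [hn] at this
    exact this
  have hunit : ∀ x : R, π x = 1 → IsUnit x := by
    intro x hx
    have h1 : x - 1 ∈ Ring.jacobson R := by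
      rw [← Ideal.Quotient.eq, map_one]; exact hx
    have := (hnilel _ h1).isUnit_add_one
    rwa [sub_add_cancel] at this
  have hL : IsUnit ((u + j) * w) := hunit _ (by rw [map_mul, hpj, hw]; exact key _ _ huvI)
  have hR : IsUnit (w * (u + j)) := hunit _ (by rw [map_mul, hpj, hw]; exact key _ _ hvuI)
  obtain ⟨a, ha⟩ := hL
  obtain ⟨b, hb⟩ := hR
  have hl : (u + j) * (w * ((a⁻¹ : Rˣ) : R)) = 1 := by
    rw [← mul_assoc, ← ha, Units.mul_inv]
  have hr : ((b⁻¹ : Rˣ) : R) * w * (u + j) = 1 := by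
    rw [mul_assoc, ← hb, Units.inv_mul]
  have heq : ((b⁻¹ : Rˣ) : R) * w = w * ((a⁻¹ : Rˣ) : R) := left_inv_eq_right_inv hr hl
  exact ⟨⟨u + j, w * ((a⁻¹ : Rˣ) : R), hl, by rw [← heq]; exact hr⟩, rfl⟩

/-- Units lift modulo two-sided ideals of a finite-dimensional rational algebra. -/
theorem lift_units {R : Type uR} [Ring R] [Algebra ℚ R] [FiniteDimensional ℚ R] (J : Submodule ℚ R)
    (hJ : ∀ a, ∀ x ∈ J, a * x ∈ J ∧ x * a ∈ J) (u v : R) (huv : u * v - 1 ∈ J) (hvu : v * u - 1 ∈ J) :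
    ∃ j ∈ J, IsUnit (u + j) := by
  have : IsArtinianRing R := IsArtinianRing.of_finite ℚ R
  exact lift_units_semiprimary (J : Set R) J.zero_mem (fun x hx y hy => J.add_mem hx hy) hJ u v huv hvu

theorem Lift : S_Lift := fun _ _ _ _ J hJ u v huv hvu => lift_units J hJ u v huv hvu

end Pool.Agent.L0h14.OR
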