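import Pool.Agent.L0h14.OR.Nil

/-!
# Varieties of level at most two: the cohomology below the middle degree comes from points and from `H^1`
-/

universe u v

open CategoryTheory

set_option autoImplicit false

namespace Pool.Agent.L0h14.OR

open Pool.Agent.W539.DI Pool.Agent.R941.OH Pool.Agent.N174.OC Pool.Agent.Y107

/-- there are no classes of type `(p, q)` outside of `0 ≤ p, q ≤ n` -/
lemma H_van {n : ℕ} (K : KRing n) {p q : ℤ} (h : p < 0 ∨ q < 0 ∨ (n : ℤ) < p ∨ (n : ℤ) < q) {x : K.R}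
    (hx : x ∈ K.H (p, q)) : x = 0 := by
  by_cases h' : p < 0 ∨ q < 0
  · rw [K.van p q h'] at hx
    exact (Submodule.mem_bot ℂ).1 hx
  · refine K.pd p q x hx fun y hy => ?_
    rw [K.van (n - p) (n - q) (by omega), Submodule.mem_bot] at hy
    rw [hy, mul_zero, map_zero]

/-- `H^0` is spanned by `1` -/
lemma H_zero {n : ℕ} (K : KRing n) {x : K.R} (hx : x ∈ K.H (0, 0)) : ∃ a : ℂ, x = a • (1 : K.R) := by
  have h1 : (1 : K.R) ∈ K.H (0, 0) := SetLike.GradedOne.one_mem (A := K.H)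
  have hne : (⟨1, h1⟩ : K.H (0, 0)) ≠ 0 := by
    intro h
    have h10 : (1 : K.R) = 0 := congrArg Subtype.val h
    have : Subsingleton K.R := subsingleton_of_zero_eq_one h10.symm
    have hc := K.conn
    rw [Module.finrank_zero_of_subsingleton] at hc
    omega
  obtain ⟨a, ha⟩ := (finrank_eq_one_iff_of_nonzero' _ hne).1 K.conn ⟨x, hx⟩
  exact ⟨a, (congrArg Subtype.val ha).symm⟩

variable {𝒪 : ℕ → Type u} [Category.{v} (Var 𝒪)] [Preadditive (Var 𝒪)] [Linear ℚ (Var 𝒪)] (T : ChowTheory 𝒪)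

/-- `H^0` comes from a point -/
lemma pt_bot (X P : Var 𝒪) {x : (T.K X).R} (hx : x ∈ (T.K X).H (0, 0)) :
    T.act (T.pt P X) (T.act (T.pt X P) x) = x := by
  obtain ⟨a, rfl⟩ := H_zero _ hx
  rw [T.act_smul', T.act_pt, T.act_smul', T.act_pt]

/-- the top cohomology comes from a point -/
lemma pt_top (X P : Var 𝒪) {z : (T.K X).R} (hz : z ∈ (T.K X).H (X.dim, X.dim)) :
    T.act (T.tp (T.pt X P)) (T.act (T.tp (T.pt P X)) z) = z := by
  have h1 : T.act (T.tp (T.pt X P)) (T.act (T.tp (T.pt P X)) z) = T.act (T.tp (T.pt X P ≫ T.pt P X)) z := by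
    rw [T.tp_comp, T.act_comp]
  have he : T.pt X P ≫ T.pt P X ∈ T.gr X X 0 := by
    have := T.comp_mem (T.pt_mem X P) (T.pt_mem P X)
    rwa [add_zero] at this
  have hte := T.tp_mem he
  have hmem := T.act_mem hte _ _ _ hz
  have e0 : (X.dim : ℤ) + (X.dim + 0 - X.dim) = X.dim := by ring
  rw [e0] at hmem
  rw [h1, ← sub_eq_zero]
  refine (T.K X).pd X.dim X.dim _ (sub_mem hmem hz) fun y hy => ?_
  rw [sub_self] at hy
  obtain ⟨a, rfl⟩ := H_zero _ hy
  have h2 := T.act_tp (T.pt X P ≫ T.pt P X) 1 z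
  rw [one_mul, T.act_comp, T.act_pt, T.act_pt, one_mul] at h2
  rw [mul_smul_comm, mul_one, map_smul, map_sub, h2, sub_self, smul_zero]

/-- the correspondences which factor as in `Small` -/
def SW (X : Var 𝒪) (s : ℤ) (ε : ℕ) : Submodule ℚ (X ⟶ X) :=
  Submodule.span ℚ {f | ∃ (Z : Var 𝒪) (a : X ⟶ Z) (b : Z ⟶ X), ((ε = 0 ∧ Z.dim = 0) ∨ (ε = 1 ∧ 1 ≤ Z.dim)) ∧
    a ∈ T.gr X Z (-s) ∧ b ∈ T.gr Z X s ∧ f = a ≫ b}

lemma gen_small {X Z : Var 𝒪} {j : ℤ} {m : ℕ} {a : X ⟶ Z} {b : Z ⟶ X} (ha : a ∈ T.gr X Z (-j))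
    (hb : b ∈ T.gr Z X j) (h : Z.dim ≤ 1 ∨ (m : ℤ) - 2 * j ≤ 1) :
    ∃ w ∈ SW T X ((m / 2 : ℕ) : ℤ) (m % 2), ∀ (p q : ℤ) (x : (T.K X).R), x ∈ (T.K X).H (p, q) → p + q = m →
      T.act (a ≫ b) x = T.act w x := by
  set P : Var 𝒪 := ⟨0, T.point⟩ with hP
  have hPd : P.dim = 0 := rfl
  by_cases h0 : (m : ℤ) - 2 * j = 0
  · -- through `H^0`
    have hs : ((m / 2 : ℕ) : ℤ) = j := by omega
    have he : m % 2 = 0 := by omega
    refine ⟨(a ≫ T.pt Z P) ≫ (T.pt P Z ≫ b), Submodule.subset_span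
      ⟨P, a ≫ T.pt Z P, T.pt P Z ≫ b, Or.inl ⟨he, hPd⟩, ?_, ?_, rfl⟩, fun p q x hx hpq => ?_⟩
    · have := T.comp_mem ha (T.pt_mem Z P)
      rw [hs]
      rwa [add_zero] at this
    · have := T.comp_mem (T.pt_mem P Z) hb
      rw [hs]
      rwa [zero_add] at this
    · have hax := T.act_mem ha p q x hx
      simp only [T.act_comp]
      by_cases hp : p + -j = 0
      · have hq : q + -j = 0 := by omega
        rw [hp, hq] at hax
        rw [pt_bot T Z P hax]
      · have hz : T.act a x = 0 := H_van _ (by omega) hax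
        simp only [hz, act_zero']
  by_cases h1 : (m : ℤ) - 2 * j = 1 ∧ 1 ≤ Z.dim
  · have hs : ((m / 2 : ℕ) : ℤ) = j := by omega
    have he : m % 2 = 1 := by omega
    exact ⟨a ≫ b, Submodule.subset_span ⟨Z, a, b, Or.inr ⟨he, h1.2⟩, by rwa [hs], by rwa [hs], rfl⟩,
      fun p q x hx hpq => rfl⟩
  by_cases h2 : (m : ℤ) - 2 * j = 2 ∧ Z.dim = 1
  · -- through the top cohomology of curves
    have hs : ((m / 2 : ℕ) : ℤ) = j + 1 := by omega
    have he : m % 2 = 0 := by omega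
    refine ⟨(a ≫ T.tp (T.pt P Z)) ≫ (T.tp (T.pt Z P) ≫ b), Submodule.subset_span
      ⟨P, a ≫ T.tp (T.pt P Z), T.tp (T.pt Z P) ≫ b, Or.inl ⟨he, hPd⟩, ?_, ?_, rfl⟩, fun p q x hx hpq => ?_⟩
    · have := T.comp_mem ha (T.tp_mem (T.pt_mem P Z))
      rw [hs]
      convert this using 2
      rw [hPd, h2.2]
      push_cast
      ring
    · have := T.comp_mem (T.tp_mem (T.pt_mem Z P)) hb
      rw [hs]
      convert this using 2
      rw [hPd, h2.2]
      push_cast
      ring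
    · have hax := T.act_mem ha p q x hx
      simp only [T.act_comp]
      by_cases hp : p + -j = 1
      · have hq : q + -j = 1 := by omega
        rw [hp, hq] at hax
        have h3 : (Z.dim : ℤ) = 1 := by exact_mod_cast h2.2
        have h4 : ((Z.dim : ℤ), (Z.dim : ℤ)) = ((1, 1) : ℤ × ℤ) := by rw [h3]
        rw [← h4] at hax
        rw [pt_top T Z P hax]
      · have hz : T.act a x = 0 := H_van _ (by omega) hax
        simp only [hz, act_zero']
  · refine ⟨0, zero_mem _, fun p q x hx hpq => ?_⟩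
    have hax := T.act_mem ha p q x hx
    have hz : T.act a x = 0 := H_van _ (by omega) hax
    rw [T.act_comp, hz, act_zero', act_zero]

/-- the correspondences which act on `H^m` like correspondences which factor as in `Small` -/
def SM (X : Var 𝒪) (m : ℕ) : Submodule ℚ (X ⟶ X) where
  carrier := {f | ∃ w ∈ SW T X ((m / 2 : ℕ) : ℤ) (m % 2), ∀ (p q : ℤ) (x : (T.K X).R), x ∈ (T.K X).H (p, q) →
    p + q = m → T.act f x = T.act w x}
  zero_mem' := ⟨0, zero_mem _, fun _ _ _ _ _ => rfl⟩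
  add_mem' := by
    rintro f g ⟨w, hw, h1⟩ ⟨w', hw', h2⟩
    refine ⟨w + w', add_mem hw hw', fun p q x hx hpq => ?_⟩
    rw [T.act_add, T.act_add, h1 p q x hx hpq, h2 p q x hx hpq]
  smul_mem' := by
    rintro r f ⟨w, hw, h1⟩
    refine ⟨r • w, Submodule.smul_mem _ _ hw, fun p q x hx hpq => ?_⟩
    rw [act_smulQ, act_smulQ, h1 p q x hx hpq]

/-- the homogeneous components of degree zero of compositions -/
lemma cmp_comp {X Z : Var 𝒪} {S : Submodule ℚ (X ⟶ X)}
    (h : ∀ (j : ℤ) (a : X ⟶ Z) (b : Z ⟶ X), a ∈ T.gr X Z (-j) → b ∈ T.gr Z X j → a ≫ b ∈ S) (a : X ⟶ Z)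
    (b : Z ⟶ X) : cmp (T.isInternal X X) 0 (a ≫ b) ∈ S := by
  have ht : ∀ {A B : Var 𝒪} (f : A ⟶ B), f ∈ ⨆ i, T.gr A B i := fun {A B} f => by
    rw [(T.isInternal A B).submodule_iSup_eq_top]
    trivial
  refine Submodule.iSup_induction (T.gr X Z) (motive := fun a => cmp (T.isInternal X X) 0 (a ≫ b) ∈ S) (ht a)
    (fun i a ha => ?_) ?_ (fun a a' h1 h2 => ?_)
  · refine Submodule.iSup_induction (T.gr Z X) (motive := fun b => cmp (T.isInternal X X) 0 (a ≫ b) ∈ S) (ht b)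
      (fun j b hb => ?_) ?_ (fun b b' h1 h2 => ?_)
    · have h3 := T.comp_mem ha hb
      by_cases hij : i + j = 0
      · rw [hij] at h3
        rw [cmp_of_mem _ h3]
        refine h j a b ?_ hb
        rwa [show -j = i by omega]
      · rw [cmp_of_ne _ h3 hij]
        exact zero_mem _
    · rw [Limits.comp_zero, map_zero]
      exact zero_mem _
    · rw [Preadditive.comp_add, map_add]
      exact add_mem h1 h2
  · rw [Limits.zero_comp, map_zero]
    exact zero_mem _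
  · rw [Preadditive.add_comp, map_add]
    exact add_mem h1 h2

theorem B1 : S_B1.{u, v} := by
  intro 𝒪 _ _ _ T c X hd hX m hm
  have h1 : 𝟙 X ∈ SM T X m := by
    obtain ⟨t, ht, s, hs, hts⟩ := Submodule.mem_sup.1 hX
    rw [← cmp_of_mem (T.isInternal X X) (T.id_mem X), ← hts, map_add]
    refine add_mem (span_map_le _ ?_ ht) (span_map_le _ ?_ hs)
    · rintro f ⟨Z, a, b, hZ, rfl⟩
      exact cmp_comp T (fun j a b ha hb => gen_small T ha hb (Or.inl hZ)) a b
    · rintro f ⟨D, a, b, ha, hb, rfl⟩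
      have h3 := T.comp_mem ha hb
      rw [neg_add_cancel] at h3
      rw [cmp_of_mem _ h3]
      exact gen_small T ha hb (Or.inr (by omega))
  obtain ⟨w, hw, hact⟩ := h1
  obtain ⟨N, f, g, h⟩ := (Submodule.mem_span_set' (R := ℚ)).1 hw
  choose Z a b hZ ha hb hab using fun i => (g i).2
  have hmod : m % 2 = 0 ∨ m % 2 = 1 := by omega
  refine ⟨N, ((m / 2 : ℕ) : ℤ), m % 2, Z, fun i => f i • a i, b, ?_, by omega,
    fun i => Submodule.smul_mem _ _ (ha i), hb, fun p q x hx hpq => ?_⟩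
  · rcases hmod with h0 | h0
    · exact Or.inl ⟨h0, fun i => by rcases hZ i with h2 | h2 <;> omega⟩
    · exact Or.inr ⟨h0, fun i => by rcases hZ i with h2 | h2 <;> omega⟩
  · have h2 := hact p q x hx hpq
    rw [T.act_id, ← h, act_sum] at h2
    conv_rhs => rw [h2]
    refine Finset.sum_congr rfl fun i _ => ?_
    rw [← T.act_comp, Linear.smul_comp, hab i]

end Pool.Agent.L0h14.OR
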