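import Pool.Agent.L0h14.OR.Nil

/-!
# From `H^0` and `H^1` to injective algebraic operators
-/

universe u v

open CategoryTheory
open scoped ComplexConjugate

set_option autoImplicit false

namespace Pool.Agent.L0h14.OR

open Pool.Agent.W539.DI Pool.Agent.R941.OH Pool.Agent.N174.OC

section ring

variable {d : ℕ} (K : KRing d)

/-- The Hodge-Riemann relations on `H^0` of a point and on `H^1`. -/
lemma b2_pos (ε k : ℕ) (hk : k + ε = d) (hε : (ε = 0 ∧ d = 0) ∨ (ε = 1 ∧ 1 ≤ d)) (p q : ℤ)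
    (hpq : p + q = ε) (η : K.R) (hη : η ∈ K.H (p, q)) :
    ∃ r : ℝ, 0 ≤ r ∧ (r = 0 → η = 0) ∧
      (-1 : ℂ) ^ ε * Complex.I ^ (p - q) * K.tr (K.bar η * (K.ω ^ k * η)) = (r : ℂ) := by
  by_cases h0 : η = 0
  · refine ⟨0, le_refl _, fun _ => h0, ?_⟩
    rw [h0]
    simp
  have hprim : K.ω ^ (k + 1) * η = 0 := by
    have h1 := K.pow_mul_mem K.ω_mem (k + 1) hη
    refine zero_of K ?_ h1
    rcases hε with ⟨h2, h3⟩ | ⟨h2, h3⟩
    · push_cast
      omega
    · push_cast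
      omega
  obtain ⟨r, hr, h1⟩ := K.hr p q k (by omega) η hη h0 hprim
  refine ⟨r, hr.le, fun h => absurd h hr.ne', ?_⟩
  have hb : K.bar η ∈ K.H (q, p) := K.bar_mem p q η hη
  have hw : K.ω ^ k * η ∈ K.H (p + k, q + k) := K.pow_mul_mem K.ω_mem k hη
  have hc := K.comm q p (p + k) (q + k) (K.bar η) (K.ω ^ k * η) hb hw
  have hs : ((-1 : ℂ) ^ ((q + p) * (p + k + (q + k)))) = (-1 : ℂ) ^ ε := by
    rcases hε with ⟨h2, h3⟩ | ⟨h2, h3⟩
    · have e1 : (q + p) * (p + k + (q + k)) = 0 := by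
        have : q + p = 0 := by omega
        rw [this, zero_mul]
      rw [e1, h2]
      simp
    · have e1 : (q + p) * (p + k + (q + k)) = 1 + 2 * k := by
        have : q + p = 1 := by omega
        have h4 : p + k + (q + k) = (q + p) + 2 * k := by ring
        rw [h4, this]
        ring
      rw [e1, h2, zpow_add₀ (by norm_num), zpow_mul]
      simp
  have hsgn : (-1 : ℂ) ^ ((p + q) * (p + q - 1) / 2) = 1 := by
    have e1 : (p + q) * (p + q - 1) / 2 = 0 := by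
      rcases hε with ⟨h2, h3⟩ | ⟨h2, h3⟩
      · rw [hpq, h2]; norm_num
      · rw [hpq, h2]; norm_num
    rw [e1, zpow_zero]
  rw [hsgn, mul_one] at h1
  rw [hc, hs, map_smul, smul_eq_mul, mul_assoc, ← h1]
  have e2 : (-1 : ℂ) ^ ε * (-1 : ℂ) ^ ε = 1 := by
    rw [← mul_pow]
    norm_num
  calc (-1 : ℂ) ^ ε * (Complex.I ^ (p - q) * ((-1 : ℂ) ^ ε * K.tr (K.ω ^ k * η * K.bar η)))
      = ((-1 : ℂ) ^ ε * (-1 : ℂ) ^ ε) * (Complex.I ^ (p - q) * K.tr (K.ω ^ k * η * K.bar η)) := by ring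
    _ = Complex.I ^ (p - q) * K.tr (K.ω ^ k * (η * K.bar η)) := by rw [e2, one_mul, mul_assoc]

end ring

variable {𝒪 : ℕ → Type u} [Category.{v} (Var 𝒪)] [Preadditive (Var 𝒪)] [Linear ℚ (Var 𝒪)] (T : ChowTheory 𝒪)

/-- correspondences act on cohomology with rational coefficients -/
lemma b2_real {X Y : Var 𝒪} (Γ : X ⟶ Y) (x : (T.K X).R) :
    T.act Γ ((T.K X).bar x) = (T.K Y).bar (T.act Γ x) := by
  rw [← actL_apply, ← actL_apply]
  conv_lhs => rw [← (T.r X).e.sum_repr x]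
  conv_rhs => rw [← (T.r X).e.sum_repr x]
  rw [map_sum, map_sum, map_sum, map_sum]
  refine Finset.sum_congr rfl fun i _ => ?_
  rw [LinearMap.map_smulₛₗ (T.K X).bar, (T.r X).real, map_smul (actL T Γ), map_smul (actL T Γ),
    LinearMap.map_smulₛₗ (T.K Y).bar, actL_apply, rat_bar (T.r Y) (T.act_rat Γ _ (rat_e (T.r X) i))]

/-- the Lefschetz operator `H^(2d-ε)(Z) → H^ε(Z)` -/
lemma b2_lam (Z : Var 𝒪) (ε k : ℕ) (hk : k + ε = Z.dim)
    (hε : (ε = 0 ∧ Z.dim = 0) ∨ (ε = 1 ∧ 1 ≤ Z.dim)) :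
    ∃ Λ ∈ T.gr Z Z (-(k : ℤ)), (∀ (p q : ℤ) (x : (T.K Z).R), x ∈ (T.K Z).H (p, q) →
      p + q ≠ ε + 2 * k → T.act Λ x = 0) ∧
      ∀ (p q : ℤ) (x : (T.K Z).R), x ∈ (T.K Z).H (p + k, q + k) → p + q = ε →
        (T.K Z).ω ^ k * T.act Λ x = x := by
  rcases hε with ⟨h2, h3⟩ | ⟨h2, h3⟩
  · have hk0 : k = 0 := by omega
    subst hk0
    refine ⟨𝟙 Z, ?_, ?_, ?_⟩
    · simpa using T.id_mem Z
    · intro p q x hx hpq
      rw [T.act_id]
      refine zero_of (T.K Z) ?_ hx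
      rw [h3]
      push_cast
      push_cast at hpq
      omega
    · intro p q x hx hpq
      rw [T.act_id, pow_zero, one_mul]
  · have hkd : (k : ℤ) = Z.dim - 1 := by omega
    have hhom : ∀ (p q : ℤ) (x : (T.K Z).R), x ∈ (T.K Z).H (p, q) →
        kap (T.K Z) k x ∈ (T.K Z).H (p + (1 - Z.dim), q + (1 - Z.dim)) := by
      intro p q x hx
      by_cases hpq : p + q = 1 + 2 * k
      · have e : ((p, q) : ℤ × ℤ) = (p + (1 - Z.dim) + k, q + (1 - Z.dim) + k) := by
          ext <;> simp only [] <;> omega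
        rw [e] at hx
        exact kap_mem (T.K Z) (by omega) hx
      · have h4 := (kap_spec (T.K Z) (show k ≤ Z.dim by omega)).2.1
        have h5 := congrArg (fun g : Module.End ℂ (T.K Z).R => g x) h4
        simp only [Module.End.mul_apply] at h5
        rw [dg_of (T.K Z) hx, if_neg (by push_cast; omega), map_zero] at h5
        rw [← h5]
        exact Submodule.zero_mem _
    obtain ⟨Λ, hΛ, hact⟩ := T.lef11 (X := Z) (Y := Z) (kap (T.K Z) k) (ratOp_kap (T.r Z) k) hhom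
    refine ⟨Λ, ?_, ?_, ?_⟩
    · have e : -(k : ℤ) = 1 - Z.dim := by omega
      rw [e]
      exact hΛ
    · intro p q x hx hpq
      rw [hact]
      have h4 := (kap_spec (T.K Z) (show k ≤ Z.dim by omega)).2.1
      have h5 := congrArg (fun g : Module.End ℂ (T.K Z).R => g x) h4
      simp only [Module.End.mul_apply] at h5
      rw [dg_of (T.K Z) hx, if_neg (by push_cast; omega), map_zero] at h5
      exact h5.symm
    · intro p q x hx hpq
      rw [hact]
      exact om_kap (T.K Z) (by omega) hx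

theorem B2 : S_B2.{u, v} := by
  intro 𝒪 _ _ _ T X m hm hsmall
  obtain ⟨N, s, ε, Z, a, b, hZ, hs, ha, hb, hid⟩ := hsmall
  have hZi : ∀ i, (ε = 0 ∧ (Z i).dim = 0) ∨ (ε = 1 ∧ 1 ≤ (Z i).dim) := by
    intro i
    rcases hZ with ⟨h1, h2⟩ | ⟨h1, h2⟩
    · exact Or.inl ⟨h1, h2 i⟩
    · exact Or.inr ⟨h1, h2 i⟩
  have hεle : ∀ i, ε ≤ (Z i).dim := by
    intro i
    rcases hZi i with ⟨h1, h2⟩ | ⟨h1, h2⟩ <;> omega
  obtain ⟨k, hk⟩ : ∃ k : Fin N → ℕ, ∀ i, k i + ε = (Z i).dim :=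
    ⟨fun i => (Z i).dim - ε, fun i => Nat.sub_add_cancel (hεle i)⟩
  choose Λ hΛ hΛ0 hΛ1 using fun i => b2_lam T (Z i) ε (k i) (hk i) (hZi i)
  have htp : ∀ i, T.tp (b i) ∈ T.gr X (Z i) ((Z i).dim + s - X.dim) := fun i => T.tp_mem (hb i)
  have hact : ∀ x : (T.K X).R, T.act (∑ i, T.tp (b i) ≫ Λ i ≫ b i) x =
      ∑ i, T.act (b i) (T.act (Λ i) (T.act (T.tp (b i)) x)) := by
    intro x
    rw [act_sum]
    exact Finset.sum_congr rfl fun i _ => by rw [T.act_comp, T.act_comp]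
  refine ⟨∑ i, T.tp (b i) ≫ Λ i ≫ b i, ?_, ?_, ?_⟩
  · intro p q y hy hpq
    rw [hact]
    refine Finset.sum_eq_zero fun i _ => ?_
    have h1 := T.act_mem (htp i) p q y hy
    rw [hΛ0 i _ _ _ h1, act_zero']
    have := hk i
    omega
  · intro p q y hy hpq
    rw [hact]
    refine Submodule.sum_mem _ fun i _ => ?_
    have h1 := T.act_mem (htp i) p q y hy
    have h2 := T.act_mem (hΛ i) _ _ _ h1
    have h3 := T.act_mem (hb i) _ _ _ h2
    have e : ((p + ((Z i).dim + s - X.dim) + -(k i : ℤ) + s, q + ((Z i).dim + s - X.dim) + -(k i : ℤ) + s) : ℤ × ℤ) =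
        (p - (X.dim - m), q - (X.dim - m)) := by
      have := hk i
      ext <;> simp only [] <;> omega
    rw [e] at h3
    exact h3
  · intro p q y hy hpq hSy
    rw [hact] at hSy
    -- the classes `ξ i` and `η i`
    have hξ : ∀ i, T.act (T.tp (b i)) y ∈ (T.K (Z i)).H ((p + s + ε - X.dim) + k i, (q + s + ε - X.dim) + k i) := by
      intro i
      have h1 := T.act_mem (htp i) p q y hy
      have e : ((p + ((Z i).dim + s - X.dim), q + ((Z i).dim + s - X.dim)) : ℤ × ℤ) =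
          ((p + s + ε - X.dim) + k i, (q + s + ε - X.dim) + k i) := by
        have := hk i
        ext <;> simp only [] <;> omega
      rw [e] at h1
      exact h1
    have hη : ∀ i, T.act (Λ i) (T.act (T.tp (b i)) y) ∈ (T.K (Z i)).H (p + s + ε - X.dim, q + s + ε - X.dim) := by
      intro i
      have h2 := T.act_mem (hΛ i) _ _ _ (hξ i)
      have e : (((p + s + ε - X.dim) + k i + -(k i : ℤ), (q + s + ε - X.dim) + k i + -(k i : ℤ)) : ℤ × ℤ) =
          (p + s + ε - X.dim, q + s + ε - X.dim) := by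
        ext <;> simp only [] <;> omega
      rw [e] at h2
      exact h2
    have hdeg : (p + s + ε - X.dim) + (q + s + ε - X.dim) = ε := by omega
    have hωη : ∀ i, (T.K (Z i)).ω ^ (k i) * T.act (Λ i) (T.act (T.tp (b i)) y) = T.act (T.tp (b i)) y :=
      fun i => hΛ1 i _ _ _ (hξ i) hdeg
    -- the sum of the Hodge-Riemann forms vanishes
    have hsum : ∑ i, (T.K (Z i)).tr ((T.K (Z i)).bar (T.act (Λ i) (T.act (T.tp (b i)) y)) *
        ((T.K (Z i)).ω ^ (k i) * T.act (Λ i) (T.act (T.tp (b i)) y))) = 0 := by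
      have h1 : ∀ i, (T.K (Z i)).tr ((T.K (Z i)).bar (T.act (Λ i) (T.act (T.tp (b i)) y)) *
          ((T.K (Z i)).ω ^ (k i) * T.act (Λ i) (T.act (T.tp (b i)) y))) =
          (T.K X).tr ((T.K X).bar (T.act (b i) (T.act (Λ i) (T.act (T.tp (b i)) y))) * y) := by
        intro i
        rw [hωη i, T.act_tp, b2_real]
      rw [Finset.sum_congr rfl fun i _ => h1 i, ← map_sum, ← Finset.sum_mul, ← map_sum, hSy, map_zero,
        zero_mul, map_zero]
    choose r hr0 hr1 hr2 using fun i => b2_pos (T.K (Z i)) ε (k i) (hk i) (hZi i) _ _ hdeg _ (hη i)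
    have hrs : ∑ i, r i = 0 := by
      have h1 : ((∑ i, r i : ℝ) : ℂ) = 0 := by
        push_cast
        rw [← Finset.sum_congr rfl fun i _ => hr2 i, ← Finset.mul_sum, hsum, mul_zero]
      exact_mod_cast h1
    have hη0 : ∀ i, T.act (Λ i) (T.act (T.tp (b i)) y) = 0 := fun i =>
      hr1 i ((Finset.sum_eq_zero_iff_of_nonneg fun i _ => hr0 i).1 hrs i (Finset.mem_univ i))
    have hξ0 : ∀ i, T.act (T.tp (b i)) y = 0 := by
      intro i
      rw [← hωη i, hη0 i, mul_zero]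
    refine (T.K X).pd p q y hy fun z hz => ?_
    have h1 : (T.K X).tr (z * y) = 0 := by
      have h2 := hid _ _ z hz (by omega)
      rw [← h2, Finset.sum_mul, map_sum]
      refine Finset.sum_eq_zero fun i _ => ?_
      rw [← T.act_tp, hξ0 i, mul_zero, map_zero]
    rw [(T.K X).comm _ _ _ _ _ _ hy hz, map_smul, h1, smul_zero]

end Pool.Agent.L0h14.OR
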