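import Pool.Agent.L0h14.OR.Nil

/-!
# From injective algebraic operators to the standard conjecture of Lefschetz type
-/

universe u v

open CategoryTheory

set_option autoImplicit false

namespace Pool.Agent.L0h14.OR

open Pool.Agent.W539.DI Pool.Agent.R941.OH Pool.Agent.N174.OC

section poly

open Polynomial

variable {S : Type*} [Ring S] [Algebra ℚ S] {R : Type*} [AddCommGroup R] [Module ℂ R]
  (ρ : S →+* Module.End ℂ R) (Δ : S)

lemma b3_inv (V : Submodule ℂ R) (hV : ∀ y ∈ V, ρ Δ y ∈ V) (q : ℚ[X]) :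
    ∀ y ∈ V, ρ (aeval Δ q) y ∈ V := by
  have hQ : ∀ (c : ℚ) (y : R), ρ (algebraMap ℚ S c) y = (c : ℂ) • y := by
    intro c y
    have h1 : ρ.comp (algebraMap ℚ S) = (algebraMap ℂ (Module.End ℂ R)).comp (algebraMap ℚ ℂ) :=
      Subsingleton.elim _ _
    have h2 := congrArg (fun f : ℚ →+* Module.End ℂ R => f c y) h1
    simpa using h2
  induction q using Polynomial.induction_on' with
  | add p q hp hq =>
    intro y hy
    rw [map_add, map_add, LinearMap.add_apply]
    exact V.add_mem (hp y hy) (hq y hy)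
  | monomial m c =>
    have hpow : ∀ (m : ℕ), ∀ y ∈ V, ρ (Δ ^ m) y ∈ V := by
      intro m
      induction m with
      | zero => intro y hy; simpa using hy
      | succ m ih =>
        intro y hy
        rw [pow_succ, map_mul, Module.End.mul_apply]
        exact ih _ (hV y hy)
    intro y hy
    rw [aeval_monomial, map_mul, Module.End.mul_apply, hQ]
    exact V.smul_mem _ (hpow m y hy)

lemma b3_solve {I : Type*} (V : I → Submodule ℂ R) (hV : ∀ i, ∀ y ∈ V i, ρ Δ y ∈ V i)
    (inj : ∀ i, ∀ y ∈ V i, ρ Δ y = 0 → y = 0) : ∀ (d : ℕ) (p : ℚ[X]), p.natDegree = d → p ≠ 0 →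
    (∀ i, ∀ y ∈ V i, ρ (aeval Δ p) y = 0) →
    ∃ q : ℚ[X], ∀ i, ∀ y ∈ V i, ρ Δ (ρ (aeval Δ q) y) = y := by
  have hQ : ∀ (c : ℚ) (y : R), ρ (algebraMap ℚ S c) y = (c : ℂ) • y := by
    intro c y
    have h1 : ρ.comp (algebraMap ℚ S) = (algebraMap ℂ (Module.End ℂ R)).comp (algebraMap ℚ ℂ) :=
      Subsingleton.elim _ _
    have h2 := congrArg (fun f : ℚ →+* Module.End ℂ R => f c y) h1
    simpa using h2
  intro d
  induction d using Nat.strong_induction_on with
  | _ d ih =>
    intro p hd hp hz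
    have hdec := divX_mul_X_add p
    have hmul : ∀ y, ρ (aeval Δ p) y =
        ρ Δ (ρ (aeval Δ (divX p)) y) + ((p.coeff 0 : ℚ) : ℂ) • y := by
      intro y
      conv_lhs => rw [← hdec]
      rw [map_add, mul_comm (divX p) X, map_mul, aeval_X, aeval_C, map_add, map_mul,
        LinearMap.add_apply, Module.End.mul_apply, hQ]
    by_cases h0 : p.coeff 0 = 0
    · have hne : divX p ≠ 0 := by
        intro h
        rw [h, h0, C_0, zero_mul, zero_add] at hdec
        exact hp hdec.symm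
      have hdeg : (divX p).natDegree < d := by
        rw [natDegree_divX_eq_natDegree_tsub_one]
        have : 0 < p.natDegree := by
          by_contra hcon
          have h1 : p.natDegree = 0 := by omega
          obtain ⟨c, rfl⟩ := natDegree_eq_zero.1 h1
          rw [coeff_C_zero] at h0
          rw [h0, C_0] at hp
          exact hp rfl
        omega
      refine ih _ hdeg (divX p) rfl hne fun i y hy => ?_
      have h1 := hz i y hy
      rw [hmul, h0] at h1
      simp only [Rat.cast_zero, zero_smul, add_zero] at h1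
      exact inj i _ (b3_inv ρ Δ (V i) (hV i) _ y hy) h1
    · refine ⟨C (-(p.coeff 0)⁻¹) * divX p, fun i y hy => ?_⟩
      have h1 := hz i y hy
      rw [hmul] at h1
      have h2 : ρ Δ (ρ (aeval Δ (divX p)) y) = -(((p.coeff 0 : ℚ) : ℂ) • y) :=
        eq_neg_of_add_eq_zero_left h1
      have hc : ((p.coeff 0 : ℚ) : ℂ) ≠ 0 := by exact_mod_cast h0
      rw [map_mul, aeval_C, map_mul, Module.End.mul_apply, hQ, map_smul, h2, smul_neg, smul_smul]
      push_cast
      rw [neg_mul, inv_mul_cancel₀ hc, neg_smul, one_smul, neg_neg]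

/-- on the kernel of the operator a polynomial acts by its constant coefficient -/
lemma b3_ker (q : ℚ[X]) (y : R) (hy : ρ Δ y = 0) :
    ρ (aeval Δ q) y = ((q.coeff 0 : ℚ) : ℂ) • y := by
  have hQ : ∀ (c : ℚ) (y : R), ρ (algebraMap ℚ S c) y = (c : ℂ) • y := by
    intro c y
    have h1 : ρ.comp (algebraMap ℚ S) = (algebraMap ℂ (Module.End ℂ R)).comp (algebraMap ℚ ℂ) :=
      Subsingleton.elim _ _
    have h2 := congrArg (fun f : ℚ →+* Module.End ℂ R => f c y) h1
    simpa using h2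
  have hdec := divX_mul_X_add q
  conv_lhs => rw [← hdec]
  rw [map_add, map_mul, aeval_X, aeval_C, map_add, map_mul,
    LinearMap.add_apply, Module.End.mul_apply, hQ, hy, map_zero, zero_add]

end poly

variable {𝒪 : ℕ → Type u} [Category.{v} (Var 𝒪)] [Preadditive (Var 𝒪)] [Linear ℚ (Var 𝒪)] (T : ChowTheory 𝒪)

/-- the action as a ring homomorphism -/
noncomputable def b3R (X : Var 𝒪) : End X →+* Module.End ℂ (T.K X).R where
  toFun := fun z => actL T (X := X) (Y := X) z
  map_one' := LinearMap.ext (T.act_id X)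
  map_mul' := fun a b => LinearMap.ext fun x => T.act_comp (X := X) (Y := X) (Z := X) b a x
  map_zero' := LinearMap.ext fun x => act_zero T x
  map_add' := fun a b => LinearMap.ext fun x => T.act_add (X := X) (Y := X) a b x

lemma b3R_apply (X : Var 𝒪) (z : End X) (x : (T.K X).R) : b3R T X z x = T.act (X := X) (Y := X) z x := rfl

/-- powers of the Lefschetz operator -/
noncomputable def b3om (X : Var 𝒪) : ℕ → (X ⟶ X)
  | 0 => 𝟙 X
  | k + 1 => b3om X k ≫ T.om X

lemma act_b3om (X : Var 𝒪) (k : ℕ) (x : (T.K X).R) :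
    T.act (b3om T X k) x = (T.K X).ω ^ k * x := by
  induction k with
  | zero => rw [b3om, T.act_id, pow_zero, one_mul]
  | succ k ih => rw [b3om, T.act_comp, ih, T.act_om, pow_succ', mul_assoc]

/-- a rational polynomial annihilates an algebraic operator -/
lemma b3_ann (X : Var 𝒪) (Δ : End X) : ∃ p : Polynomial ℚ, p ≠ 0 ∧
    ∀ x, b3R T X (Polynomial.aeval Δ p) x = 0 := by
  obtain ⟨A, hA⟩ := exists_mat (T.r X) (a := b3R T X Δ) (fun x hx => T.act_rat (X := X) (Y := X) Δ x hx)
  refine ⟨A.charpoly, (Matrix.charpoly_monic A).ne_zero, fun x => ?_⟩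
  have h0 : Polynomial.aeval A A.charpoly = 0 := Matrix.aeval_self_charpoly A
  have h1 : toOp (T.r X) (Polynomial.aeval A A.charpoly) = b3R T X (Polynomial.aeval Δ A.charpoly) := by
    rw [Polynomial.aeval_def, Polynomial.aeval_def, Polynomial.hom_eval₂, Polynomial.hom_eval₂, hA]
    congr 1
    exact Subsingleton.elim _ _
  rw [← h1, h0, map_zero, LinearMap.zero_apply]

/-- the inverse of the Lefschetz operator, for `k ≥ 1` -/
lemma b3_pos (X : Var 𝒪) (k : ℕ) (hk : 1 ≤ k) (hkn : k ≤ X.dim) (h : HasInj T X (X.dim - k)) :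
    ∃ Γ : X ⟶ X, (∀ (p q : ℤ) (y : (T.K X).R), y ∈ (T.K X).H (p + k, q + k) →
      p + q + k = X.dim → T.act Γ y ∈ (T.K X).H (p, q) ∧ (T.K X).ω ^ k * T.act Γ y = y) ∧
    ∀ (p q : ℤ) (y : (T.K X).R), y ∈ (T.K X).H (p, q) → p + q ≠ X.dim + k → T.act Γ y = 0 := by
  obtain ⟨s, hs0, hs1, hs2⟩ := h
  have hc : ((X.dim - k : ℕ) : ℤ) = (X.dim : ℤ) - k := by push_cast [hkn]; ring
  rw [hc] at hs0 hs1 hs2
  set Δ : End X := s ≫ b3om T X k with hΔ
  have hact : ∀ y, b3R T X Δ y = (T.K X).ω ^ k * T.act s y := by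
    intro y
    rw [b3R_apply, hΔ, T.act_comp, act_b3om]
  let V : {a : ℤ × ℤ // a.1 + a.2 = X.dim + k} → Submodule ℂ (T.K X).R := fun a => (T.K X).H a.1
  have hmem : ∀ (p q : ℤ) (y : (T.K X).R), y ∈ (T.K X).H (p, q) → p + q = X.dim + k →
      T.act s y ∈ (T.K X).H (p - k, q - k) := by
    intro p q y hy hpq
    have := hs1 p q y hy (by omega)
    have e : (X.dim : ℤ) - ((X.dim : ℤ) - k) = k := by ring
    rwa [e] at this
  have hV : ∀ i, ∀ y ∈ V i, b3R T X Δ y ∈ V i := by
    rintro ⟨⟨p, q⟩, hpq⟩ y hy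
    rw [hact]
    have h1 := (T.K X).pow_mul_mem (T.K X).ω_mem k (hmem p q y hy hpq)
    have e1 : p - k + k = p := by ring
    have e2 : q - k + k = q := by ring
    rwa [e1, e2] at h1
  have inj : ∀ i, ∀ y ∈ V i, b3R T X Δ y = 0 → y = 0 := by
    rintro ⟨⟨p, q⟩, hpq⟩ y hy h0
    rw [hact] at h0
    have hpq' : p + q = X.dim + k := hpq
    have h1 := (T.K X).hl_inj (p - k) (q - k) k (by omega) _ (hmem p q y hy hpq) h0
    exact hs2 p q y hy (by omega) h1
  obtain ⟨pp, hpp, hz⟩ := b3_ann T X Δ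
  obtain ⟨Q, hQ⟩ := b3_solve (b3R T X) Δ V hV inj _ pp rfl hpp (fun i y _ => hz y)
  refine ⟨(Polynomial.aeval Δ Q : End X) ≫ s, ?_, ?_⟩
  · intro p q y hy hpq
    have h1 := hQ ⟨(p + k, q + k), by simp only; omega⟩ y hy
    have h2 := b3_inv (b3R T X) Δ (V ⟨(p + k, q + k), by simp only; omega⟩) (hV _) Q y hy
    rw [hact] at h1
    rw [b3R_apply] at h1 h2
    rw [T.act_comp]
    refine ⟨?_, h1⟩
    have h3 := hmem (p + k) (q + k) _ h2 (by omega)
    have e1 : p + k - k = p := by ring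
    have e2 : q + k - k = q := by ring
    rwa [e1, e2] at h3
  · intro p q y hy hpq
    have h0 : T.act s y = 0 := hs0 p q y hy (by omega)
    have h1 := b3_ker (b3R T X) Δ Q y (by rw [hact, h0, mul_zero])
    rw [b3R_apply] at h1
    rw [T.act_comp, h1, T.act_smul', h0, smul_zero]

theorem B3 : S_B3.{u, v} := by
  intro 𝒪 _ _ _ T X h k hk
  have hpos : ∀ k : ℕ, 1 ≤ k → k ≤ X.dim → ∃ Γ : X ⟶ X,
      (∀ (p q : ℤ) (y : (T.K X).R), y ∈ (T.K X).H (p + k, q + k) →
      p + q + k = X.dim → T.act Γ y ∈ (T.K X).H (p, q) ∧ (T.K X).ω ^ k * T.act Γ y = y) ∧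
      ∀ (p q : ℤ) (y : (T.K X).R), y ∈ (T.K X).H (p, q) → p + q ≠ X.dim + k → T.act Γ y = 0 :=
    fun k h1 h2 => b3_pos T X k h1 h2 (h _ (by omega))
  rcases Nat.eq_zero_or_pos k with rfl | hk0
  · -- the projector to the middle degree
    choose! Γ hΓ1 hΓ2 using hpos
    refine ⟨𝟙 X - ∑ j ∈ Finset.Icc 1 X.dim, (b3om T X j ≫ Γ j + Γ j ≫ b3om T X j), ?_, ?_⟩
    · intro p q y hy hpq
      simp only [Nat.cast_zero, add_zero] at hy hpq
      have h1 : T.act (𝟙 X - ∑ j ∈ Finset.Icc 1 X.dim, (b3om T X j ≫ Γ j + Γ j ≫ b3om T X j)) y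
          = y := by
        rw [act_sub, T.act_id, act_sum, Finset.sum_eq_zero, sub_zero]
        intro j hj
        rw [Finset.mem_Icc] at hj
        rw [T.act_add, T.act_comp, T.act_comp, act_b3om]
        have e1 : T.act (Γ j) ((T.K X).ω ^ j * y) = 0 :=
          hΓ2 j hj.1 hj.2 (p + j) (q + j) _ ((T.K X).pow_mul_mem (T.K X).ω_mem j hy) (by omega)
        have e2 : T.act (Γ j) y = 0 := hΓ2 j hj.1 hj.2 p q y hy (by omega)
        rw [e1, e2, act_zero', add_zero]
      rw [h1]
      exact ⟨hy, by rw [pow_zero, one_mul]⟩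
    · intro p q y hy hpq
      simp only [Nat.cast_zero, add_zero] at hpq
      rw [act_sub, T.act_id, act_sum]
      have hterm : ∀ j, j ∈ Finset.Icc 1 X.dim → (p + q ≠ X.dim - j) → (p + q ≠ X.dim + j) →
          T.act (b3om T X j ≫ Γ j + Γ j ≫ b3om T X j) y = 0 := by
        intro j hj h1 h2
        rw [Finset.mem_Icc] at hj
        rw [T.act_add, T.act_comp, T.act_comp, act_b3om]
        have e1 : T.act (Γ j) ((T.K X).ω ^ j * y) = 0 :=
          hΓ2 j hj.1 hj.2 (p + j) (q + j) _ ((T.K X).pow_mul_mem (T.K X).ω_mem j hy) (by omega)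
        have e2 : T.act (Γ j) y = 0 := hΓ2 j hj.1 hj.2 p q y hy (by omega)
        rw [e1, e2, act_zero', add_zero]
      by_cases hvan : y = 0
      · rw [hvan]
        rw [Finset.sum_eq_zero, sub_zero]
        intro j _
        exact act_zero' T _
      have hp0 : 0 ≤ p ∧ 0 ≤ q := by
        by_contra hcon
        have : (T.K X).H (p, q) = ⊥ := (T.K X).van p q (by omega)
        rw [this, Submodule.mem_bot] at hy
        exact hvan hy
      have hp1 : p ≤ X.dim ∧ q ≤ X.dim := by
        by_contra hcon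
        have : (T.K X).H (p, q) = ⊥ := (T.K X).van_top (by omega)
        rw [this, Submodule.mem_bot] at hy
        exact hvan hy
      rcases lt_or_gt_of_ne hpq with hlt | hgt
      · -- low degree
        obtain ⟨j, hj⟩ : ∃ j : ℕ, p + q + j = X.dim := ⟨(X.dim - (p + q)).toNat, by omega⟩
        have hj1 : 1 ≤ j ∧ j ≤ X.dim := by omega
        rw [Finset.sum_eq_single j]
        · rw [T.act_add, T.act_comp, T.act_comp, act_b3om]
          have e2 : T.act (Γ j) y = 0 := hΓ2 j hj1.1 hj1.2 p q y hy (by omega)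
          have hm := (T.K X).pow_mul_mem (T.K X).ω_mem j hy
          obtain ⟨e3, e4⟩ := hΓ1 j hj1.1 hj1.2 p q _ hm hj
          have e5 : T.act (Γ j) ((T.K X).ω ^ j * y) - y = 0 := by
            refine (T.K X).hl_inj p q j hj _ (Submodule.sub_mem _ e3 hy) ?_
            rw [mul_sub, e4, sub_self]
          rw [e2, act_zero', add_zero, sub_eq_zero.1 e5, sub_self]
        · intro i hi hij
          exact hterm i hi (by omega) (by omega)
        · intro hcon
          exact absurd (Finset.mem_Icc.2 hj1) hcon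
      · obtain ⟨j, hj⟩ : ∃ j : ℕ, p + q = X.dim + j := ⟨(p + q - X.dim).toNat, by omega⟩
        have hj1 : 1 ≤ j ∧ j ≤ X.dim := by omega
        rw [Finset.sum_eq_single j]
        · rw [T.act_add, T.act_comp, T.act_comp, act_b3om, act_b3om]
          have e1 : T.act (Γ j) ((T.K X).ω ^ j * y) = 0 :=
            hΓ2 j hj1.1 hj1.2 (p + j) (q + j) _ ((T.K X).pow_mul_mem (T.K X).ω_mem j hy) (by omega)
          have hy' : y ∈ (T.K X).H (p - j + j, q - j + j) := by simpa using hy
          obtain ⟨e3, e4⟩ := hΓ1 j hj1.1 hj1.2 (p - j) (q - j) y hy' (by omega)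
          rw [e1, zero_add, e4, sub_self]
        · intro i hi hij
          exact hterm i hi (by omega) (by omega)
        · intro hcon
          exact absurd (Finset.mem_Icc.2 hj1) hcon
  · exact hpos k hk0 hk

end Pool.Agent.L0h14.OR
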