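import Pool.Agent.L0h14.OR.Stm

/-!
# The homological motives: application of the theorem of the starting library
-/

universe u v

open CategoryTheory

set_option autoImplicit false

namespace Pool.Agent.L0h14.OR

open Pool.Agent.W539.DI Pool.Agent.R941.OH Pool.Agent.N174.OC

/-- the varieties of dimension `n` -/
def Dm (𝒪 : ℕ → Type u) (n : ℕ) : Type u := 𝒪 n

variable {𝒪 : ℕ → Type u} [Category.{v} (Var 𝒪)] [Preadditive (Var 𝒪)] [Linear ℚ (Var 𝒪)]

/-- the object -/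
abbrev vr {n : ℕ} (X : Dm 𝒪 n) : Var 𝒪 := ⟨n, X⟩

instance catD (n : ℕ) : Category.{v} (Dm 𝒪 n) where
  Hom X Y := vr X ⟶ vr Y
  id X := 𝟙 (vr X)
  comp f g := f ≫ g
  id_comp f := Category.id_comp (obj := Var 𝒪) f
  comp_id f := Category.comp_id (obj := Var 𝒪) f
  assoc f g h := Category.assoc (obj := Var 𝒪) f g h

instance preD (n : ℕ) : Preadditive (Dm 𝒪 n) where
  homGroup X Y := inferInstanceAs (AddCommGroup (vr X ⟶ vr Y))
  add_comp X Y Z f f' g := Preadditive.add_comp (C := Var 𝒪) _ _ _ f f' g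
  comp_add X Y Z f g g' := Preadditive.comp_add (C := Var 𝒪) _ _ _ f g g'

instance linD (n : ℕ) : Linear ℚ (Dm 𝒪 n) where
  homModule X Y := inferInstanceAs (Module ℚ (vr X ⟶ vr Y))
  smul_comp X Y Z r f g := Linear.smul_comp (C := Var 𝒪) _ _ _ r f g
  comp_smul X Y Z f r g := Linear.comp_smul (C := Var 𝒪) _ _ _ f r g

/-- the theory in dimension `n` -/
def toCyc (T : ChowTheory 𝒪) (n : ℕ) : CycTheory (Dm 𝒪 n) n where
  gr X Y := T.gr (vr X) (vr Y)
  isInternal X Y := T.isInternal (vr X) (vr Y)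
  id_mem X := T.id_mem (vr X)
  comp_mem h h' := T.comp_mem h h'
  K X := T.K (vr X)
  r X := T.r (vr X)
  act Γ := T.act Γ
  act_add Γ Δ x := T.act_add Γ Δ x
  act_add' Γ x y := T.act_add' Γ x y
  act_smul' Γ a x := T.act_smul' Γ a x
  act_id X x := T.act_id (vr X) x
  act_comp Γ Δ x := T.act_comp Γ Δ x
  act_mem h p q x hx := T.act_mem h p q x hx
  act_rat Γ x hx := T.act_rat Γ x hx
  tp Γ := T.tp Γ
  act_tp Γ x y := T.act_tp Γ x y
  om X := T.om (vr X)
  act_om X x := T.act_om (vr X) x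
  ch X := T.ch (vr X)
  act_ch X x := T.act_ch (vr X) x
  pt X Y := T.pt (vr X) (vr Y)
  pt_mem X Y := T.pt_mem (vr X) (vr Y)
  act_pt X Y := T.act_pt (vr X) (vr Y)

theorem Low : S_Low.{u, v} := by
  intro 𝒪 _ _ _ T n X Y v w h hB hI
  have h1 : (toCyc T n).IsDerivedPair (X := (X : Dm 𝒪 n)) (Y := (Y : Dm 𝒪 n)) v w := ⟨h.left, h.right, h.isom⟩
  have h2 := Pool.Agent.N174.OC.main (toCyc T n) (X := (X : Dm 𝒪 n)) (Y := (Y : Dm 𝒪 n)) hB h1
  exact (h2.2.2.2.2 hI).1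

end Pool.Agent.L0h14.OR
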