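import Pool.Agent.L0h14.OR.Fin
import Pool.Agent.L0h14.OR.Lift
import Pool.Agent.L0h14.OR.Low
import Pool.Agent.L0h14.OR.B1
import Pool.Agent.L0h14.OR.B2
import Pool.Agent.L0h14.OR.B3

/-!
# Orlov's conjecture for varieties of level at most two: assembly
-/

universe u v

open CategoryTheory

set_option autoImplicit false

namespace Pool.Agent.L0h14.OR

theorem Ball : S_B.{u, v} := fun T c X hd hX => B3 T X (fun m hm => B2 T X m hm (B1 T c X hd hX m hm))

end Pool.Agent.L0h14.OR
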