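import Pool.Agent.L0h14.OR.Num

/-!
# One-sided condition: the partner is a sum of twisted pieces
-/

universe u v

open CategoryTheory

set_option autoImplicit false

namespace Pool.Agent.L0h14.ORN

open Pool.Agent.N174.OC Pool.Agent.Y107

variable {𝒱 : Type u} [Category.{v} 𝒱] [Preadditive 𝒱] [Linear ℚ 𝒱] {P : 𝒱 → Prop}

/-! ### Matrices -/

section mat

variable {X : 𝒱} {K : ℕ}

/-- all entries are in the ideal -/
def MVia (P : 𝒱 → Prop) (M : Matrix (Fin K) (Fin K) (End X)) : Prop := ∀ i j, (M i j : X ⟶ X) ∈ Via P X X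

omit [Preadditive 𝒱] [Linear ℚ 𝒱] in
lemma end_mul (a b : End X) : a * b = ((b : X ⟶ X) ≫ (a : X ⟶ X) : X ⟶ X) := rfl

lemma end_sum {ι : Type*} (s : Finset ι) (f : ι → End X) (h : ∀ i ∈ s, (f i : X ⟶ X) ∈ Via P X X) :
    ((∑ i ∈ s, f i : End X) : X ⟶ X) ∈ Via P X X := by
  classical
  induction s using Finset.induction_on with
  | empty => exact zero_mem _
  | insert a s ha ih =>
    rw [Finset.sum_insert ha]
    exact add_mem (h a (Finset.mem_insert_self _ _)) (ih fun i hi => h i (Finset.mem_insert_of_mem hi))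

lemma MVia.mul_left {M : Matrix (Fin K) (Fin K) (End X)} (h : MVia P M) (A : Matrix (Fin K) (Fin K) (End X)) :
    MVia P (A * M) := by
  intro i j
  rw [Matrix.mul_apply]
  exact end_sum _ _ fun l _ => via_right (h l j) (A i l : X ⟶ X)

lemma MVia.mul_right {M : Matrix (Fin K) (Fin K) (End X)} (h : MVia P M) (A : Matrix (Fin K) (Fin K) (End X)) :
    MVia P (M * A) := by
  intro i j
  rw [Matrix.mul_apply]
  exact end_sum _ _ fun l _ => via_left (A l j : X ⟶ X) (h i l)

lemma MVia.add {M M' : Matrix (Fin K) (Fin K) (End X)} (h : MVia P M) (h' : MVia P M') : MVia P (M + M') :=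
  fun i j => add_mem (h i j) (h' i j)

lemma MVia.neg {M : Matrix (Fin K) (Fin K) (End X)} (h : MVia P M) : MVia P (-M) :=
  fun i j => neg_mem (h i j)

lemma MVia.sub {M M' : Matrix (Fin K) (Fin K) (End X)} (h : MVia P M) (h' : MVia P M') : MVia P (M - M') :=
  fun i j => sub_mem (h i j) (h' i j)

/-- powers of strictly triangular matrices -/
lemma strict_pow {N : Matrix (Fin K) (Fin K) (End X)} (hN : ∀ j i, j ≤ i → (N j i : X ⟶ X) ∈ Via P X X) (k : ℕ) :
    ∀ j i : Fin K, (j : ℕ) < i + k → ((N ^ k) j i : X ⟶ X) ∈ Via P X X := by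
  induction k with
  | zero =>
    intro j i hji
    have hne : j ≠ i := by
      intro h
      subst h
      simp at hji
    rw [pow_zero, Matrix.one_apply_ne hne]
    exact zero_mem _
  | succ k ih =>
    intro j i hji
    rw [pow_succ, Matrix.mul_apply]
    refine end_sum _ _ fun l _ => ?_
    by_cases hl : (l : ℕ) ≤ i
    · exact via_right (hN l i hl) _
    · exact via_left _ (ih j l (by omega))

lemma strict_nil {N : Matrix (Fin K) (Fin K) (End X)} (hN : ∀ j i, j ≤ i → (N j i : X ⟶ X) ∈ Via P X X) :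
    MVia P (N ^ K) := fun j i => strict_pow hN K j i (by omega)

end mat

variable (T : ChowTheory 𝒱)

/-! ### Components -/

lemma exists_bound {X Y : 𝒱} (v : X ⟶ Y) : ∃ B₀ : ℕ, ∀ i : ℤ, (B₀ : ℤ) < |i| → cmp (T.isInternal X Y) i v = 0 := by
  refine Submodule.iSup_induction (T.gr X Y) (motive := fun v => ∃ B₀ : ℕ, ∀ i : ℤ, (B₀ : ℤ) < |i| →
    cmp (T.isInternal X Y) i v = 0) (hom_mem T v) (fun j v hv => ?_) ?_ (fun v v' h h' => ?_)
  · refine ⟨j.natAbs, fun i hi => cmp_of_ne _ hv ?_⟩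
    rintro rfl
    rw [Int.abs_eq_natAbs] at hi
    omega
  · exact ⟨0, fun i _ => map_zero _⟩
  · obtain ⟨B, hB⟩ := h
    obtain ⟨B', hB'⟩ := h'
    refine ⟨max B B', fun i hi => ?_⟩
    have h1 : (B : ℤ) ≤ (max B B' : ℕ) := by exact_mod_cast le_max_left _ _
    have h2 : (B' : ℤ) ≤ (max B B' : ℕ) := by exact_mod_cast le_max_right _ _
    rw [map_add, hB i (by omega), hB' i (by omega), add_zero]

lemma eq_sum {X Y : 𝒱} (v : X ⟶ Y) {s : Finset ℤ} (h : ∀ i ∉ s, cmp (T.isInternal X Y) i v = 0) :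
    v = ∑ i ∈ s, cmp (T.isInternal X Y) i v := by
  have key : ∀ v : X ⟶ Y, ∃ t : Finset ℤ, ∀ s, t ⊆ s → v = ∑ i ∈ s, cmp (T.isInternal X Y) i v := by
    intro v
    refine Submodule.iSup_induction (T.gr X Y) (motive := fun v => ∃ t : Finset ℤ, ∀ s, t ⊆ s →
      v = ∑ i ∈ s, cmp (T.isInternal X Y) i v) (hom_mem T v) (fun j v hv => ?_) ?_ (fun v v' h h' => ?_)
    · refine ⟨{j}, fun s hs => ?_⟩
      rw [Finset.sum_eq_single j (fun i _ hi => cmp_of_ne _ hv (Ne.symm hi))
        (fun hj => absurd (hs (Finset.mem_singleton_self j)) hj), cmp_of_mem _ hv]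
    · exact ⟨∅, fun s _ => by simp⟩
    · obtain ⟨t, ht⟩ := h
      obtain ⟨t', ht'⟩ := h'
      refine ⟨t ∪ t', fun s hs => ?_⟩
      have h1 := ht s (Finset.union_subset_left hs)
      have h2 := ht' s (Finset.union_subset_right hs)
      simp only [map_add, Finset.sum_add_distrib]
      rw [← h1, ← h2]
  obtain ⟨t, ht⟩ := key v
  have h1 : ∑ i ∈ s, cmp (T.isInternal X Y) i v = ∑ i ∈ s ∪ t, cmp (T.isInternal X Y) i v :=
    Finset.sum_subset Finset.subset_union_left fun i _ hi => h i hi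
  rw [h1]
  exact ht _ Finset.subset_union_right

/-- The partner is a sum of twisted pieces. -/
theorem cut (hc : ∀ Z, T.dim Z ≤ 1 → P Z) {c : ℕ} {X Y : 𝒱} (hd : T.dim X ≤ 2 * c + 2) (hX : T.Level P c X)
    {v : X ⟶ Y} {w : Y ⟶ X} (hvw : v ≫ w = 𝟙 X) (hwv : w ≫ v = 𝟙 Y) :
    ∃ (K : ℕ) (s : Fin K → ℤ) (e : Fin K → (X ⟶ X)) (a : Fin K → (X ⟶ Y)) (b : Fin K → (Y ⟶ X)),
      Function.Injective s ∧
      (∀ i, e i ∈ T.gr X X 0 ∧ a i ∈ T.gr X Y (-s i) ∧ b i ∈ T.gr Y X (s i)) ∧ ∑ i, e i = 𝟙 X ∧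
      (∀ i, e i ≫ e i - e i ∈ Via P X X) ∧ (∀ i j, i ≠ j → e i ≫ e j ∈ Via P X X) ∧
      (∀ i, a i ≫ b i - e i ∈ Via P X X) ∧ (∀ i j, i ≠ j → a i ≫ b j ∈ Via P X X) ∧
      (∀ i, e i ≫ a i - a i ∈ Via P X Y) ∧ (∀ i, b i ≫ e i - b i ∈ Via P Y X) ∧
      ∑ i, b i ≫ a i - 𝟙 Y ∈ Via P Y Y := by
  classical
  have hneg : ∀ j : ℤ, j < 0 → T.gr X X j ≤ Via P X X := neg T hc hd hX hX
  obtain ⟨B₁, hB₁⟩ := exists_bound T v
  obtain ⟨B₂, hB₂⟩ := exists_bound T w
  set B : ℕ := max B₁ B₂ with hB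
  have hv0 : ∀ i : ℤ, (B : ℤ) < |i| → cmp (T.isInternal X Y) i v = 0 := fun i hi => hB₁ i (by
    have : (B₁ : ℤ) ≤ B := by exact_mod_cast le_max_left _ _
    omega)
  have hw0 : ∀ i : ℤ, (B : ℤ) < |i| → cmp (T.isInternal Y X) i w = 0 := fun i hi => hB₂ i (by
    have : (B₂ : ℤ) ≤ B := by exact_mod_cast le_max_right _ _
    omega)
  set K : ℕ := 2 * B + 1 with hK
  set s : Fin K → ℤ := fun i => (i : ℤ) - B with hs
  have hs_inj : ∀ i j, s i = s j → i = j := by
    intro i j h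
    have h' : ((i : ℕ) : ℤ) - B = ((j : ℕ) : ℤ) - B := h
    apply Fin.ext
    omega
  set w' : Fin K → (Y ⟶ X) := fun i => cmp (T.isInternal Y X) (s i) w with hw'
  set v' : Fin K → (X ⟶ Y) := fun i => cmp (T.isInternal X Y) (-s i) v with hv'
  have hw'm : ∀ i, w' i ∈ T.gr Y X (s i) := fun i => cmp_mem _ _ _
  have hv'm : ∀ i, v' i ∈ T.gr X Y (-s i) := fun i => cmp_mem _ _ _
  have himg : ∀ i : ℤ, |i| ≤ B → ∃ j, s j = i := by
    intro i hi
    have h1 := abs_le.1 hi
    refine ⟨⟨(i + B).toNat, by omega⟩, ?_⟩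
    show (((i + B).toNat : ℕ) : ℤ) - B = i
    omega
  have hwsum : w = ∑ i, w' i := by
    have h1 := eq_sum T w (s := Finset.univ.image s) (fun i hi => hw0 i (by
      by_contra hcon
      obtain ⟨j, hj⟩ := himg i (not_lt.1 hcon)
      exact hi (Finset.mem_image.2 ⟨j, Finset.mem_univ _, hj⟩)))
    rw [Finset.sum_image fun i _ j _ h => hs_inj i j h] at h1
    exact h1
  have hvsum : v = ∑ i, v' i := by
    have h1 := eq_sum T v (s := Finset.univ.image fun i => -s i) (fun i hi => hv0 i (by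
      by_contra hcon
      obtain ⟨j, hj⟩ := himg (-i) (by rw [abs_neg]; exact not_lt.1 hcon)
      exact hi (Finset.mem_image.2 ⟨j, Finset.mem_univ _, by omega⟩)))
    rw [Finset.sum_image fun i _ j _ h => hs_inj i j (neg_injective h)] at h1
    exact h1
  -- components of the products
  have hwvm : ∀ m : ℤ, ∑ i, ∑ j, (if s i - s j = m then w' i ≫ v' j else 0) = cmp (T.isInternal Y Y) m (𝟙 Y) := by
    intro m
    have h1 : 𝟙 Y = ∑ i, ∑ j, w' i ≫ v' j := by
      have h0 : w ≫ v = (∑ i, w' i) ≫ (∑ j, v' j) := congrArg₂ (fun (a : Y ⟶ X) (b : X ⟶ Y) => a ≫ b) hwsum hvsum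
      rw [← hwv, h0, Preadditive.sum_comp]
      exact Finset.sum_congr rfl fun i _ => Preadditive.comp_sum _ _ _
    rw [h1, map_sum]
    refine Finset.sum_congr rfl fun i _ => ?_
    rw [map_sum]
    refine Finset.sum_congr rfl fun j _ => ?_
    have h2 := T.comp_mem (hw'm i) (hv'm j)
    rw [← sub_eq_add_neg] at h2
    split_ifs with h
    · rw [← h, cmp_of_mem _ h2]
    · rw [cmp_of_ne _ h2 h]
  have hvwm : ∀ m : ℤ, ∑ i, ∑ j, (if s j - s i = m then v' i ≫ w' j else 0) = cmp (T.isInternal X X) m (𝟙 X) := by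
    intro m
    have h1 : 𝟙 X = ∑ i, ∑ j, v' i ≫ w' j := by
      have h0 : v ≫ w = (∑ i, v' i) ≫ (∑ j, w' j) := congrArg₂ (fun (a : X ⟶ Y) (b : Y ⟶ X) => a ≫ b) hvsum hwsum
      rw [← hvw, h0, Preadditive.sum_comp]
      exact Finset.sum_congr rfl fun i _ => Preadditive.comp_sum _ _ _
    rw [h1, map_sum]
    refine Finset.sum_congr rfl fun i _ => ?_
    rw [map_sum]
    refine Finset.sum_congr rfl fun j _ => ?_
    have h2 := T.comp_mem (hv'm i) (hw'm j)
    rw [neg_add_eq_sub] at h2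
    split_ifs with h
    · rw [← h, cmp_of_mem _ h2]
    · rw [cmp_of_ne _ h2 h]
  have hwv0 : ∑ i, w' i ≫ v' i = 𝟙 Y := by
    have h1 := hwvm 0
    rw [cmp_of_mem _ (T.id_mem Y)] at h1
    rw [← h1]
    refine Finset.sum_congr rfl fun i _ => ?_
    rw [Finset.sum_eq_single i (fun j _ hj => if_neg fun h => hj (hs_inj j i (by omega)))
      (fun h => absurd (Finset.mem_univ _) h), if_pos (sub_self _)]
  have hvw0 : ∑ i, v' i ≫ w' i = 𝟙 X := by
    have h1 := hvwm 0
    rw [cmp_of_mem _ (T.id_mem X)] at h1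
    rw [← h1]
    refine Finset.sum_congr rfl fun i _ => ?_
    rw [Finset.sum_eq_single i (fun j _ hj => if_neg fun h => hj (hs_inj j i (by omega)))
      (fun h => absurd (Finset.mem_univ _) h), if_pos (sub_self _)]
  have htri : ∀ i j : Fin K, j < i → v' i ≫ w' j ∈ Via P X X := by
    intro i j hji
    refine hneg (-s i + s j) ?_ (T.comp_mem (hv'm i) (hw'm j))
    have : (j : ℕ) < i := hji
    show -(((i : ℕ) : ℤ) - B) + (((j : ℕ) : ℤ) - B) < 0
    omega
  -- the idempotents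
  set e : Fin K → (X ⟶ X) := fun i => v' i ≫ w' i with he
  have he0 : ∀ i, e i ∈ T.gr X X 0 := by
    intro i
    have := T.comp_mem (hv'm i) (hw'm i)
    rwa [neg_add_cancel] at this
  have horth : ∀ i j, i ≠ j → e i ≫ e j ∈ Via P X X := by
    intro i j hij
    have h1 := hwvm (s i - s j)
    rw [cmp_of_ne _ (T.id_mem Y) (show (0 : ℤ) ≠ s i - s j from fun h => hij (hs_inj i j (by omega)))] at h1
    have h2 : v' i ≫ (∑ p, ∑ q, (if s p - s q = s i - s j then w' p ≫ v' q else 0)) ≫ w' j = 0 := by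
      rw [h1, Limits.zero_comp, Limits.comp_zero]
    simp only [Preadditive.sum_comp, Preadditive.comp_sum] at h2
    rw [← Finset.sum_product'] at h2
    have hmem : (i, j) ∈ (Finset.univ : Finset (Fin K)) ×ˢ (Finset.univ : Finset (Fin K)) := by simp
    rw [← Finset.add_sum_erase _ _ hmem] at h2
    have h3 : e i ≫ e j = -∑ x ∈ (Finset.univ ×ˢ Finset.univ).erase (i, j),
        v' i ≫ (if s x.1 - s x.2 = s i - s j then w' x.1 ≫ v' x.2 else 0) ≫ w' j := by
      rw [eq_neg_iff_add_eq_zero]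
      rw [if_pos rfl] at h2
      rw [← h2, he]
      simp only [Category.assoc]
    rw [h3]
    refine neg_mem (Submodule.sum_mem _ fun x hx => ?_)
    obtain ⟨p, q⟩ := x
    have hne : (p, q) ≠ (i, j) := (Finset.mem_erase.1 hx).1
    simp only
    split_ifs with h
    · have h4 : ((p : ℕ) : ℤ) - B - (((q : ℕ) : ℤ) - B) = ((i : ℕ) : ℤ) - B - (((j : ℕ) : ℤ) - B) := h
      have h5 : p ≠ i := by
        rintro rfl
        refine hne (Prod.ext rfl (Fin.ext ?_))
        show (q : ℕ) = j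
        omega
      rcases lt_or_gt_of_ne h5 with h6 | h6
      · have := via_right (htri i p h6) (v' q ≫ w' j)
        simpa only [Category.assoc] using this
      · have h7 : j < q := by
          have : (i : ℕ) < p := h6
          show (j : ℕ) < q
          omega
        have := via_left (v' i ≫ w' p) (htri q j h7)
        simpa only [Category.assoc] using this
    · rw [Limits.zero_comp, Limits.comp_zero]
      exact zero_mem _
  -- the matrices
  let ε : Matrix (Fin K) (Fin K) (End X) := Matrix.of fun j i => (v' i ≫ w' j : X ⟶ X)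
  let d : Matrix (Fin K) (Fin K) (End X) := Matrix.diagonal (α := End X) e
  have hmd : ∀ (M : Matrix (Fin K) (Fin K) (End X)) j i, (M * d) j i = (e i ≫ (M j i : X ⟶ X) : X ⟶ X) :=
    fun M j i => Matrix.mul_diagonal (α := End X) e M j i
  have hdm : ∀ (M : Matrix (Fin K) (Fin K) (End X)) j i, (d * M) j i = ((M j i : X ⟶ X) ≫ e j : X ⟶ X) :=
    fun M j i => Matrix.diagonal_mul (α := End X) e M j i
  have hdeq : ∀ j, d j j = e j := fun j => Matrix.diagonal_apply_eq _ _
  have hdne : ∀ j i, j ≠ i → d j i = 0 := fun j i h => Matrix.diagonal_apply_ne _ h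
  have hεε : ε * ε = ε := by
    ext j i
    rw [Matrix.mul_apply]
    show ∑ l, ((v' i ≫ w' l) ≫ (v' l ≫ w' j) : X ⟶ X) = v' i ≫ w' j
    have h1 : ∀ l, (v' i ≫ w' l) ≫ (v' l ≫ w' j) = v' i ≫ (w' l ≫ v' l) ≫ w' j := by
      intro l
      simp only [Category.assoc]
    simp only [h1]
    rw [← Preadditive.comp_sum, ← Preadditive.sum_comp, hwv0, Category.id_comp]
  have hee : ∀ i, e i ≫ e i - e i ∈ Via P X X := by
    intro i
    have h1 : ∑ l, ((v' i ≫ w' l) ≫ (v' l ≫ w' i) : X ⟶ X) = v' i ≫ w' i := by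
      have := congrFun (congrFun hεε i) i
      rw [Matrix.mul_apply] at this
      exact this
    rw [← Finset.add_sum_erase _ _ (Finset.mem_univ i)] at h1
    have h2 : e i ≫ e i - e i = -∑ l ∈ Finset.univ.erase i, ((v' i ≫ w' l) ≫ (v' l ≫ w' i) : X ⟶ X) := by
      rw [sub_eq_iff_eq_add, neg_add_eq_sub, eq_sub_iff_add_eq]
      exact h1
    rw [h2]
    refine neg_mem (Submodule.sum_mem _ fun l hl => ?_)
    rcases lt_or_gt_of_ne (Finset.mem_erase.1 hl).1 with h | h
    · exact via_right (htri i l h) _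
    · exact via_left _ (htri l i h)
  have hdd : MVia P (d * d - d) := by
    intro j i
    rw [Matrix.sub_apply, hmd]
    by_cases hji : j = i
    · subst hji
      rw [hdeq]
      exact hee j
    · rw [hdne j i hji, Limits.comp_zero, sub_zero]
      exact zero_mem _
  let N : Matrix (Fin K) (Fin K) (End X) := ε + d - (d * ε + d * ε)
  have hN : ∀ j i, j ≤ i → (N j i : X ⟶ X) ∈ Via P X X := by
    intro j i hji
    have e1 : N j i = ε j i + d j i - ((d * ε) j i + (d * ε) j i) := rfl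
    have e2 : (d * ε) j i = ((v' i ≫ w' j) ≫ e j : X ⟶ X) := hdm ε j i
    rcases eq_or_lt_of_le hji with h | h
    · subst h
      have e3 : N j j = (e j + e j - (e j ≫ e j + e j ≫ e j) : X ⟶ X) := by
        rw [e1, e2, hdeq]
        rfl
      have e4 : (e j + e j - (e j ≫ e j + e j ≫ e j) : X ⟶ X) = -((e j ≫ e j - e j) + (e j ≫ e j - e j)) := by abel
      rw [e3, e4]
      exact neg_mem (add_mem (hee j) (hee j))
    · have e3 : N j i = ((v' i ≫ w' j) - ((v' i ≫ w' j) ≫ e j + (v' i ≫ w' j) ≫ e j) : X ⟶ X) := by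
        rw [e1, e2, hdne j i h.ne, add_zero]
        rfl
      rw [e3]
      have h1 := htri i j h
      exact sub_mem h1 (add_mem (via_right h1 _) (via_right h1 _))
  have hNK := strict_nil hN
  let U : Matrix (Fin K) (Fin K) (End X) := 1 - N
  let U' : Matrix (Fin K) (Fin K) (End X) := ∑ k ∈ Finset.range K, N ^ k
  have hUU' : U * U' = 1 - N ^ K := mul_neg_geom_sum N K
  have hU'U : U' * U = 1 - N ^ K := geom_sum_mul_neg N K
  have hUe : U * ε = d * ε := by
    show (1 - (ε + d - (d * ε + d * ε))) * ε = d * ε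
    have : (1 - (ε + d - (d * ε + d * ε))) * ε = ε - ε * ε - d * ε + (d * (ε * ε) + d * (ε * ε)) := by noncomm_ring
    rw [this, hεε]
    abel
  have hdU : MVia P (d * U - d * ε) := by
    have : d * U - d * ε = -((d * d - d)) + ((d * d - d) * ε + (d * d - d) * ε) := by
      show d * (1 - (ε + d - (d * ε + d * ε))) - d * ε = _
      noncomm_ring
    rw [this]
    exact (hdd.neg).add ((hdd.mul_right ε).add (hdd.mul_right ε))
  -- degrees
  have hNdeg : ∀ j i, (N j i : X ⟶ X) ∈ T.gr X X (s j - s i) := by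
    intro j i
    have e1 : N j i = ε j i + d j i - ((d * ε) j i + (d * ε) j i) := rfl
    have e2 : (d * ε) j i = ((v' i ≫ w' j) ≫ e j : X ⟶ X) := hdm ε j i
    have h1 : (v' i ≫ w' j : X ⟶ X) ∈ T.gr X X (s j - s i) := by
      have := T.comp_mem (hv'm i) (hw'm j)
      rwa [neg_add_eq_sub] at this
    have h2 : ((v' i ≫ w' j) ≫ e j : X ⟶ X) ∈ T.gr X X (s j - s i) := by
      have := T.comp_mem h1 (he0 j)
      rwa [add_zero] at this
    have h3 : (d j i : X ⟶ X) ∈ T.gr X X (s j - s i) := by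
      by_cases hji : j = i
      · subst hji
        rw [hdeq, sub_self]
        exact he0 j
      · rw [hdne j i hji]
        exact Submodule.zero_mem (T.gr X X (s j - s i))
    rw [e1, e2]
    exact Submodule.sub_mem _ (Submodule.add_mem _ h1 h3) (Submodule.add_mem _ h2 h2)
  have hNk : ∀ k : ℕ, ∀ j i, ((N ^ k) j i : X ⟶ X) ∈ T.gr X X (s j - s i) := by
    intro k
    induction k with
    | zero =>
      intro j i
      rw [pow_zero]
      by_cases hji : j = i
      · subst hji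
        rw [Matrix.one_apply_eq, sub_self]
        exact T.id_mem X
      · rw [Matrix.one_apply_ne hji]
        exact zero_mem _
    | succ k ih =>
      intro j i
      rw [pow_succ, Matrix.mul_apply]
      refine Submodule.sum_mem (T.gr X X (s j - s i)) fun l _ => ?_
      have := T.comp_mem (hNdeg l i) (ih j l)
      have h2 : s l - s i + (s j - s l) = s j - s i := by ring
      rwa [h2] at this
  have hU'deg : ∀ j i, (U' j i : X ⟶ X) ∈ T.gr X X (s j - s i) := by
    intro j i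
    have : U' j i = ∑ k ∈ Finset.range K, (N ^ k) j i := by
      show (∑ k ∈ Finset.range K, N ^ k) j i = _
      rw [Matrix.sum_apply]
    rw [this]
    exact Submodule.sum_mem (T.gr X X (s j - s i)) fun k _ => hNk k j i
  -- the maps
  set a : Fin K → (X ⟶ Y) := fun i => ∑ l, e i ≫ (U' l i : X ⟶ X) ≫ v' l with ha
  set b : Fin K → (Y ⟶ X) := fun j => w' j ≫ e j with hb
  have hab : ∀ i j, a i ≫ b j = ((d * ε * U' * d) j i : X ⟶ X) := by
    intro i j
    have e1 : (d * ε * U' * d) j i = ((e i ≫ ∑ l, (U' l i : X ⟶ X) ≫ (v' l ≫ w' j) ≫ e j : X ⟶ X)) := by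
      rw [hmd, Matrix.mul_apply]
      congr 1
      refine Finset.sum_congr rfl fun l _ => ?_
      rw [hdm, end_mul]
      rfl
    rw [e1, ha, hb]
    simp only [Preadditive.sum_comp, Preadditive.comp_sum, Category.assoc]
  have hmain : MVia P (d * ε * U' * d - d) := by
    have e1 : d * ε * U' * d - d = -((d * U - d * ε) * U' * d) + (d * (U * U') * d - d) := by noncomm_ring
    rw [e1, hUU']
    have e2 : d * (1 - N ^ K) * d - d = (d * d - d) - d * N ^ K * d := by noncomm_ring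
    rw [e2]
    exact (((hdU.mul_right U').mul_right d).neg).add (hdd.sub ((hNK.mul_left d).mul_right d))
  refine ⟨K, s, e, a, b, fun i j h => hs_inj i j h, fun i => ⟨he0 i, ?_, ?_⟩, hvw0, hee, horth, fun i => ?_, fun i j hij => ?_, fun i => ?_,
    fun i => ?_, ?_⟩
  · refine Submodule.sum_mem _ fun l _ => ?_
    have := T.comp_mem (he0 i) (T.comp_mem (hU'deg l i) (hv'm l))
    have h2 : 0 + (s l - s i + -s l) = -s i := by ring
    rwa [h2] at this
  · have := T.comp_mem (hw'm i) (he0 i)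
    rwa [add_zero] at this
  · have h1 := hmain i i
    rw [Matrix.sub_apply, hdeq] at h1
    rw [hab]
    exact h1
  · have h1 := hmain j i
    rw [Matrix.sub_apply, hdne j i (Ne.symm hij), sub_zero] at h1
    rw [hab]
    exact h1
  · have e1 : e i ≫ a i - a i = (e i ≫ e i - e i) ≫ ∑ l, (U' l i : X ⟶ X) ≫ v' l := by
      rw [ha]
      simp only [Preadditive.comp_sum, Preadditive.sub_comp, Category.assoc, Finset.sum_sub_distrib]
    rw [e1]
    exact via_right (hee i) _
  · have e1 : b i ≫ e i - b i = w' i ≫ (e i ≫ e i - e i) := by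
      rw [hb]
      simp only [Preadditive.comp_sub, Category.assoc]
    rw [e1]
    exact via_left _ (hee i)
  · -- `b ≫ a`
    have e1 : ∑ i, b i ≫ a i = ∑ i, ∑ l, w' i ≫ (e i ≫ e i ≫ (U' l i : X ⟶ X)) ≫ v' l := by
      rw [ha, hb]
      simp only [Preadditive.comp_sum, Category.assoc]
    have e2 : ∀ i l, w' i ≫ (e i ≫ e i ≫ (U' l i : X ⟶ X)) ≫ v' l =
        ∑ m, w' m ≫ ((v' m ≫ w' i) ≫ e i ≫ e i ≫ (U' l i : X ⟶ X)) ≫ v' l := by
      intro i l
      have : w' i = ∑ m, w' m ≫ v' m ≫ w' i := by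
        have h1 : (∑ m, w' m ≫ v' m) ≫ w' i = w' i := by rw [hwv0, Category.id_comp]
        rw [Preadditive.sum_comp] at h1
        simp only [Category.assoc] at h1
        exact h1.symm
      conv_lhs =>
        lhs
        rw [this]
      simp only [Preadditive.sum_comp, Category.assoc]
    have e3 : ∑ i, b i ≫ a i = ∑ m, ∑ l, w' m ≫ ((U' * d * d * ε) l m : X ⟶ X) ≫ v' l := by
      rw [e1]
      simp only [e2]
      have e4 : ∀ m l, ((U' * d * d * ε) l m : X ⟶ X) = ∑ i, ((v' m ≫ w' i) ≫ e i ≫ e i ≫ (U' l i : X ⟶ X)) := by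
        intro m l
        rw [Matrix.mul_apply]
        refine Finset.sum_congr rfl fun i _ => ?_
        rw [end_mul, hmd, hmd]
        rfl
      simp only [e4, Preadditive.sum_comp, Preadditive.comp_sum]
      calc ∑ i, ∑ l, ∑ m, w' m ≫ ((v' m ≫ w' i) ≫ e i ≫ e i ≫ (U' l i : X ⟶ X)) ≫ v' l =
            ∑ i, ∑ m, ∑ l, w' m ≫ ((v' m ≫ w' i) ≫ e i ≫ e i ≫ (U' l i : X ⟶ X)) ≫ v' l :=
            Finset.sum_congr rfl fun i _ => Finset.sum_comm
        _ = ∑ m, ∑ i, ∑ l, w' m ≫ ((v' m ≫ w' i) ≫ e i ≫ e i ≫ (U' l i : X ⟶ X)) ≫ v' l := Finset.sum_comm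
        _ = ∑ m, ∑ l, ∑ i, w' m ≫ ((v' m ≫ w' i) ≫ e i ≫ e i ≫ (U' l i : X ⟶ X)) ≫ v' l :=
            Finset.sum_congr rfl fun m _ => Finset.sum_comm
    have e5 : U' * d * d * ε - ε = U' * (d * d - d) * ε - N ^ K * ε := by
      have : U' * d * d * ε - ε = U' * (d * d - d) * ε + U' * (d * ε) - ε := by noncomm_ring
      rw [this, ← hUe, ← Matrix.mul_assoc, hU'U]
      noncomm_ring
    have e6 : MVia P (U' * d * d * ε - ε) := by
      rw [e5]
      exact ((hdd.mul_left U').mul_right ε).sub (hNK.mul_right ε)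
    have e7 : 𝟙 Y = ∑ m, ∑ l, w' m ≫ (v' m ≫ w' l) ≫ v' l := by
      have : ∑ m, ∑ l, w' m ≫ (v' m ≫ w' l) ≫ v' l = (∑ m, w' m ≫ v' m) ≫ (∑ l, w' l ≫ v' l) := by
        simp only [Preadditive.sum_comp, Preadditive.comp_sum, Category.assoc]
        exact Finset.sum_comm
      rw [this, hwv0, Category.id_comp]
    have e8 : ∑ i, b i ≫ a i - 𝟙 Y = ∑ m, ∑ l, w' m ≫ ((U' * d * d * ε - ε) l m : X ⟶ X) ≫ v' l := by
      rw [e3, e7, ← Finset.sum_sub_distrib]
      refine Finset.sum_congr rfl fun m _ => ?_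
      rw [← Finset.sum_sub_distrib]
      refine Finset.sum_congr rfl fun l _ => ?_
      have h1 : ((U' * d * d * ε - ε) l m : X ⟶ X) ≫ v' l =
          ((U' * d * d * ε) l m : X ⟶ X) ≫ v' l - (v' m ≫ w' l) ≫ v' l :=
        Preadditive.sub_comp (show X ⟶ X from (U' * d * d * ε) l m) (v' m ≫ w' l) (v' l)
      rw [h1, Preadditive.comp_sub]
    rw [e8]
    refine Submodule.sum_mem _ fun m _ => Submodule.sum_mem _ fun l _ => ?_
    exact via_left _ (via_right (e6 l m) _)

end Pool.Agent.L0h14.ORN
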