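import Pool.Agent.N174.OC.Pub

/-!
# Chow groups, correspondences and Hodge theory of smooth projective complex varieties of all dimensions
-/

universe u v

open CategoryTheory

set_option autoImplicit false

namespace Pool.Agent.L0h14.OR

open Pool.Agent.W539.DI Pool.Agent.R941.OH Pool.Agent.N174.OC

/-- The smooth projective connected complex varieties; `𝒪 n` are those of dimension `n`. -/
structure Var (𝒪 : ℕ → Type u) where
  /-- the dimension -/
  dim : ℕ
  /-- the variety -/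
  X : 𝒪 dim

variable {𝒪 : ℕ → Type u} [Category.{v} (Var 𝒪)] [Preadditive (Var 𝒪)] [Linear ℚ (Var 𝒪)]

/-- The correspondences which are sums of compositions `X → Z → Y` where `Z` has dimension at most `d`. -/
def Through (d : ℕ) (X Y : Var 𝒪) : Submodule ℚ (X ⟶ Y) :=
  Submodule.span ℚ {f | ∃ (Z : Var 𝒪) (a : X ⟶ Z) (b : Z ⟶ Y), Z.dim ≤ d ∧ f = a ≫ b}

variable (𝒪) in
/-- The cohomology of smooth projective connected complex varieties and the action of correspondences, `X ⟶ Y` being the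
Chow group of the cycles of all codimensions on `X × Y` with rational coefficients and `𝟙 X` the class of the diagonal;
`gr X Y i` consists of the cycles of codimension `dim X + i`. The cohomology ring `K X` comes with its Hodge theory (see
`KRing`: Hodge decomposition, Poincaré duality, hard Lefschetz, Hodge-Riemann relations) and its rational structure `r X`, and
`act Γ` is the action of the correspondence `Γ` on cohomology. -/
structure ChowAct extends Cor (Var 𝒪) where
  /-- the cohomology of `X` -/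
  K : ∀ X : Var 𝒪, KRing X.dim
  /-- the rational cohomology of `X` -/
  r : ∀ X : Var 𝒪, RatStr (K X)
  /-- the action of a correspondence on cohomology -/
  act : ∀ {X Y : Var 𝒪}, (X ⟶ Y) → (K X).R → (K Y).R
  act_add : ∀ {X Y : Var 𝒪} (Γ Δ : X ⟶ Y) (x : (K X).R), act (Γ + Δ) x = act Γ x + act Δ x
  act_add' : ∀ {X Y : Var 𝒪} (Γ : X ⟶ Y) (x y : (K X).R), act Γ (x + y) = act Γ x + act Γ y
  act_smul' : ∀ {X Y : Var 𝒪} (Γ : X ⟶ Y) (a : ℂ) (x : (K X).R), act Γ (a • x) = a • act Γ x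
  act_id : ∀ (X : Var 𝒪) (x : (K X).R), act (𝟙 X) x = x
  act_comp : ∀ {X Y Z : Var 𝒪} (Γ : X ⟶ Y) (Δ : Y ⟶ Z) (x : (K X).R),
    act (Γ ≫ Δ) x = act Δ (act Γ x)
  /-- a correspondence of degree `i` maps classes of type `(p, q)` to classes of type
  `(p + i, q + i)` -/
  act_mem : ∀ {X Y : Var 𝒪} {i : ℤ} {Γ : X ⟶ Y}, Γ ∈ gr X Y i → ∀ (p q : ℤ) (x : (K X).R),
    x ∈ (K X).H (p, q) → act Γ x ∈ (K Y).H (p + i, q + i)
  /-- cycle classes are rational -/
  act_rat : ∀ {X Y : Var 𝒪} (Γ : X ⟶ Y) (x : (K X).R), (r X).IsRat x → (r Y).IsRat (act Γ x)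

variable (𝒪) in
/-- Further data: the transpose `tp`. -/
structure ChowTp extends ChowAct 𝒪 where
  /-- the transpose -/
  tp : ∀ {X Y : Var 𝒪}, (X ⟶ Y) →ₗ[ℚ] (Y ⟶ X)
  tp_id : ∀ X : Var 𝒪, tp (𝟙 X) = 𝟙 X
  tp_comp : ∀ {X Y Z : Var 𝒪} (Γ : X ⟶ Y) (Δ : Y ⟶ Z), tp (Γ ≫ Δ) = tp Δ ≫ tp Γ
  tp_mem : ∀ {X Y : Var 𝒪} {i : ℤ} {Γ : X ⟶ Y}, Γ ∈ gr X Y i → tp Γ ∈ gr Y X (X.dim + i - Y.dim)
  act_tp : ∀ {X Y : Var 𝒪} (Γ : X ⟶ Y) (x : (K X).R) (y : (K Y).R),
    (K X).tr (x * act (tp Γ) y) = (K Y).tr (act Γ x * y)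

variable (𝒪) in
/-- Further data: the push-forwards `om X` and `ch X` to the diagonal of `X` of the ample divisor and of the first Chern
class; a correspondence `pt X Y`, the class of `{x} × Y` for a point `x` of `X`. -/
structure ChowClasses extends ChowTp 𝒪 where
  om : ∀ X : Var 𝒪, X ⟶ X
  act_om : ∀ (X : Var 𝒪) (x : (K X).R), act (om X) x = (K X).ω * x
  ch : ∀ X : Var 𝒪, X ⟶ X
  act_ch : ∀ (X : Var 𝒪) (x : (K X).R), act (ch X) x = (K X).c * x
  pt : ∀ X Y : Var 𝒪, X ⟶ Y
  pt_mem : ∀ X Y : Var 𝒪, pt X Y ∈ gr X Y 0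
  act_pt : ∀ X Y : Var 𝒪, act (pt X Y) 1 = 1

/-- The theorem of Lefschetz on `(1, 1)`-classes, for products `X × Y`. -/
def ChowAct.Lef11 (T : ChowAct 𝒪) : Prop :=
  ∀ {X Y : Var 𝒪} (φ : (T.K X).R →ₗ[ℂ] (T.K Y).R), (∀ x, (T.r X).IsRat x → (T.r Y).IsRat (φ x)) →
    (∀ (p q : ℤ) (x : (T.K X).R), x ∈ (T.K X).H (p, q) →
      φ x ∈ (T.K Y).H (p + (1 - X.dim), q + (1 - X.dim))) →
    ∃ Γ ∈ T.gr X Y (1 - X.dim), ∀ x, T.act Γ x = φ x

/-- Homologically trivial cycles on products of curves or points are sums of products `a × b` with `a` or `b`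
homologically trivial. -/
def ChowAct.CurveCycles (T : ChowAct 𝒪) : Prop :=
  ∀ X Y : Var 𝒪, X.dim ≤ 1 → Y.dim ≤ 1 → ∀ Γ : X ⟶ Y, (∀ x, T.act Γ x = 0) →
    Γ ∈ Submodule.span ℚ {f | ∃ (Z : Var 𝒪) (a : X ⟶ Z) (b : Z ⟶ Y), Z.dim = 0 ∧
      ((∀ x, T.act a x = 0) ∨ ∀ z, T.act b z = 0) ∧ f = a ≫ b}

variable (𝒪) in
/-- The formal properties of the correspondences between smooth projective connected complex varieties, all of them being
well known.

1. The cohomology with its Hodge theory and the action of correspondences, the transpose, the operators of the ample divisor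
and of the first Chern class (`ChowAct`, `ChowTp`, `ChowClasses`).
2. The theorem of Lefschetz on `(1, 1)`-classes, for `X × Y`.
3. The Chow groups in codimension `≤ 1` and for curves: there are no cycles of negative codimension;
cycles of codimension zero are multiples of `X × Y`; divisors on `X × Y` are sums of divisors of `X`, divisors
of `Y` and classes which come from curves (`Pic(X × Y) = Pic(X) ⊕ Pic(Y) ⊕ Hom(Alb X, Pic⁰ Y)` and the
theorem of Poincaré on abelian varieties); cycles on the product of two varieties `X`, `Y` of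
dimension `≤ 1` which are homologically trivial are sums of products `a × b` with `a` or `b`
homologically trivial (`Pic⁰(X × Y) = Pic⁰(X) ⊕ Pic⁰(Y)`, and `0`-cycles are sums of points). -/
structure ChowTheory extends ChowClasses 𝒪 where
  /-- a point is a variety of dimension zero -/
  point : 𝒪 0
  /-- the theorem of Lefschetz on `(1, 1)`-classes -/
  lef11 : toChowAct.Lef11
  /-- there are no cycles of negative codimension -/
  negative : ∀ (X Y : Var 𝒪) (i : ℤ), i < -X.dim → gr X Y i = ⊥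
  /-- cycles of codimension zero -/
  codim_zero : ∀ X Y : Var 𝒪, gr X Y (-X.dim) ≤ Through 0 X Y
  /-- divisors -/
  codim_one : ∀ X Y : Var 𝒪, gr X Y (1 - X.dim) ≤ Through 1 X Y
  /-- homologically trivial cycles on products of curves or points -/
  curves : toChowAct.CurveCycles
  /-- homologically trivial cycles on products of points -/
  points : ∀ X Y : Var 𝒪, X.dim = 0 → Y.dim = 0 → ∀ Γ : X ⟶ Y, (∀ x, act Γ x = 0) → Γ = 0

namespace ChowTheory

variable (T : ChowTheory 𝒪)

/-- The diagonal of `X` is a sum of compositions `h(X) → h(Z) → h(X)`, of all degrees, where `Z` is a curve or a point, and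
of compositions `h(X) → h(D)(-c) → h(X)` for some varieties `D`. For `c = 0` this is always satisfied (take `D = X`). For
`c = 1` it is satisfied if the zero-cycles of `X` with rational coefficients are supported on a curve, for example if
`X` is rationally connected (decomposition of the diagonal, Bloch and Srinivas), and for all `c` if for `i < c` the `i`-cycles of
`X` are supported on subvarieties of dimension at most `i + 1` (Paranjape, Laterveer). -/
def Level (c : ℕ) (X : Var 𝒪) : Prop :=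
  𝟙 X ∈ Through 1 X X ⊔ Submodule.span ℚ {f | ∃ (D : Var 𝒪) (a : X ⟶ D) (b : D ⟶ X),
    a ∈ T.gr X D (-c) ∧ b ∈ T.gr D X c ∧ f = a ≫ b}

/-- The mixed classes `v` on `X × Y` and `w` on `Y × X` are inverse to each other, and `v` respects
the (generalised) Mukai pairings. For example `v = ch(E) √td(X × Y)` for the kernel `E` of an
equivalence of derived categories (Mukai, Orlov, Căldăraru), `w` the class of the kernel of its
inverse. -/
structure IsDerivedPair {n : ℕ} {X Y : 𝒪 n} (v : (⟨n, X⟩ : Var 𝒪) ⟶ ⟨n, Y⟩)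
    (w : (⟨n, Y⟩ : Var 𝒪) ⟶ ⟨n, X⟩) : Prop where
  left : v ≫ w = 𝟙 _
  right : w ≫ v = 𝟙 _
  isom : ∀ x y : (T.K ⟨n, X⟩).R,
    KRing.mukai (n := n) (T.K ⟨n, Y⟩) (T.act v x) (T.act v y) = KRing.mukai (n := n) (T.K ⟨n, X⟩) x y

/-- `H^m(X)` and `H^m(Y)` are isomorphic by algebraic cycles: there are correspondences of degree
zero which act as inverse isomorphisms. -/
def Iso (X Y : Var 𝒪) (m : ℕ) : Prop :=
  ∃ Z ∈ T.gr X Y 0, ∃ Z' ∈ T.gr Y X 0,
    (∀ (p q : ℤ) (x : (T.K X).R), x ∈ (T.K X).H (p, q) → p + q = m → T.act Z' (T.act Z x) = x) ∧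
    ∀ (p q : ℤ) (y : (T.K Y).R), y ∈ (T.K Y).H (p, q) → p + q = m → T.act Z (T.act Z' y) = y

/-- The homological motives of `X` and `Y` are isomorphic: there are correspondences of degree zero
whose compositions act as the identity on cohomology. -/
def HomIso (X Y : Var 𝒪) : Prop :=
  ∃ Z ∈ T.gr X Y 0, ∃ Z' ∈ T.gr Y X 0, (∀ x : (T.K X).R, T.act Z' (T.act Z x) = x) ∧
    ∀ y : (T.K Y).R, T.act Z (T.act Z' y) = y

/-- The Chow motives of `X` and `Y` are isomorphic. -/
def ChowIso (X Y : Var 𝒪) : Prop :=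
  ∃ Z ∈ T.gr X Y 0, ∃ Z' ∈ T.gr Y X 0, Z ≫ Z' = 𝟙 X ∧ Z' ≫ Z = 𝟙 Y

/-- The standard conjecture of Lefschetz type for `X`: for all `k ≤ dim X` the inverse of the hard
Lefschetz isomorphism `ω ^ k : H^(n-k)(X) → H^(n+k)(X)`, `n = dim X`, extended by zero, is algebraic. -/
def ConjB (X : Var 𝒪) : Prop :=
  ∀ k : ℕ, k ≤ X.dim → ∃ Γ : X ⟶ X, (∀ (p q : ℤ) (y : (T.K X).R), y ∈ (T.K X).H (p + k, q + k) →
      p + q + k = X.dim → T.act Γ y ∈ (T.K X).H (p, q) ∧ (T.K X).ω ^ k * T.act Γ y = y) ∧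
    ∀ (p q : ℤ) (y : (T.K X).R), y ∈ (T.K X).H (p, q) → p + q ≠ X.dim + k → T.act Γ y = 0

end ChowTheory

end Pool.Agent.L0h14.OR
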