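import Pool.Agent.L0h14.OR.Units
import Pool.Agent.Y107.Grad

/-!
# Orlov's conjecture for varieties of level at most two
-/

universe u v

open CategoryTheory

set_option autoImplicit false

namespace Pool.Agent.L0h14.OR

open Pool.Agent.W539.DI Pool.Agent.R941.OH Pool.Agent.N174.OC Pool.Agent.Y107

variable {𝒪 : ℕ → Type u} [Category.{v} (Var 𝒪)] [Preadditive (Var 𝒪)] [Linear ℚ (Var 𝒪)] (T : ChowTheory 𝒪)

/-- the component of degree zero -/
noncomputable def z0 {X Y : Var 𝒪} : (X ⟶ Y) →ₗ[ℚ] (X ⟶ Y) := cmp (T.isInternal X Y) 0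

lemma hom_mem {X Y : Var 𝒪} (Γ : X ⟶ Y) : Γ ∈ ⨆ i, T.gr X Y i := by
  rw [(T.isInternal X Y).submodule_iSup_eq_top]
  exact Submodule.mem_top

/-- the component of degree zero of a product -/
lemma z0_mul {X Y Z : Var 𝒪} (h1 : ∀ j : ℤ, j < 0 → T.gr X Y j ≤ Through 1 X Y)
    (h2 : ∀ j : ℤ, j < 0 → T.gr Y Z j ≤ Through 1 Y Z) (v : X ⟶ Y) (w : Y ⟶ Z) :
    z0 T (v ≫ w) - z0 T v ≫ z0 T w ∈ Through 1 X Z := by
  refine Submodule.iSup_induction (T.gr X Y) (motive := fun v => z0 T (v ≫ w) - z0 T v ≫ z0 T w ∈ Through 1 X Z)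
    (hom_mem T v) (fun i v hv => ?_) ?_ (fun v v' e1 e2 => ?_)
  · refine Submodule.iSup_induction (T.gr Y Z) (motive := fun w => z0 T (v ≫ w) - z0 T v ≫ z0 T w ∈ Through 1 X Z)
      (hom_mem T w) (fun j w hw => ?_) ?_ (fun w w' e1 e2 => ?_)
    · have hvw := T.comp_mem hv hw
      by_cases hij : i + j = 0
      · rw [hij] at hvw
        unfold z0
        rw [cmp_of_mem _ hvw]
        by_cases hi : i = 0
        · subst hi
          have hj : j = 0 := by omega
          subst hj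
          rw [cmp_of_mem _ hv, cmp_of_mem _ hw, sub_self]
          exact zero_mem _
        · rw [cmp_of_ne _ hv hi, Limits.zero_comp, sub_zero]
          rcases lt_or_gt_of_ne hi with h | h
          · exact thru_right (h1 i h hv) w
          · exact thru_left v (h2 j (by omega) hw)
      · unfold z0
        rw [cmp_of_ne _ hvw hij]
        by_cases hi : i = 0
        · have hj : j ≠ 0 := by omega
          rw [cmp_of_ne _ hw hj, Limits.comp_zero, sub_zero]
          exact zero_mem _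
        · rw [cmp_of_ne _ hv hi, Limits.zero_comp, sub_zero]
          exact zero_mem _
    · rw [Limits.comp_zero, map_zero, map_zero, Limits.comp_zero, sub_zero]
      exact zero_mem _
    · have : z0 T (v ≫ (w + w')) - z0 T v ≫ z0 T (w + w') =
          (z0 T (v ≫ w) - z0 T v ≫ z0 T w) + (z0 T (v ≫ w') - z0 T v ≫ z0 T w') := by
        rw [Preadditive.comp_add, map_add, map_add, Preadditive.comp_add]
        abel
      rw [this]
      exact add_mem e1 e2
  · rw [Limits.zero_comp, map_zero, map_zero, Limits.zero_comp, sub_zero]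
    exact zero_mem _
  · have : z0 T ((v + v') ≫ w) - z0 T (v + v') ≫ z0 T w =
        (z0 T (v ≫ w) - z0 T v ≫ z0 T w) + (z0 T (v' ≫ w) - z0 T v' ≫ z0 T w) := by
      rw [Preadditive.add_comp, map_add, map_add, Preadditive.add_comp]
      abel
    rw [this]
    exact add_mem e1 e2

/-- Varieties of level at most two with inverse mixed correspondences: the Chow motives are isomorphic if the
homological motives are. -/
theorem chow_of_hom (lift : S_Lift) {c : ℕ} {X Y : Var 𝒪} (hdX : X.dim ≤ 2 * c + 2) (hdY : Y.dim ≤ 2 * c + 2)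
    (hX : T.Level c X) (hY : T.Level c Y) {v : X ⟶ Y} {w : Y ⟶ X} (hvw : v ≫ w = 𝟙 X) (hwv : w ≫ v = 𝟙 Y)
    (h : T.HomIso X Y) : T.ChowIso X Y := by
  have n1 := neg T c X Y hdX hX hY
  have n2 := neg T c Y X hdY hY hX
  have k1 := z0_mul T n1 n2 v w
  have k2 := z0_mul T n2 n1 w v
  have e1 : z0 T (v ≫ w) = 𝟙 X := by
    rw [hvw]
    exact cmp_of_mem _ (T.id_mem X)
  have e2 : z0 T (w ≫ v) = 𝟙 Y := by
    rw [hwv]
    exact cmp_of_mem _ (T.id_mem Y)
  rw [e1] at k1
  rw [e2] at k2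
  refine units lift T X Y (z0 T v) (cmp_mem _ _ _) (z0 T w) (cmp_mem _ _ _) ?_ ?_ h
  · have := neg_mem k1
    rwa [neg_sub] at this
  · have := neg_mem k2
    rwa [neg_sub] at this

/-- The main theorem, from the modules. -/
theorem orlov (lift : S_Lift) (hB : S_B.{u, v}) (low : S_Low.{u, v}) {n c : ℕ} (hn : n ≤ 2 * c + 2) (X Y : 𝒪 n)
    (hX : T.Level c ⟨n, X⟩) (hY : T.Level c ⟨n, Y⟩) {v : (⟨n, X⟩ : Var 𝒪) ⟶ ⟨n, Y⟩} {w : (⟨n, Y⟩ : Var 𝒪) ⟶ ⟨n, X⟩}
    (h : T.IsDerivedPair v w) (h' : ∀ j, 0 < j → j + 3 ≤ n → T.Iso ⟨n, X⟩ ⟨n, Y⟩ j) :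
    T.ChowIso ⟨n, X⟩ ⟨n, Y⟩ :=
  chow_of_hom T lift hn hn hX hY h.left h.right (low T X Y v w h (hB T c _ hn hX) h')

end Pool.Agent.L0h14.OR
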