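import Pool.Agent.L0h14.OR.Fin

/-!
# The general form: varieties of level at most two up to finite dimensional motives
-/

universe u v

open CategoryTheory

set_option autoImplicit false

namespace Pool.Agent.L0h14.OR

open Pool.Agent.W539.DI Pool.Agent.R941.OH Pool.Agent.N174.OC Pool.Agent.Y107

variable {𝒪 : ℕ → Type u} [Category.{v} (Var 𝒪)] [Preadditive (Var 𝒪)] [Linear ℚ (Var 𝒪)]

/-- The correspondences which are sums of compositions `X → Z → Y` where `Z` is in the class `P`. -/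
def Via (P : Var 𝒪 → Prop) (X Y : Var 𝒪) : Submodule ℚ (X ⟶ Y) :=
  Submodule.span ℚ {f | ∃ (Z : Var 𝒪) (a : X ⟶ Z) (b : Z ⟶ Y), P Z ∧ f = a ≫ b}

/-- The power `z ^ (k + 1)` of the matrix `z` of correspondences. -/
def mpow {N : ℕ} {Z : Fin N → Var 𝒪} (z : ∀ i j, Z i ⟶ Z j) : ℕ → ∀ i j, Z i ⟶ Z j
  | 0 => z
  | k + 1 => fun i j => ∑ l, z i l ≫ mpow z k l j

variable (T : ChowTheory 𝒪)

/-- Homologically trivial endomorphisms (of all degrees) of finite direct sums of motives of varieties in the class `P` are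
nilpotent. -/
def Nilp (P : Var 𝒪 → Prop) : Prop :=
  ∀ (N : ℕ) (Z : Fin N → Var 𝒪), (∀ i, P (Z i)) → ∀ z : ∀ i j, Z i ⟶ Z j, (∀ i j x, T.act (z i j) x = 0) →
    ∃ k, ∀ i j, mpow z k i j = 0

variable {P : Var 𝒪 → Prop}

lemma via_right {X Y Z : Var 𝒪} {a : X ⟶ Y} (ha : a ∈ Via P X Y) (f : Y ⟶ Z) : a ≫ f ∈ Via P X Z := by
  refine span_map_le (rc f) ?_ ha
  rintro x ⟨W, p, q, hW, rfl⟩
  refine Submodule.subset_span ⟨W, p, q ≫ f, hW, ?_⟩
  rw [rc_apply, Category.assoc]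

lemma via_left {X Y Z : Var 𝒪} (f : X ⟶ Y) {a : Y ⟶ Z} (ha : a ∈ Via P Y Z) : f ≫ a ∈ Via P X Z := by
  refine span_map_le (lc f) ?_ ha
  rintro x ⟨W, p, q, hW, rfl⟩
  refine Submodule.subset_span ⟨W, f ≫ p, q, hW, ?_⟩
  rw [lc_apply, Category.assoc]

lemma via_tp {X Y : Var 𝒪} {a : X ⟶ Y} (ha : a ∈ Via P X Y) : T.tp a ∈ Via P Y X := by
  refine span_map_le T.tp ?_ ha
  rintro x ⟨W, p, q, hW, rfl⟩
  exact Submodule.subset_span ⟨W, T.tp q, T.tp p, hW, T.tp_comp p q⟩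

lemma via_mono {d : ℕ} (h : ∀ Z : Var 𝒪, Z.dim ≤ d → P Z) (X Y : Var 𝒪) : Through d X Y ≤ Via P X Y := by
  refine Submodule.span_mono ?_
  rintro x ⟨W, p, q, hW, rfl⟩
  exact ⟨W, p, q, h W hW, rfl⟩

lemma via_sum {X Y : Var 𝒪} {z : X ⟶ Y} (hz : z ∈ Via P X Y) :
    ∃ (N : ℕ) (Z : Fin N → Var 𝒪) (a : ∀ i, X ⟶ Z i) (b : ∀ i, Z i ⟶ Y), (∀ i, P (Z i)) ∧
      z = ∑ i, a i ≫ b i := by
  obtain ⟨N, f, g, h⟩ := (Submodule.mem_span_set' (R := ℚ)).1 hz
  choose Z a b hZ hab using fun i => (g i).2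
  refine ⟨N, Z, fun i => f i • a i, b, hZ, ?_⟩
  rw [← h]
  refine Finset.sum_congr rfl fun i _ => ?_
  rw [Linear.smul_comp, hab i]

/-- homologically trivial correspondences which factor through the class are nilpotent -/
lemma via_nil (hP : Nilp T P) {X : Var 𝒪} {z : End X} (hz : (z : X ⟶ X) ∈ Via P X X) (h0 : ∀ x, T.act z x = 0) :
    IsNilpotent z := by
  obtain ⟨N, Z, a, b, hZ, hzs⟩ := via_sum hz
  obtain ⟨k, hk⟩ := hP N Z hZ (fun i j => b i ≫ (z : X ⟶ X) ≫ a j) fun i j x => by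
    rw [T.act_comp, T.act_comp, h0, act_zero']
  have key : ∀ k, ∀ i, ∑ j, mpow (fun i j => b i ≫ (z : X ⟶ X) ≫ a j) k i j ≫ b j =
      b i ≫ ((z ^ (2 * k + 2) : End X) : X ⟶ X) := by
    intro k
    induction k with
    | zero =>
      intro i
      show ∑ j, (b i ≫ (z : X ⟶ X) ≫ a j) ≫ b j = _
      have e : ((z ^ (2 * 0 + 2) : End X) : X ⟶ X) = (z : X ⟶ X) ≫ (z : X ⟶ X) := by
        rw [mul_zero, zero_add, pow_two]
        rfl
      rw [e]
      conv_rhs =>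
        rhs
        rhs
        rw [hzs]
      simp only [Preadditive.comp_sum, Category.assoc]
    | succ k ih =>
      intro i
      show ∑ j, (∑ l, (b i ≫ (z : X ⟶ X) ≫ a l) ≫ mpow (fun i j => b i ≫ (z : X ⟶ X) ≫ a j) k l j) ≫ b j = _
      simp only [Preadditive.sum_comp, Category.assoc]
      rw [Finset.sum_comm]
      simp only [← Preadditive.comp_sum, ih]
      have e : ((z ^ (2 * (k + 1) + 2) : End X) : X ⟶ X) =
          (z : X ⟶ X) ≫ (z : X ⟶ X) ≫ ((z ^ (2 * k + 2) : End X) : X ⟶ X) := by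
        have : 2 * (k + 1) + 2 = (2 * k + 2) + 1 + 1 := by ring
        rw [this, pow_succ, pow_succ, End.mul_def, End.mul_def]
      rw [e]
      have e2 : (z : X ⟶ X) ≫ ((z ^ (2 * k + 2) : End X) : X ⟶ X) =
          ∑ l, a l ≫ b l ≫ ((z ^ (2 * k + 2) : End X) : X ⟶ X) := by
        conv_lhs =>
          lhs
          rw [hzs]
        simp only [Preadditive.sum_comp, Category.assoc]
      rw [e2]
  refine ⟨2 * k + 3, ?_⟩
  have e : ((z ^ (2 * k + 3) : End X) : X ⟶ X) = (z : X ⟶ X) ≫ ((z ^ (2 * k + 2) : End X) : X ⟶ X) := by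
    rw [pow_succ, End.mul_def]
  have e3 : (z : X ⟶ X) ≫ ((z ^ (2 * k + 2) : End X) : X ⟶ X) =
      ∑ l, a l ≫ b l ≫ ((z ^ (2 * k + 2) : End X) : X ⟶ X) := by
    conv_lhs =>
      lhs
      rw [hzs]
    simp only [Preadditive.sum_comp, Category.assoc]
  show ((z ^ (2 * k + 3) : End X) : X ⟶ X) = 0
  rw [e, e3]
  refine Finset.sum_eq_zero fun l _ => ?_
  rw [← key k l]
  simp only [hk, Limits.zero_comp, Finset.sum_const_zero, Limits.comp_zero]

variable (P) in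
/-- The diagonal of `X` is a sum of compositions `h(X) → h(Z) → h(X)`, of all degrees, where `Z` is in the class `P`, and of
compositions `h(X) → h(D)(-c) → h(X)` for some varieties `D`. -/
def LevelP (c : ℕ) (X : Var 𝒪) : Prop :=
  𝟙 X ∈ Via P X X ⊔ Submodule.span ℚ {f | ∃ (D : Var 𝒪) (a : X ⟶ D) (b : D ⟶ X),
    a ∈ T.gr X D (-c) ∧ b ∈ T.gr D X c ∧ f = a ≫ b}

/-- Correspondences of negative degree come from the class. -/
theorem negP (hc : ∀ Z : Var 𝒪, Z.dim ≤ 1 → P Z) {c : ℕ} {X Y : Var 𝒪} (hd : X.dim ≤ 2 * c + 2) (hX : LevelP T P c X)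
    (hY : LevelP T P c Y) (j : ℤ) (hj : j < 0) : T.gr X Y j ≤ Via P X Y := by
  intro f hf
  obtain ⟨t, ht, s, hs, hts⟩ := Submodule.mem_sup.1 hX
  obtain ⟨t', ht', s', hs', hts'⟩ := Submodule.mem_sup.1 hY
  have e1 : T.tp t + T.tp s = 𝟙 X := by rw [← map_add, hts, T.tp_id]
  have e2 : f = T.tp t ≫ f + (T.tp s ≫ f ≫ t' + T.tp s ≫ f ≫ s') := by
    calc f = 𝟙 X ≫ f := (Category.id_comp f).symm
      _ = T.tp t ≫ f + T.tp s ≫ f := by rw [← e1, Preadditive.add_comp]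
      _ = T.tp t ≫ f + T.tp s ≫ f ≫ (t' + s') := by rw [hts', Category.comp_id]
      _ = _ := by rw [Preadditive.comp_add, Preadditive.comp_add]
  rw [e2]
  refine add_mem (via_right (via_tp T ht) f) (add_mem ?_ ?_)
  · exact via_left _ (via_left _ ht')
  · refine span_map_le ((rc (f ≫ s')) ∘ₗ T.tp) ?_ hs
    rintro x ⟨D, a, b, ha, hb, rfl⟩
    rw [LinearMap.comp_apply, rc_apply, T.tp_comp, Category.assoc]
    refine via_left _ ?_
    refine span_map_le ((lc (T.tp a)) ∘ₗ (lc f)) ?_ hs'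
    rintro y ⟨E, a', b', ha', hb', rfl⟩
    rw [LinearMap.comp_apply, lc_apply, lc_apply, ← Category.assoc, ← Category.assoc]
    refine via_right ?_ b'
    have h1 := T.comp_mem (T.comp_mem (T.tp_mem ha) hf) ha'
    refine via_mono hc D E (small_codim T D E ?_ h1)
    omega

lemma exists_invP (hP : Nilp T P) {X : Var 𝒪} {a : X ⟶ X} (ha : a ∈ T.gr X X 0) (h1 : a - 𝟙 X ∈ Via P X X)
    (h2 : ∀ x, T.act (a - 𝟙 X) x = 0) : ∃ b ∈ T.gr X X 0, a ≫ b = 𝟙 X ∧ b ≫ a = 𝟙 X := by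
  have hn := via_nil T hP (z := (show End X from a - 𝟙 X)) h1 h2
  obtain ⟨b, hb, h3, h4⟩ := exists_inv0 T (a := (show End X from a)) ha hn
  exact ⟨b, hb, h3, h4⟩

theorem unitsP (lift : S_Lift) (hP : Nilp T P) {X Y : Var 𝒪} {f : X ⟶ Y} (hf : f ∈ T.gr X Y 0) {g : Y ⟶ X}
    (hg : g ∈ T.gr Y X 0) (hk : f ≫ g - 𝟙 X ∈ Via P X X) (hk' : g ≫ f - 𝟙 Y ∈ Via P Y Y)
    (hiso : T.HomIso X Y) : T.ChowIso X Y := by
  obtain ⟨φ, hφ, ψ, hψ, e1, e2⟩ := hiso
  have z0 : ∀ {A B C : Var 𝒪} {a : A ⟶ B} {b : B ⟶ C}, a ∈ T.gr A B 0 → b ∈ T.gr B C 0 → a ≫ b ∈ T.gr A C 0 := by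
    intro A B C a b ha hb
    have := T.comp_mem ha hb
    rwa [add_zero] at this
  have hfg := sub_mem (z0 hf hg) (T.id_mem X)
  have hgf := sub_mem (z0 hg hf) (T.id_mem Y)
  obtain ⟨u, hu⟩ := exists_op T (z0 hf hψ)
  obtain ⟨w, hw⟩ := exists_op T (z0 hφ hg)
  -- the ideal
  let J : Submodule ℚ (Alg0 T X) :=
    { carrier := {A | ∃ Γ ∈ T.gr X X 0, Γ ∈ Via P X X ∧ ∀ x, T.act Γ x = toOp (T.r X) A x}
      zero_mem' := ⟨0, zero_mem _, zero_mem _, fun x => by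
        rw [act_zero]
        simp⟩
      add_mem' := by
        rintro a b ⟨Γ, hΓ, hΓ', h1⟩ ⟨Δ, hΔ, hΔ', h2⟩
        refine ⟨Γ + Δ, add_mem hΓ hΔ, add_mem hΓ' hΔ', fun x => ?_⟩
        rw [T.act_add, h2, h1, Subalgebra.coe_add, map_add]
        rfl
      smul_mem' := by
        rintro c a ⟨Γ, hΓ, hΓ', h1⟩
        refine ⟨c • Γ, Submodule.smul_mem _ _ hΓ, Submodule.smul_mem _ _ hΓ', fun x => ?_⟩
        rw [act_smulQ, h1, Subalgebra.coe_smul, rho_smul] }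
  have hJ : ∀ a, ∀ x ∈ J, a * x ∈ J ∧ x * a ∈ J := by
    rintro ⟨a, Δ, hΔ, h2⟩ x ⟨Γ, hΓ, hΓ', h1⟩
    refine ⟨⟨Γ ≫ Δ, z0 hΓ hΔ, via_right hΓ' Δ, fun y => ?_⟩, ⟨Δ ≫ Γ, z0 hΔ hΓ, via_left Δ hΓ', fun y => ?_⟩⟩
    · rw [T.act_comp, h1, h2, Subalgebra.coe_mul, map_mul]
      rfl
    · rw [T.act_comp, h1, h2, Subalgebra.coe_mul, map_mul]
      rfl
  have huw : u * w - 1 ∈ J := by
    refine ⟨φ ≫ (g ≫ f - 𝟙 Y) ≫ ψ, z0 hφ (z0 hgf hψ), via_left φ (via_right hk' ψ), fun x => ?_⟩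
    rw [Subalgebra.coe_sub, Subalgebra.coe_mul, Subalgebra.coe_one, map_sub, map_mul, map_one, LinearMap.sub_apply,
      Module.End.mul_apply, ← hu, ← hw, Module.End.one_apply, T.act_comp, T.act_comp, act_sub, T.act_comp, T.act_id,
      ← actL_apply T ψ, map_sub, actL_apply, actL_apply, e1, T.act_comp, T.act_comp]
  have hwu : w * u - 1 ∈ J := by
    refine ⟨f ≫ g - 𝟙 X, hfg, hk, fun x => ?_⟩
    rw [Subalgebra.coe_sub, Subalgebra.coe_mul, Subalgebra.coe_one, map_sub, map_mul, map_one, LinearMap.sub_apply,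
      Module.End.mul_apply, ← hu, ← hw, Module.End.one_apply, act_sub, T.act_comp, T.act_id, T.act_comp, T.act_comp, e2]
  obtain ⟨j, ⟨Γj, hj1, hj2, hj3⟩, hunit⟩ := lift (Alg0 T X) J hJ u w huw hwu
  obtain ⟨t, ht⟩ := hunit
  obtain ⟨Γt, ht1, ht2⟩ := ((t⁻¹ : (Alg0 T X)ˣ) : Alg0 T X).2
  have t1 : ∀ x, T.act Γt (toOp (T.r X) (u + j : Alg0 T X) x) = x := by
    intro x
    rw [ht2, ← Module.End.mul_apply, ← map_mul, ← Subalgebra.coe_mul, ← ht, t.inv_mul, Subalgebra.coe_one, map_one]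
    rfl
  have t2 : ∀ x, toOp (T.r X) (u + j : Alg0 T X) (T.act Γt x) = x := by
    intro x
    rw [ht2, ← Module.End.mul_apply, ← map_mul, ← Subalgebra.coe_mul, ← ht, t.mul_inv, Subalgebra.coe_one, map_one]
    rfl
  have huj : ∀ x, toOp (T.r X) (u + j : Alg0 T X) x = T.act ψ (T.act f x) + T.act Γj x := by
    intro x
    rw [Subalgebra.coe_add, map_add, LinearMap.add_apply, ← hu, hj3, T.act_comp]
  -- the corrected morphisms
  set F : X ⟶ Y := f + Γj ≫ φ with hF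
  have hF0 : F ∈ T.gr X Y 0 := add_mem hf (z0 hj1 hφ)
  set G₀ : Y ⟶ X := ψ ≫ Γt with hG₀
  have hG₀0 : G₀ ∈ T.gr Y X 0 := z0 hψ ht1
  set k₁ : X ⟶ X := F ≫ g - 𝟙 X with hk₁
  have hk₁0 : k₁ ∈ T.gr X X 0 := sub_mem (z0 hF0 hg) (T.id_mem X)
  have hk₁t : k₁ ∈ Via P X X := by
    have : k₁ = (f ≫ g - 𝟙 X) + (Γj ≫ φ ≫ g) := by
      rw [hk₁, hF, Preadditive.add_comp, Category.assoc]
      abel
    rw [this]
    exact add_mem hk (via_right hj2 _)
  set G : Y ⟶ X := g - G₀ ≫ k₁ with hG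
  have hG0 : G ∈ T.gr Y X 0 := sub_mem hg (z0 hG₀0 hk₁0)
  have actF : ∀ x, T.act ψ (T.act F x) = toOp (T.r X) (u + j : Alg0 T X) x := by
    intro x
    rw [huj, hF, T.act_add, T.act_add', T.act_comp, e1]
  have FG₀ : ∀ x, T.act G₀ (T.act F x) = x := by
    intro x
    rw [hG₀, T.act_comp, actF, t1]
  have G₀F : ∀ y, T.act F (T.act G₀ y) = y := by
    intro y
    have h1 : T.act ψ (T.act F (T.act G₀ y)) = T.act ψ y := by
      rw [actF, hG₀, T.act_comp, t2]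
    have h2 := congrArg (T.act φ) h1
    rwa [e2, e2] at h2
  have actG : ∀ y, T.act G y = T.act G₀ y := by
    intro y
    rw [hG, act_sub, T.act_comp, hk₁, act_sub, T.act_comp, T.act_id, G₀F]
    abel
  -- the compositions
  have m1 : F ≫ G - 𝟙 X ∈ Via P X X := by
    have : F ≫ G - 𝟙 X = k₁ - F ≫ G₀ ≫ k₁ := by
      rw [hG, Preadditive.comp_sub, hk₁]
      abel
    rw [this]
    exact sub_mem hk₁t (via_left _ (via_left _ hk₁t))
  have m2 : G ≫ F - 𝟙 Y ∈ Via P Y Y := by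
    have : G ≫ F - 𝟙 Y = (g ≫ f - 𝟙 Y) + g ≫ Γj ≫ φ - G₀ ≫ k₁ ≫ F := by
      rw [hG, Preadditive.sub_comp, hF, Preadditive.comp_add, Category.assoc]
      abel
    rw [this]
    exact sub_mem (add_mem hk' (via_left _ (via_right hj2 _))) (via_left _ (via_right hk₁t _))
  have a1 : ∀ x, T.act (F ≫ G - 𝟙 X) x = 0 := by
    intro x
    rw [act_sub, T.act_comp, T.act_id, actG, FG₀, sub_self]
  have a2 : ∀ y, T.act (G ≫ F - 𝟙 Y) y = 0 := by
    intro y
    rw [act_sub, T.act_comp, T.act_id, actG, G₀F, sub_self]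
  obtain ⟨M, hM, hM1, -⟩ := exists_invP T hP (z0 hF0 hG0) m1 a1
  obtain ⟨M', hM', -, hM2⟩ := exists_invP T hP (z0 hG0 hF0) m2 a2
  refine ⟨F, hF0, G ≫ M, z0 hG0 hM, ?_, ?_⟩
  · rw [← Category.assoc]
    exact hM1
  · have h1 : G ≫ M = M' ≫ G := by
      calc G ≫ M = (M' ≫ G ≫ F) ≫ (G ≫ M) := by rw [hM2, Category.id_comp]
        _ = M' ≫ G ≫ ((F ≫ G) ≫ M) := by simp only [Category.assoc]
        _ = M' ≫ G := by rw [hM1, Category.comp_id]
    rw [h1, Category.assoc]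
    exact hM2

/-- the component of degree zero of a product -/
lemma z0_mulP {X Y Z : Var 𝒪} (h1 : ∀ j : ℤ, j < 0 → T.gr X Y j ≤ Via P X Y)
    (h2 : ∀ j : ℤ, j < 0 → T.gr Y Z j ≤ Via P Y Z) (v : X ⟶ Y) (w : Y ⟶ Z) :
    z0 T (v ≫ w) - z0 T v ≫ z0 T w ∈ Via P X Z := by
  refine Submodule.iSup_induction (T.gr X Y) (motive := fun v => z0 T (v ≫ w) - z0 T v ≫ z0 T w ∈ Via P X Z)
    (hom_mem T v) (fun i v hv => ?_) ?_ (fun v v' e1 e2 => ?_)
  · refine Submodule.iSup_induction (T.gr Y Z) (motive := fun w => z0 T (v ≫ w) - z0 T v ≫ z0 T w ∈ Via P X Z)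
      (hom_mem T w) (fun j w hw => ?_) ?_ (fun w w' e1 e2 => ?_)
    · have hvw := T.comp_mem hv hw
      by_cases hij : i + j = 0
      · rw [hij] at hvw
        unfold z0
        rw [cmp_of_mem _ hvw]
        by_cases hi : i = 0
        · subst hi
          have hj : j = 0 := by omega
          subst hj
          rw [cmp_of_mem _ hv, cmp_of_mem _ hw, sub_self]
          exact zero_mem _
        · rw [cmp_of_ne _ hv hi, Limits.zero_comp, sub_zero]
          rcases lt_or_gt_of_ne hi with h | h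
          · exact via_right (h1 i h hv) w
          · exact via_left v (h2 j (by omega) hw)
      · unfold z0
        rw [cmp_of_ne _ hvw hij]
        by_cases hi : i = 0
        · have hj : j ≠ 0 := by omega
          rw [cmp_of_ne _ hw hj, Limits.comp_zero, sub_zero]
          exact zero_mem _
        · rw [cmp_of_ne _ hv hi, Limits.zero_comp, sub_zero]
          exact zero_mem _
    · rw [Limits.comp_zero, map_zero, map_zero, Limits.comp_zero, sub_zero]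
      exact zero_mem _
    · have : z0 T (v ≫ (w + w')) - z0 T v ≫ z0 T (w + w') =
          (z0 T (v ≫ w) - z0 T v ≫ z0 T w) + (z0 T (v ≫ w') - z0 T v ≫ z0 T w') := by
        rw [Preadditive.comp_add, map_add, map_add, Preadditive.comp_add]
        abel
      rw [this]
      exact add_mem e1 e2
  · rw [Limits.zero_comp, map_zero, map_zero, Limits.zero_comp, sub_zero]
    exact zero_mem _
  · have : z0 T ((v + v') ≫ w) - z0 T (v + v') ≫ z0 T w =
        (z0 T (v ≫ w) - z0 T v ≫ z0 T w) + (z0 T (v' ≫ w) - z0 T v' ≫ z0 T w) := by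
      rw [Preadditive.add_comp, map_add, map_add, Preadditive.add_comp]
      abel
    rw [this]
    exact add_mem e1 e2

/-- Varieties of level at most two up to finite dimensional motives, with inverse mixed correspondences: the Chow motives
are isomorphic if the homological motives are. -/
theorem chow_of_homP (lift : S_Lift) (hc : ∀ Z : Var 𝒪, Z.dim ≤ 1 → P Z) (hP : Nilp T P) {c : ℕ} {X Y : Var 𝒪} (hdX : X.dim ≤ 2 * c + 2) (hdY : Y.dim ≤ 2 * c + 2)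
    (hX : LevelP T P c X) (hY : LevelP T P c Y) {v : X ⟶ Y} {w : Y ⟶ X} (hvw : v ≫ w = 𝟙 X) (hwv : w ≫ v = 𝟙 Y)
    (h : T.HomIso X Y) : T.ChowIso X Y := by
  have n1 := negP T hc hdX hX hY
  have n2 := negP T hc hdY hY hX
  have k1 := z0_mulP T n1 n2 v w
  have k2 := z0_mulP T n2 n1 w v
  have e1 : z0 T (v ≫ w) = 𝟙 X := by
    rw [hvw]
    exact cmp_of_mem _ (T.id_mem X)
  have e2 : z0 T (w ≫ v) = 𝟙 Y := by
    rw [hwv]
    exact cmp_of_mem _ (T.id_mem Y)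
  rw [e1] at k1
  rw [e2] at k2
  refine unitsP T lift hP (cmp_mem (T.isInternal X Y) 0 v) (cmp_mem (T.isInternal Y X) 0 w) ?_ ?_ h
  · have := neg_mem k1
    rwa [neg_sub] at this
  · have := neg_mem k2
    rwa [neg_sub] at this

end Pool.Agent.L0h14.OR
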