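import Pool.Agent.L0h14.OR.Stm

/-!
# Correspondences of negative degree come from curves
-/

universe u v

open CategoryTheory

set_option autoImplicit false

namespace Pool.Agent.L0h14.OR

open Pool.Agent.W539.DI Pool.Agent.R941.OH Pool.Agent.N174.OC

variable {𝒪 : ℕ → Type u} [Category.{v} (Var 𝒪)] [Preadditive (Var 𝒪)] [Linear ℚ (Var 𝒪)]

/-- a span is mapped to a submodule by a linear map if the generators are -/
lemma span_map_le {M N : Type*} [AddCommGroup M] [AddCommGroup N] [Module ℚ M] [Module ℚ N] {s : Set M}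
    {P : Submodule ℚ N} (φ : M →ₗ[ℚ] N) (h : ∀ x ∈ s, φ x ∈ P) {x : M} (hx : x ∈ Submodule.span ℚ s) : φ x ∈ P := by
  have h1 : Submodule.span ℚ s ≤ P.comap φ := Submodule.span_le.2 h
  exact h1 hx

/-- composition on the right -/
def rc {X Y Z : Var 𝒪} (f : Y ⟶ Z) : (X ⟶ Y) →ₗ[ℚ] (X ⟶ Z) where
  toFun a := a ≫ f
  map_add' a b := Preadditive.add_comp _ _ _ a b f
  map_smul' r a := Linear.smul_comp _ _ _ r a f

/-- composition on the left -/
def lc {X Y Z : Var 𝒪} (f : X ⟶ Y) : (Y ⟶ Z) →ₗ[ℚ] (X ⟶ Z) where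
  toFun a := f ≫ a
  map_add' a b := Preadditive.comp_add _ _ _ f a b
  map_smul' r a := Linear.comp_smul _ _ _ f r a

lemma rc_apply {X Y Z : Var 𝒪} (f : Y ⟶ Z) (a : X ⟶ Y) : rc f a = a ≫ f := rfl

lemma lc_apply {X Y Z : Var 𝒪} (f : X ⟶ Y) (a : Y ⟶ Z) : lc f a = f ≫ a := rfl

lemma thru_right {d : ℕ} {X Y Z : Var 𝒪} {a : X ⟶ Y} (ha : a ∈ Through d X Y) (f : Y ⟶ Z) : a ≫ f ∈ Through d X Z := by
  refine span_map_le (rc f) ?_ ha
  rintro x ⟨W, p, q, hW, rfl⟩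
  refine Submodule.subset_span ⟨W, p, q ≫ f, hW, ?_⟩
  rw [rc_apply, Category.assoc]

lemma thru_left {d : ℕ} {X Y Z : Var 𝒪} (f : X ⟶ Y) {a : Y ⟶ Z} (ha : a ∈ Through d Y Z) : f ≫ a ∈ Through d X Z := by
  refine span_map_le (lc f) ?_ ha
  rintro x ⟨W, p, q, hW, rfl⟩
  refine Submodule.subset_span ⟨W, f ≫ p, q, hW, ?_⟩
  rw [lc_apply, Category.assoc]

lemma thru_mono {d e : ℕ} (h : d ≤ e) (X Y : Var 𝒪) : Through d X Y ≤ Through e X Y := by
  refine Submodule.span_mono ?_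
  rintro x ⟨W, p, q, hW, rfl⟩
  exact ⟨W, p, q, hW.trans h, rfl⟩

lemma thru_tp (T : ChowTheory 𝒪) {d : ℕ} {X Y : Var 𝒪} {a : X ⟶ Y} (ha : a ∈ Through d X Y) : T.tp a ∈ Through d Y X := by
  refine span_map_le T.tp ?_ ha
  rintro x ⟨W, p, q, hW, rfl⟩
  exact Submodule.subset_span ⟨W, T.tp q, T.tp p, hW, T.tp_comp p q⟩

/-- correspondences of small codimension -/
lemma small_codim (T : ChowTheory 𝒪) (X Y : Var 𝒪) {i : ℤ} (hi : i ≤ 1 - X.dim) : T.gr X Y i ≤ Through 1 X Y := by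
  rcases lt_or_ge i (-X.dim : ℤ) with h | h
  · rw [T.negative X Y i h]
    exact bot_le
  · rcases eq_or_lt_of_le h with h1 | h1
    · rw [← h1]
      exact (T.codim_zero X Y).trans (thru_mono (by norm_num) X Y)
    · have h2 : i = 1 - X.dim := by omega
      rw [h2]
      exact T.codim_one X Y

theorem neg : S_Neg.{u, v} := by
  intro 𝒪 _ _ _ T c X Y hd hX hY j hj f hf
  obtain ⟨t, ht, s, hs, hts⟩ := Submodule.mem_sup.1 hX
  obtain ⟨t', ht', s', hs', hts'⟩ := Submodule.mem_sup.1 hY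
  have e1 : T.tp t + T.tp s = 𝟙 X := by rw [← map_add, hts, T.tp_id]
  have e2 : f = T.tp t ≫ f + (T.tp s ≫ f ≫ t' + T.tp s ≫ f ≫ s') := by
    calc f = 𝟙 X ≫ f := (Category.id_comp f).symm
      _ = T.tp t ≫ f + T.tp s ≫ f := by rw [← e1, Preadditive.add_comp]
      _ = T.tp t ≫ f + T.tp s ≫ f ≫ (t' + s') := by rw [hts', Category.comp_id]
      _ = _ := by rw [Preadditive.comp_add, Preadditive.comp_add]
  rw [e2]
  refine add_mem (thru_right (thru_tp T ht) f) (add_mem ?_ ?_)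
  · exact thru_left _ (thru_left _ ht')
  · refine span_map_le ((rc (f ≫ s')) ∘ₗ T.tp) ?_ hs
    rintro x ⟨D, a, b, ha, hb, rfl⟩
    rw [LinearMap.comp_apply, rc_apply, T.tp_comp, Category.assoc]
    refine thru_left _ ?_
    refine span_map_le ((lc (T.tp a)) ∘ₗ (lc f)) ?_ hs'
    rintro y ⟨E, a', b', ha', hb', rfl⟩
    rw [LinearMap.comp_apply, lc_apply, lc_apply, ← Category.assoc, ← Category.assoc]
    refine thru_right ?_ b'
    have h1 := T.comp_mem (T.comp_mem (T.tp_mem ha) hf) ha'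
    refine small_codim T D E ?_ h1
    omega

end Pool.Agent.L0h14.OR
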