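import Pool.Agent.L0h14.OR.Neg

/-!
# Homologically trivial correspondences which come from curves are nilpotent
-/

universe u v

open CategoryTheory

set_option autoImplicit false

namespace Pool.Agent.L0h14.OR

open Pool.Agent.W539.DI Pool.Agent.R941.OH Pool.Agent.N174.OC

variable {𝒪 : ℕ → Type u} [Category.{v} (Var 𝒪)] [Preadditive (Var 𝒪)] [Linear ℚ (Var 𝒪)] (T : ChowTheory 𝒪)

/-- the action as a linear map -/
noncomputable def actL {X Y : Var 𝒪} (Γ : X ⟶ Y) : (T.K X).R →ₗ[ℂ] (T.K Y).R where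
  toFun := T.act Γ
  map_add' := T.act_add' Γ
  map_smul' := T.act_smul' Γ

lemma actL_apply {X Y : Var 𝒪} (Γ : X ⟶ Y) (x : (T.K X).R) : actL T Γ x = T.act Γ x := rfl

/-- the action as an additive map of the correspondence -/
noncomputable def actA (X Y : Var 𝒪) : (X ⟶ Y) →+ ((T.K X).R →ₗ[ℂ] (T.K Y).R) where
  toFun := actL T
  map_zero' := by
    ext x
    have h := T.act_add (0 : X ⟶ Y) 0 x
    rw [add_zero, left_eq_add] at h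
    exact h
  map_add' Γ Δ := LinearMap.ext (T.act_add Γ Δ)

lemma actA_apply {X Y : Var 𝒪} (Γ : X ⟶ Y) (x : (T.K X).R) : actA T X Y Γ x = T.act Γ x := rfl

lemma act_zero' {X Y : Var 𝒪} (Γ : X ⟶ Y) : T.act Γ 0 = 0 := (actL T Γ).map_zero

lemma act_zero {X Y : Var 𝒪} (x : (T.K X).R) : T.act (0 : X ⟶ Y) x = 0 :=
  congrArg (fun f : (T.K X).R →ₗ[ℂ] (T.K Y).R => f x) (actA T X Y).map_zero

lemma act_sum {X Y : Var 𝒪} {ι : Type*} (s : Finset ι) (Γ : ι → (X ⟶ Y)) (x : (T.K X).R) :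
    T.act (∑ i ∈ s, Γ i) x = ∑ i ∈ s, T.act (Γ i) x := by
  rw [← actA_apply, map_sum, LinearMap.sum_apply]
  rfl

lemma act_sub {X Y : Var 𝒪} (Γ Δ : X ⟶ Y) (x : (T.K X).R) : T.act (Γ - Δ) x = T.act Γ x - T.act Δ x := by
  rw [← actA_apply, map_sub, LinearMap.sub_apply]
  rfl

lemma act_smulQ {X Y : Var 𝒪} (q : ℚ) (Γ : X ⟶ Y) (x : (T.K X).R) : T.act (q • Γ) x = (q : ℂ) • T.act Γ x := by
  have h := map_ratCast_smul (actA T X Y) ℚ ℂ q Γ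
  have h1 : actA T X Y (q • Γ) = (q : ℂ) • actA T X Y Γ := by simpa using h
  exact congrArg (fun f : (T.K X).R →ₗ[ℂ] (T.K Y).R => f x) h1

/-- products of three homologically trivial correspondences between curves or points are zero -/
lemma triple {X₁ X₂ X₃ X₄ : Var 𝒪} (h₁ : X₁.dim ≤ 1) (h₂ : X₂.dim ≤ 1) (h₃ : X₃.dim ≤ 1) (h₄ : X₄.dim ≤ 1)
    {x : X₁ ⟶ X₂} {y : X₂ ⟶ X₃} {z : X₃ ⟶ X₄} (hx : ∀ a, T.act x a = 0) (hy : ∀ a, T.act y a = 0)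
    (hz : ∀ a, T.act z a = 0) : x ≫ y ≫ z = 0 := by
  have k1 := T.curves X₁ X₂ h₁ h₂ x hx
  have k2 := T.curves X₂ X₃ h₂ h₃ y hy
  have k3 := T.curves X₃ X₄ h₃ h₄ z hz
  have e1 : x ≫ y ≫ z ∈ (⊥ : Submodule ℚ (X₁ ⟶ X₄)) := by
    refine span_map_le (rc (y ≫ z)) ?_ k1
    rintro _ ⟨Z₁, a₁, b₁, hZ₁, hab₁, rfl⟩
    rw [rc_apply]
    refine span_map_le ((lc (a₁ ≫ b₁)) ∘ₗ (rc z)) ?_ k2
    rintro _ ⟨Z₂, a₂, b₂, hZ₂, hab₂, rfl⟩
    rw [LinearMap.comp_apply, rc_apply, lc_apply]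
    refine span_map_le ((lc (a₁ ≫ b₁)) ∘ₗ (lc (a₂ ≫ b₂))) ?_ k3
    rintro _ ⟨Z₃, a₃, b₃, hZ₃, hab₃, rfl⟩
    rw [LinearMap.comp_apply, lc_apply, lc_apply, Submodule.mem_bot]
    have hprod : b₁ ≫ a₂ = 0 ∨ b₂ ≫ a₃ = 0 := by
      by_cases hb₁ : ∀ u, T.act b₁ u = 0
      · left
        refine T.points _ _ hZ₁ hZ₂ _ fun u => ?_
        rw [T.act_comp, hb₁, act_zero']
      · by_cases ha₂ : ∀ u, T.act a₂ u = 0
        · left
          refine T.points _ _ hZ₁ hZ₂ _ fun u => ?_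
          rw [T.act_comp, ha₂]
        · right
          have hb₂ : ∀ u, T.act b₂ u = 0 := hab₂.resolve_left ha₂
          refine T.points _ _ hZ₂ hZ₃ _ fun u => ?_
          rw [T.act_comp, hb₂, act_zero']
    have e2 : (a₁ ≫ b₁) ≫ (a₂ ≫ b₂) ≫ a₃ ≫ b₃ = a₁ ≫ (b₁ ≫ a₂) ≫ (b₂ ≫ a₃) ≫ b₃ := by
      simp only [Category.assoc]
    rw [e2]
    rcases hprod with h | h <;> simp [h]
  exact (Submodule.mem_bot ℚ).1 e1

/-- elements of `Through d` are finite sums -/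
lemma thru_sum {d : ℕ} {X Y : Var 𝒪} {z : X ⟶ Y} (hz : z ∈ Through d X Y) :
    ∃ (N : ℕ) (Z : Fin N → Var 𝒪) (a : ∀ i, X ⟶ Z i) (b : ∀ i, Z i ⟶ Y), (∀ i, (Z i).dim ≤ d) ∧
      z = ∑ i, a i ≫ b i := by
  obtain ⟨N, f, g, h⟩ := (Submodule.mem_span_set' (R := ℚ)).1 hz
  choose Z a b hZ hab using fun i => (g i).2
  refine ⟨N, Z, fun i => f i • a i, b, hZ, ?_⟩
  rw [← h]
  refine Finset.sum_congr rfl fun i _ => ?_
  rw [Linear.smul_comp, hab i]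

theorem nil : S_Nil.{u, v} := by
  intro 𝒪 _ _ _ T X z hz h0
  obtain ⟨N, Z, a, b, hZ, hzs⟩ := thru_sum hz
  have key : ∀ w : X ⟶ X, (∀ x, T.act w x = 0) → (z : X ⟶ X) ≫ w ≫ z ≫ w ≫ z ≫ w ≫ z = 0 := by
    intro w hw
    have ht : ∀ i j, ∀ x, T.act (b i ≫ w ≫ a j) x = 0 := by
      intro i j x
      rw [T.act_comp, T.act_comp, hw, act_zero']
    have e : ∀ i j k l, a i ≫ b i ≫ w ≫ a j ≫ b j ≫ w ≫ a k ≫ b k ≫ w ≫ a l ≫ b l = 0 := by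
      intro i j k l
      have h1 := triple T (hZ i) (hZ j) (hZ k) (hZ l) (ht i j) (ht j k) (ht k l)
      have h2 : a i ≫ b i ≫ w ≫ a j ≫ b j ≫ w ≫ a k ≫ b k ≫ w ≫ a l ≫ b l =
          a i ≫ ((b i ≫ w ≫ a j) ≫ (b j ≫ w ≫ a k) ≫ (b k ≫ w ≫ a l)) ≫ b l := by
        simp only [Category.assoc]
      rw [h2, h1, Limits.zero_comp, Limits.comp_zero]
    rw [hzs]
    simp only [Preadditive.sum_comp, Preadditive.comp_sum, Category.assoc]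
    refine Finset.sum_eq_zero fun i _ => Finset.sum_eq_zero fun j _ => Finset.sum_eq_zero fun k _ =>
      Finset.sum_eq_zero fun l _ => ?_
    exact e _ _ _ _
  refine ⟨7, ?_⟩
  have h7 := key z h0
  have e7 : z ^ 7 = ((z : X ⟶ X) ≫ z ≫ z ≫ z ≫ z ≫ z ≫ z : X ⟶ X) := by
    simp only [pow_succ, pow_zero, one_mul, End.mul_def]
  rw [e7]
  exact h7

end Pool.Agent.L0h14.OR
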