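import Pool.Agent.N174.OC.Defs

/-!
# Correspondences over an arbitrary field, modulo numerical equivalence
-/

universe u v

open CategoryTheory

set_option autoImplicit false

namespace Pool.Agent.L0h14.ORN

open Pool.Agent.N174.OC

variable {𝒱 : Type u} [Category.{v} 𝒱] [Preadditive 𝒱] [Linear ℚ 𝒱]

/-- The correspondences which are sums of compositions `X → Z → Y` where `Z` is in the class `P`. -/
def Via (P : 𝒱 → Prop) (X Y : 𝒱) : Submodule ℚ (X ⟶ Y) :=
  Submodule.span ℚ {f | ∃ (Z : 𝒱) (a : X ⟶ Z) (b : Z ⟶ Y), P Z ∧ f = a ≫ b}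

variable (𝒱) in
/-- The formal properties of the correspondences between smooth projective connected varieties over a (perfect)
field `k`, `X ⟶ Y` being the Chow group of the cycles of all codimensions on `X × Y` with rational coefficients,
with the composition of correspondences, and `𝟙 X` the class of the diagonal; `gr X Y i` consists of the cycles of
codimension `dim X + i`, the correspondences of degree `i`.

1. The transpose `tp Γ`, and the trace `tr X Γ`, the degree of the restriction of `Γ` to the diagonal; so `tr X (a ≫ b)`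
is the intersection number of `a` and `tp b`. Numerical equivalence has finite rank.
2. There are no cycles of negative codimension, cycles of codimension zero are combinations of the components of
`X × Y` and come from varieties of dimension zero, and divisors on `X × Y` are sums of divisors of `X`, divisors of `Y` and
classes which come from curves (the latter is the relation `Pic(X × Y) = Pic(X) ⊕ Pic(Y) ⊕ Hom(Alb X, Pic⁰ Y)` and
the theorem of Poincaré on abelian varieties). -/
structure ChowTheory extends Cor 𝒱 where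
  /-- the dimension -/
  dim : 𝒱 → ℕ
  /-- the transpose -/
  tp : ∀ {X Y : 𝒱}, (X ⟶ Y) →ₗ[ℚ] (Y ⟶ X)
  tp_id : ∀ X : 𝒱, tp (𝟙 X) = 𝟙 X
  tp_comp : ∀ {X Y Z : 𝒱} (Γ : X ⟶ Y) (Δ : Y ⟶ Z), tp (Γ ≫ Δ) = tp Δ ≫ tp Γ
  tp_mem : ∀ {X Y : 𝒱} {i : ℤ} {Γ : X ⟶ Y}, Γ ∈ gr X Y i → tp Γ ∈ gr Y X (dim X + i - dim Y)
  /-- the degree of the restriction to the diagonal -/
  tr : ∀ X : 𝒱, (X ⟶ X) →ₗ[ℚ] ℚ
  tr_comm : ∀ {X Y : 𝒱} (a : X ⟶ Y) (b : Y ⟶ X), tr X (a ≫ b) = tr Y (b ≫ a)
  /-- numerical equivalence has finite rank -/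
  finite : ∀ X : 𝒱, ∃ (n : ℕ) (φ : (X ⟶ X) →ₗ[ℚ] (Fin n → ℚ)), ∀ a, φ a = 0 → ∀ b, tr X (a ≫ b) = 0
  /-- there are no cycles of negative codimension -/
  negative : ∀ (X Y : 𝒱) (i : ℤ), i < -dim X → gr X Y i = ⊥
  /-- cycles of codimension zero -/
  codim_zero : ∀ X Y : 𝒱, gr X Y (-dim X) ≤ Via (fun Z => dim Z = 0) X Y
  /-- divisors -/
  codim_one : ∀ X Y : 𝒱, gr X Y (1 - dim X) ≤ Via (fun Z => dim Z ≤ 1) X Y

/-- The power `z ^ (k + 1)` of the matrix `z` of correspondences. -/
def mpow {N : ℕ} {Z : Fin N → 𝒱} (z : ∀ i j, Z i ⟶ Z j) : ℕ → ∀ i j, Z i ⟶ Z j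
  | 0 => z
  | k + 1 => fun i j => ∑ l, z i l ≫ mpow z k l j

namespace ChowTheory

variable (T : ChowTheory 𝒱)

/-- The correspondences which are numerically equivalent to zero. -/
def triv (X Y : 𝒱) : Submodule ℚ (X ⟶ Y) where
  carrier := {a | ∀ b : Y ⟶ X, T.tr X (a ≫ b) = 0}
  zero_mem' b := by rw [Limits.zero_comp, map_zero]
  add_mem' := by
    intro a a' h h' b
    rw [Preadditive.add_comp, map_add, h b, h' b, add_zero]
  smul_mem' := by
    intro c a h b
    rw [Linear.smul_comp, map_smul, h b, smul_zero]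

/-- The class `P` contains all varieties of dimension at most one, and numerically trivial endomorphisms (of all
degrees) of finite direct sums of motives of varieties in `P` are nilpotent. By theorems of Kimura this is satisfied
for the class of all varieties whose Chow motives are finite-dimensional, which contains the curves, the products of curves, the
abelian varieties, and the varieties dominated by them. -/
def Finite (P : 𝒱 → Prop) : Prop :=
  (∀ Z, T.dim Z ≤ 1 → P Z) ∧ ∀ (N : ℕ) (Z : Fin N → 𝒱), (∀ i, P (Z i)) → ∀ z : ∀ i j, Z i ⟶ Z j,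
    (∀ i j, z i j ∈ T.triv (Z i) (Z j)) → ∃ k, ∀ i j, mpow z k i j = 0

/-- The diagonal of `X` is a sum of compositions `h(X) → h(Z) → h(X)`, of all degrees, where `Z` is in the class `P`, and of
compositions `h(X) → h(D)(-c) → h(X)` for some varieties `D`. For `c = 0` this is always satisfied (take `D = X`). For
`c = 1` it is satisfied if the zero-cycles of `X` (over a universal domain, with rational coefficients) are supported on the
image of a variety in `P` (decomposition of the diagonal, Bloch and Srinivas), and for all `c` if for `i < c` the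
`i`-cycles of `X` are supported on subvarieties of dimension at most `i + 1` (Paranjape, Laterveer). -/
def Level (P : 𝒱 → Prop) (c : ℕ) (X : 𝒱) : Prop :=
  𝟙 X ∈ Via P X X ⊔ Submodule.span ℚ {f | ∃ (D : 𝒱) (a : X ⟶ D) (b : D ⟶ X),
    a ∈ T.gr X D (-c) ∧ b ∈ T.gr D X c ∧ f = a ≫ b}

/-- The Chow motives of `X` and `Y` are isomorphic. -/
def ChowIso (X Y : 𝒱) : Prop :=
  ∃ Z ∈ T.gr X Y 0, ∃ Z' ∈ T.gr Y X 0, Z ≫ Z' = 𝟙 X ∧ Z' ≫ Z = 𝟙 Y

/-- The motives of `X` and `Y` modulo numerical equivalence are isomorphic. -/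
def NumIso (X Y : 𝒱) : Prop :=
  ∃ Z ∈ T.gr X Y 0, ∃ Z' ∈ T.gr Y X 0, Z ≫ Z' - 𝟙 X ∈ T.triv X X ∧ Z' ≫ Z - 𝟙 Y ∈ T.triv Y Y

end ChowTheory

end Pool.Agent.L0h14.ORN
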