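import Pool.Agent.L0h14.OR.Defs

/-!
# The modules (statements)
-/

universe u v

open CategoryTheory

set_option autoImplicit false

namespace Pool.Agent.L0h14.OR

open Pool.Agent.W539.DI Pool.Agent.R941.OH Pool.Agent.N174.OC

/-- Correspondences of negative degree come from curves. -/
def S_Neg : Prop := ∀ {𝒪 : ℕ → Type u} [Category.{v} (Var 𝒪)] [Preadditive (Var 𝒪)] [Linear ℚ (Var 𝒪)]
  (T : ChowTheory 𝒪) (c : ℕ) (X Y : Var 𝒪), X.dim ≤ 2 * c + 2 → T.Level c X → T.Level c Y →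
  ∀ j : ℤ, j < 0 → T.gr X Y j ≤ Through 1 X Y

/-- Homologically trivial correspondences which come from curves are nilpotent. -/
def S_Nil : Prop := ∀ {𝒪 : ℕ → Type u} [Category.{v} (Var 𝒪)] [Preadditive (Var 𝒪)] [Linear ℚ (Var 𝒪)]
  (T : ChowTheory 𝒪) (X : Var 𝒪) (z : End X), (z : X ⟶ X) ∈ Through 1 X X → (∀ x, T.act z x = 0) → IsNilpotent z

/-- Correspondences which are inverse to each other up to correspondences which come from curves. -/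
def S_Units : Prop := ∀ {𝒪 : ℕ → Type u} [Category.{v} (Var 𝒪)] [Preadditive (Var 𝒪)] [Linear ℚ (Var 𝒪)]
  (T : ChowTheory 𝒪) (X Y : Var 𝒪), ∀ f ∈ T.gr X Y 0, ∀ g ∈ T.gr Y X 0, f ≫ g - 𝟙 X ∈ Through 1 X X →
  g ≫ f - 𝟙 Y ∈ Through 1 Y Y → T.HomIso X Y → T.ChowIso X Y

/-- Units can be lifted modulo two-sided ideals in finite dimensional algebras. -/
def S_Lift : Prop := ∀ (R : Type) [Ring R] [Algebra ℚ R] [FiniteDimensional ℚ R] (J : Submodule ℚ R),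
  (∀ a, ∀ x ∈ J, a * x ∈ J ∧ x * a ∈ J) → ∀ u v : R, u * v - 1 ∈ J → v * u - 1 ∈ J →
  ∃ j ∈ J, IsUnit (u + j)

/-- Varieties of level at most two satisfy the standard conjecture of Lefschetz type. -/
def S_B : Prop := ∀ {𝒪 : ℕ → Type u} [Category.{v} (Var 𝒪)] [Preadditive (Var 𝒪)] [Linear ℚ (Var 𝒪)]
  (T : ChowTheory 𝒪) (c : ℕ) (X : Var 𝒪), X.dim ≤ 2 * c + 2 → T.Level c X → T.ConjB X

/-- The identity of `H^m(X)` factors through `H^0` of points or through `H^1` of varieties of positive dimension. -/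
def Small {𝒪 : ℕ → Type u} [Category.{v} (Var 𝒪)] [Preadditive (Var 𝒪)] [Linear ℚ (Var 𝒪)] (T : ChowTheory 𝒪)
    (X : Var 𝒪) (m : ℕ) : Prop :=
  ∃ (N : ℕ) (s : ℤ) (ε : ℕ) (Z : Fin N → Var 𝒪) (a : ∀ i, X ⟶ Z i) (b : ∀ i, Z i ⟶ X),
    ((ε = 0 ∧ ∀ i, (Z i).dim = 0) ∨ (ε = 1 ∧ ∀ i, 1 ≤ (Z i).dim)) ∧ 2 * s + ε = m ∧
    (∀ i, a i ∈ T.gr X (Z i) (-s)) ∧ (∀ i, b i ∈ T.gr (Z i) X s) ∧
    ∀ (p q : ℤ) (x : (T.K X).R), x ∈ (T.K X).H (p, q) → p + q = m → ∑ i, T.act (b i) (T.act (a i) x) = x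

/-- There is an algebraic operator `H^(2n-m)(X) → H^m(X)`, `n = dim X`, which is injective and zero on the other `H^j(X)`. -/
def HasInj {𝒪 : ℕ → Type u} [Category.{v} (Var 𝒪)] [Preadditive (Var 𝒪)] [Linear ℚ (Var 𝒪)] (T : ChowTheory 𝒪)
    (X : Var 𝒪) (m : ℕ) : Prop :=
  ∃ S : X ⟶ X, (∀ (p q : ℤ) (y : (T.K X).R), y ∈ (T.K X).H (p, q) → p + q ≠ 2 * X.dim - m → T.act S y = 0) ∧
    (∀ (p q : ℤ) (y : (T.K X).R), y ∈ (T.K X).H (p, q) → p + q = 2 * X.dim - m →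
      T.act S y ∈ (T.K X).H (p - (X.dim - m), q - (X.dim - m))) ∧
    ∀ (p q : ℤ) (y : (T.K X).R), y ∈ (T.K X).H (p, q) → p + q = 2 * X.dim - m → T.act S y = 0 → y = 0

def S_B1 : Prop := ∀ {𝒪 : ℕ → Type u} [Category.{v} (Var 𝒪)] [Preadditive (Var 𝒪)] [Linear ℚ (Var 𝒪)]
  (T : ChowTheory 𝒪) (c : ℕ) (X : Var 𝒪), X.dim ≤ 2 * c + 2 → T.Level c X → ∀ m < X.dim, Small T X m

def S_B2 : Prop := ∀ {𝒪 : ℕ → Type u} [Category.{v} (Var 𝒪)] [Preadditive (Var 𝒪)] [Linear ℚ (Var 𝒪)]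
  (T : ChowTheory 𝒪) (X : Var 𝒪) (m : ℕ), m < X.dim → Small T X m → HasInj T X m

def S_B3 : Prop := ∀ {𝒪 : ℕ → Type u} [Category.{v} (Var 𝒪)] [Preadditive (Var 𝒪)] [Linear ℚ (Var 𝒪)]
  (T : ChowTheory 𝒪) (X : Var 𝒪), (∀ m < X.dim, HasInj T X m) → T.ConjB X

/-- The case of the start result. -/
def S_Low : Prop := ∀ {𝒪 : ℕ → Type u} [Category.{v} (Var 𝒪)] [Preadditive (Var 𝒪)] [Linear ℚ (Var 𝒪)]
  (T : ChowTheory 𝒪) {n : ℕ} (X Y : 𝒪 n) (v : (⟨n, X⟩ : Var 𝒪) ⟶ ⟨n, Y⟩) (w : (⟨n, Y⟩ : Var 𝒪) ⟶ ⟨n, X⟩),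
  T.IsDerivedPair v w → T.ConjB ⟨n, X⟩ → (∀ j, 0 < j → j + 3 ≤ n → T.Iso ⟨n, X⟩ ⟨n, Y⟩ j) → T.HomIso ⟨n, X⟩ ⟨n, Y⟩

end Pool.Agent.L0h14.OR
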