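import Pool.Agent.L0h14.OR.Nil

/-!
# Correspondences which are inverse to each other up to correspondences which come from curves
-/

universe u v

open CategoryTheory

set_option autoImplicit false

namespace Pool.Agent.L0h14.OR

open Pool.Agent.W539.DI Pool.Agent.R941.OH Pool.Agent.N174.OC

variable {𝒪 : ℕ → Type u} [Category.{v} (Var 𝒪)] [Preadditive (Var 𝒪)] [Linear ℚ (Var 𝒪)] (T : ChowTheory 𝒪)

/-- the algebra of the algebraic operators of degree zero -/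
noncomputable def Alg0 (X : Var 𝒪) : Subalgebra ℚ (Matrix (T.r X).ι (T.r X).ι ℚ) where
  carrier := {A | ∃ Γ ∈ T.gr X X 0, ∀ x, T.act Γ x = toOp (T.r X) A x}
  mul_mem' := by
    rintro a b ⟨Γ, hΓ, h1⟩ ⟨Δ, hΔ, h2⟩
    refine ⟨Δ ≫ Γ, ?_, fun x => ?_⟩
    · have := T.comp_mem hΔ hΓ
      rwa [add_zero] at this
    · rw [T.act_comp, h2, h1, map_mul]
      rfl
  add_mem' := by
    rintro a b ⟨Γ, hΓ, h1⟩ ⟨Δ, hΔ, h2⟩
    refine ⟨Γ + Δ, add_mem hΓ hΔ, fun x => ?_⟩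
    rw [T.act_add, h2, h1, map_add]
    rfl
  algebraMap_mem' := by
    intro c
    refine ⟨c • 𝟙 X, Submodule.smul_mem _ _ (T.id_mem X), fun x => ?_⟩
    rw [act_smulQ, T.act_id]
    have := rho_smul (toOp (T.r X)) c 1 x
    rw [← Algebra.algebraMap_eq_smul_one] at this
    rw [this, map_one]
    rfl

/-- the operator of a correspondence of degree zero -/
lemma exists_op {X : Var 𝒪} {Γ : X ⟶ X} (hΓ : Γ ∈ T.gr X X 0) :
    ∃ A : Alg0 T X, ∀ x, T.act Γ x = toOp (T.r X) A x := by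
  obtain ⟨A, hA⟩ := exists_mat (T.r X) (a := actL T Γ) fun x hx => T.act_rat Γ x hx
  have h : ∀ x, T.act Γ x = toOp (T.r X) A x := fun x => by
    rw [hA]
    rfl
  exact ⟨⟨A, Γ, hΓ, h⟩, h⟩

lemma op_ext {X : Var 𝒪} {A B : Alg0 T X} (h : ∀ x, toOp (T.r X) A x = toOp (T.r X) B x) : A = B :=
  Subtype.ext (toOp_inj (T.r X) (LinearMap.ext h))

/-- `1 + N` is invertible if `N` is nilpotent of degree zero -/
lemma exists_inv0 {X : Var 𝒪} {a : End X} (ha : (a : X ⟶ X) ∈ T.gr X X 0) (hnil : IsNilpotent (a - 1)) :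
    ∃ b : End X, (b : X ⟶ X) ∈ T.gr X X 0 ∧ b * a = 1 ∧ a * b = 1 := by
  obtain ⟨k, hk⟩ := hnil
  let S : Subring (End X) :=
    { carrier := {a | (a : X ⟶ X) ∈ T.gr X X 0}
      mul_mem' := by
        intro a b ha hb
        have := T.comp_mem (Γ := (b : X ⟶ X)) (Δ := (a : X ⟶ X)) hb ha
        rwa [add_zero] at this
      one_mem' := T.id_mem X
      add_mem' := fun ha hb => Submodule.add_mem _ ha hb
      zero_mem' := Submodule.zero_mem _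
      neg_mem' := fun ha => Submodule.neg_mem _ ha }
  set β : S := ⟨a, ha⟩ with hβ
  have h1 : IsNilpotent (β - 1) := ⟨k, Subtype.ext hk⟩
  obtain ⟨U, hU⟩ := h1.isUnit_add_one
  rw [sub_add_cancel] at hU
  refine ⟨((↑U⁻¹ : S) : End X), (↑U⁻¹ : S).2, ?_, ?_⟩
  · have h3 : (↑U⁻¹ : S) * β = 1 := by rw [← hU, Units.inv_mul]
    exact congrArg Subtype.val h3
  · have h3 : β * (↑U⁻¹ : S) = 1 := by rw [← hU, Units.mul_inv]
    exact congrArg Subtype.val h3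

lemma exists_inv' {X : Var 𝒪} {a : X ⟶ X} (ha : a ∈ T.gr X X 0) (h1 : a - 𝟙 X ∈ Through 1 X X)
    (h2 : ∀ x, T.act (a - 𝟙 X) x = 0) : ∃ b ∈ T.gr X X 0, a ≫ b = 𝟙 X ∧ b ≫ a = 𝟙 X := by
  have hn := nil T X (show End X from a - 𝟙 X) h1 h2
  obtain ⟨b, hb, h3, h4⟩ := exists_inv0 T (a := (show End X from a)) ha hn
  exact ⟨b, hb, h3, h4⟩

theorem units (lift : S_Lift) : S_Units.{u, v} := by
  intro 𝒪 _ _ _ T X Y f hf g hg hk hk' hiso
  obtain ⟨φ, hφ, ψ, hψ, e1, e2⟩ := hiso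
  have z0 : ∀ {A B C : Var 𝒪} {a : A ⟶ B} {b : B ⟶ C}, a ∈ T.gr A B 0 → b ∈ T.gr B C 0 → a ≫ b ∈ T.gr A C 0 := by
    intro A B C a b ha hb
    have := T.comp_mem ha hb
    rwa [add_zero] at this
  have hfg := sub_mem (z0 hf hg) (T.id_mem X)
  have hgf := sub_mem (z0 hg hf) (T.id_mem Y)
  obtain ⟨u, hu⟩ := exists_op T (z0 hf hψ)
  obtain ⟨w, hw⟩ := exists_op T (z0 hφ hg)
  -- the ideal
  let J : Submodule ℚ (Alg0 T X) :=
    { carrier := {A | ∃ Γ ∈ T.gr X X 0, Γ ∈ Through 1 X X ∧ ∀ x, T.act Γ x = toOp (T.r X) A x}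
      zero_mem' := ⟨0, zero_mem _, zero_mem _, fun x => by
        rw [act_zero]
        simp⟩
      add_mem' := by
        rintro a b ⟨Γ, hΓ, hΓ', h1⟩ ⟨Δ, hΔ, hΔ', h2⟩
        refine ⟨Γ + Δ, add_mem hΓ hΔ, add_mem hΓ' hΔ', fun x => ?_⟩
        rw [T.act_add, h2, h1, Subalgebra.coe_add, map_add]
        rfl
      smul_mem' := by
        rintro c a ⟨Γ, hΓ, hΓ', h1⟩
        refine ⟨c • Γ, Submodule.smul_mem _ _ hΓ, Submodule.smul_mem _ _ hΓ', fun x => ?_⟩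
        rw [act_smulQ, h1, Subalgebra.coe_smul, rho_smul] }
  have hJ : ∀ a, ∀ x ∈ J, a * x ∈ J ∧ x * a ∈ J := by
    rintro ⟨a, Δ, hΔ, h2⟩ x ⟨Γ, hΓ, hΓ', h1⟩
    refine ⟨⟨Γ ≫ Δ, z0 hΓ hΔ, thru_right hΓ' Δ, fun y => ?_⟩, ⟨Δ ≫ Γ, z0 hΔ hΓ, thru_left Δ hΓ', fun y => ?_⟩⟩
    · rw [T.act_comp, h1, h2, Subalgebra.coe_mul, map_mul]
      rfl
    · rw [T.act_comp, h1, h2, Subalgebra.coe_mul, map_mul]
      rfl
  have huw : u * w - 1 ∈ J := by
    refine ⟨φ ≫ (g ≫ f - 𝟙 Y) ≫ ψ, z0 hφ (z0 hgf hψ), thru_left φ (thru_right hk' ψ), fun x => ?_⟩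
    rw [Subalgebra.coe_sub, Subalgebra.coe_mul, Subalgebra.coe_one, map_sub, map_mul, map_one, LinearMap.sub_apply,
      Module.End.mul_apply, ← hu, ← hw, Module.End.one_apply, T.act_comp, T.act_comp, act_sub, T.act_comp, T.act_id,
      ← actL_apply T ψ, map_sub, actL_apply, actL_apply, e1, T.act_comp, T.act_comp]
  have hwu : w * u - 1 ∈ J := by
    refine ⟨f ≫ g - 𝟙 X, hfg, hk, fun x => ?_⟩
    rw [Subalgebra.coe_sub, Subalgebra.coe_mul, Subalgebra.coe_one, map_sub, map_mul, map_one, LinearMap.sub_apply,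
      Module.End.mul_apply, ← hu, ← hw, Module.End.one_apply, act_sub, T.act_comp, T.act_id, T.act_comp, T.act_comp, e2]
  obtain ⟨j, ⟨Γj, hj1, hj2, hj3⟩, hunit⟩ := lift (Alg0 T X) J hJ u w huw hwu
  obtain ⟨t, ht⟩ := hunit
  obtain ⟨Γt, ht1, ht2⟩ := ((t⁻¹ : (Alg0 T X)ˣ) : Alg0 T X).2
  have t1 : ∀ x, T.act Γt (toOp (T.r X) (u + j : Alg0 T X) x) = x := by
    intro x
    rw [ht2, ← Module.End.mul_apply, ← map_mul, ← Subalgebra.coe_mul, ← ht, t.inv_mul, Subalgebra.coe_one, map_one]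
    rfl
  have t2 : ∀ x, toOp (T.r X) (u + j : Alg0 T X) (T.act Γt x) = x := by
    intro x
    rw [ht2, ← Module.End.mul_apply, ← map_mul, ← Subalgebra.coe_mul, ← ht, t.mul_inv, Subalgebra.coe_one, map_one]
    rfl
  have huj : ∀ x, toOp (T.r X) (u + j : Alg0 T X) x = T.act ψ (T.act f x) + T.act Γj x := by
    intro x
    rw [Subalgebra.coe_add, map_add, LinearMap.add_apply, ← hu, hj3, T.act_comp]
  -- the corrected morphisms
  set F : X ⟶ Y := f + Γj ≫ φ with hF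
  have hF0 : F ∈ T.gr X Y 0 := add_mem hf (z0 hj1 hφ)
  set G₀ : Y ⟶ X := ψ ≫ Γt with hG₀
  have hG₀0 : G₀ ∈ T.gr Y X 0 := z0 hψ ht1
  set k₁ : X ⟶ X := F ≫ g - 𝟙 X with hk₁
  have hk₁0 : k₁ ∈ T.gr X X 0 := sub_mem (z0 hF0 hg) (T.id_mem X)
  have hk₁t : k₁ ∈ Through 1 X X := by
    have : k₁ = (f ≫ g - 𝟙 X) + (Γj ≫ φ ≫ g) := by
      rw [hk₁, hF, Preadditive.add_comp, Category.assoc]
      abel
    rw [this]
    exact add_mem hk (thru_right hj2 _)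
  set G : Y ⟶ X := g - G₀ ≫ k₁ with hG
  have hG0 : G ∈ T.gr Y X 0 := sub_mem hg (z0 hG₀0 hk₁0)
  have actF : ∀ x, T.act ψ (T.act F x) = toOp (T.r X) (u + j : Alg0 T X) x := by
    intro x
    rw [huj, hF, T.act_add, T.act_add', T.act_comp, e1]
  have FG₀ : ∀ x, T.act G₀ (T.act F x) = x := by
    intro x
    rw [hG₀, T.act_comp, actF, t1]
  have G₀F : ∀ y, T.act F (T.act G₀ y) = y := by
    intro y
    have h1 : T.act ψ (T.act F (T.act G₀ y)) = T.act ψ y := by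
      rw [actF, hG₀, T.act_comp, t2]
    have h2 := congrArg (T.act φ) h1
    rwa [e2, e2] at h2
  have actG : ∀ y, T.act G y = T.act G₀ y := by
    intro y
    rw [hG, act_sub, T.act_comp, hk₁, act_sub, T.act_comp, T.act_id, G₀F]
    abel
  -- the compositions
  have m1 : F ≫ G - 𝟙 X ∈ Through 1 X X := by
    have : F ≫ G - 𝟙 X = k₁ - F ≫ G₀ ≫ k₁ := by
      rw [hG, Preadditive.comp_sub, hk₁]
      abel
    rw [this]
    exact sub_mem hk₁t (thru_left _ (thru_left _ hk₁t))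
  have m2 : G ≫ F - 𝟙 Y ∈ Through 1 Y Y := by
    have : G ≫ F - 𝟙 Y = (g ≫ f - 𝟙 Y) + g ≫ Γj ≫ φ - G₀ ≫ k₁ ≫ F := by
      rw [hG, Preadditive.sub_comp, hF, Preadditive.comp_add, Category.assoc]
      abel
    rw [this]
    exact sub_mem (add_mem hk' (thru_left _ (thru_right hj2 _))) (thru_left _ (thru_right hk₁t _))
  have a1 : ∀ x, T.act (F ≫ G - 𝟙 X) x = 0 := by
    intro x
    rw [act_sub, T.act_comp, T.act_id, actG, FG₀, sub_self]
  have a2 : ∀ y, T.act (G ≫ F - 𝟙 Y) y = 0 := by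
    intro y
    rw [act_sub, T.act_comp, T.act_id, actG, G₀F, sub_self]
  obtain ⟨M, hM, hM1, -⟩ := exists_inv' T (z0 hF0 hG0) m1 a1
  obtain ⟨M', hM', -, hM2⟩ := exists_inv' T (z0 hG0 hF0) m2 a2
  refine ⟨F, hF0, G ≫ M, z0 hG0 hM, ?_, ?_⟩
  · rw [← Category.assoc]
    exact hM1
  · have h1 : G ≫ M = M' ≫ G := by
      calc G ≫ M = (M' ≫ G ≫ F) ≫ (G ≫ M) := by rw [hM2, Category.id_comp]
        _ = M' ≫ G ≫ ((F ≫ G) ≫ M) := by simp only [Category.assoc]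
        _ = M' ≫ G := by rw [hM1, Category.comp_id]
    rw [h1, Category.assoc]
    exact hM2

end Pool.Agent.L0h14.OR
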